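import Pool.Agent.H49R2.PC.Stubs

/-!
Validity of the blocks of a formula.
-/

namespace Pool.Agent.H49R2.PC

open Pool.Agent.NPC Pool.Agent.NPC.Cnt Finset

namespace C1aux

/-- validity of a block -/
def GB (b : List Pt) : Prop := b ≠ [] ∧ b.Nodup ∧ (∀ s ∈ b, 1 ≤ s.1 ∧ 1 ≤ s.2) ∧
    ∀ s ∈ b, ∀ t ∈ b, s ≠ t → adjP s t

/-- validity of a block in local coordinates -/
def LB (b : List Pt) : Prop := b ≠ [] ∧ b.Nodup ∧ ∀ s ∈ b, ∀ t ∈ b, s ≠ t → adjP s t

instance (b : List Pt) : Decidable (LB b) := by unfold LB; infer_instance

theorem LB_cell (a b : Bool) : ∀ l ∈ cellB a b ++ [[(6, 0)], [(6, 0), (6, 1)], [(4, 17)]], LB l := by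
  revert a b
  decide

theorem posn_inj {n m i j : ℕ} {p q : Pt} (h : posn n m i j p = posn n m i j q) : p = q := by
  unfold posn at h
  have h1 := congrArg Prod.fst h
  have h2 := congrArg Prod.snd h
  simp only at h1 h2
  exact Prod.ext (by omega) (by omega)

theorem posn_adj {n m i j : ℕ} {p q : Pt} (h : adjP p q) :
    adjP (posn n m i j p) (posn n m i j q) := by
  obtain ⟨p1, p2⟩ := p
  obtain ⟨q1, q2⟩ := q
  unfold adjP posn at *
  simp only [Prod.mk.injEq] at *
  omega

theorem GB_posn {n m i j : ℕ} {l : List Pt} (h : LB l) : GB (l.map (posn n m i j)) := by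
  obtain ⟨h1, h2, h3⟩ := h
  refine ⟨?_, ?_, ?_, ?_⟩
  · simpa using h1
  · exact h2.map (fun _ _ h => posn_inj h)
  · intro s hs
    obtain ⟨p, -, rfl⟩ := List.mem_map.1 hs
    unfold posn
    constructor
    · show 1 ≤ 15 * j + 2 * (n - i) + 1 + p.1
      omega
    · show 1 ≤ 18 * i + 4 * (m - j) + 1 + p.2
      omega
  · intro s hs t ht hst
    obtain ⟨p, hp, rfl⟩ := List.mem_map.1 hs
    obtain ⟨q, hq, rfl⟩ := List.mem_map.1 ht
    exact posn_adj (h3 p hp q hq (fun h => hst (by rw [h])))

theorem GB_pair {s t : Pt} (hs : 1 ≤ s.1 ∧ 1 ≤ s.2) (ht : 1 ≤ t.1 ∧ 1 ≤ t.2)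
    (h : adjP s t) (h' : adjP t s) (hne : s ≠ t) : GB [s, t] := by
  refine ⟨by simp, by simp [hne], ?_, ?_⟩
  · intro x hx
    simp only [List.mem_cons, List.not_mem_nil, or_false] at hx
    rcases hx with rfl | rfl
    · exact hs
    · exact ht
  · intro x hx y hy hxy
    simp only [List.mem_cons, List.not_mem_nil, or_false] at hx hy
    rcases hx with rfl | rfl <;> rcases hy with rfl | rfl
    · exact absurd rfl hxy
    · exact h
    · exact h'
    · exact absurd rfl hxy

theorem GB_cell {n m i j : ℕ} (a b : Bool) (hi : i < n) (hj : j < m) :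
    ∀ l ∈ cellBlocks n m i j a b, GB l := by
  intro l hl
  unfold cellBlocks at hl
  rw [List.mem_append] at hl
  rcases hl with hl | hl
  · obtain ⟨l', hl', rfl⟩ := List.mem_map.1 hl
    apply GB_posn
    apply LB_cell a b
    rw [List.mem_append]
    rw [List.mem_append, List.mem_append] at hl'
    rcases hl' with (hl' | hl') | hl'
    · exact Or.inl hl'
    · right
      split_ifs at hl'
      · simp only [List.mem_cons, List.not_mem_nil, or_false] at hl' ⊢
        tauto
      · simp at hl'
    · right
      split_ifs at hl'
      · simp only [List.mem_cons, List.not_mem_nil, or_false] at hl' ⊢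
        tauto
      · simp at hl'
  · rw [List.mem_append] at hl
    rcases hl with hl | hl
    · split_ifs at hl with h
      · simp only [List.mem_cons, List.not_mem_nil, or_false] at hl
        subst hl
        apply GB_pair
        · unfold posn
          simp only
          omega
        · unfold posn
          simp only
          omega
        · unfold posn adjP
          simp only [Prod.mk.injEq]
          omega
        · unfold posn adjP
          simp only [Prod.mk.injEq]
          omega
        · unfold posn
          simp only [ne_eq, Prod.mk.injEq]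
          omega
      · simp at hl
    · split_ifs at hl with h
      · simp only [List.mem_cons, List.not_mem_nil, or_false] at hl
        subst hl
        apply GB_pair
        · unfold posn
          simp only
          omega
        · unfold posn
          simp only
          omega
        · unfold posn adjP
          simp only [Prod.mk.injEq]
          omega
        · unfold posn adjP
          simp only [Prod.mk.injEq]
          omega
        · unfold posn
          simp only [ne_eq, Prod.mk.injEq]
          omega
      · simp at hl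

end C1aux

open C1aux in
theorem C1_ok : S_C1 := by
  intro φ b hb
  unfold blocksOf at hb
  obtain ⟨r, hr, hb⟩ := List.mem_flatMap.1 hb
  obtain ⟨c, hc, hb⟩ := List.mem_flatMap.1 hb
  have h1 : r.2 < (rows φ).length := by
    obtain ⟨x, k⟩ := r
    have := List.snd_lt_of_mem_zipIdx hr
    simpa using this
  have h2 : c.2 < φ.length := by
    obtain ⟨x, k⟩ := c
    have := List.snd_lt_of_mem_zipIdx hc
    simpa using this
  exact GB_cell _ _ h1 h2 b hb

end Pool.Agent.H49R2.PC
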