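import Pool.Agent.H49R2.PC.Stubs

set_option autoImplicit false

namespace Pool.Agent.H49R2.PC

namespace C2aaux

/-- The sites of a cell. -/
def LL : List Pt :=
  [(5, 4), (4, 4), (5, 3), (3, 4), (4, 3), (5, 2), (4, 8), (5, 8), (4, 9), (6, 8), (5, 9),
    (4, 10), (10, 1), (11, 1), (10, 2), (12, 1), (11, 2), (10, 3), (7, 6), (6, 6), (5, 6), (5,
    5), (7, 7), (8, 5), (9, 4), (2, 5), (2, 6), (2, 7), (2, 8), (3, 8), (6, 1), (7, 1), (8,
    1), (9, 1), (1, 9), (1, 10), (1, 11), (1, 12), (2, 12), (0, 13), (0, 14), (0, 15), (0,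
    16), (1, 16), (2, 16), (13, 1), (14, 1), (15, 1), (16, 1), (4, 13), (4, 14), (4, 17), (4,
    18), (4, 11), (4, 12), (3, 12), (4, 15), (4, 16), (3, 16)]

theorem mem_LL : ∀ p ∈ (cellB true true).flatten, p ∈ LL := by
  decide

/-- The sites of a cell of the row `i`. -/
def L0 : List Pt := (6, 0) :: LL

theorem site_LL {i : ℕ} {p : Pt} (h : SiteP i p) : p ∈ L0 ∧ (0 < i → p ∈ LL) := by
  rcases h with ⟨b, hb, hp⟩ | ⟨hi, rfl⟩
  · have h1 := mem_LL p (List.mem_flatten.2 ⟨b, hb, hp⟩)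
    exact ⟨List.mem_cons_of_mem _ h1, fun _ => h1⟩
  · exact ⟨List.mem_cons_self, fun h => by omega⟩

theorem bound : ∀ p ∈ L0, p.1 ≤ 16 ∧ p.2 ≤ 18 := by
  decide

/-- Adjacency of the translates of two sites. -/
def adjB (a b c d : ℕ) (p q : Pt) : Bool :=
  (Nat.beq (q.1 + c) (p.1 + a + 1) && Nat.beq (q.2 + d) (p.2 + b)) ||
  (Nat.beq (p.1 + a) (q.1 + c + 1) && Nat.beq (q.2 + d) (p.2 + b)) ||
  (Nat.beq (q.1 + c) (p.1 + a) && Nat.beq (q.2 + d) (p.2 + b + 1)) ||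
  (Nat.beq (q.1 + c) (p.1 + a) && Nat.beq (p.2 + b) (q.2 + d + 1)) ||
  (Nat.beq (q.1 + c + 1) (p.1 + a) && Nat.beq (q.2 + d) (p.2 + b + 1)) ||
  (Nat.beq (p.1 + a + 1) (q.1 + c) && Nat.beq (p.2 + b) (q.2 + d + 1))

/-- The finite check. -/
def chk (a b c d : ℕ) (M : List Pt) (f : Pt → Pt → Bool) : Bool :=
  L0.all fun p => M.all fun q => !adjB a b c d p q || f p q

theorem chk_spec {a b c d : ℕ} {M : List Pt} {f : Pt → Pt → Bool} (h : chk a b c d M f = true)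
    {p q : Pt} (hp : p ∈ L0) (hq : q ∈ M) (hpq : adjB a b c d p q = true) : f p q = true := by
  unfold chk at h
  rw [List.all_eq_true] at h
  have h1 := h p hp
  rw [List.all_eq_true] at h1
  have h2 := h1 q hq
  rw [hpq] at h2
  simpa using h2

theorem chk1 : chk 0 4 15 0 L0
    (fun p q => Nat.beq p.1 16 && Nat.beq p.2 1 && (Nat.beq q.1 2 && Nat.beq q.2 5)) = true := by
  decide +kernel

theorem chk2 : chk 2 0 0 18 LL
    (fun p q => Nat.beq p.1 4 && Nat.beq p.2 18 && (Nat.beq q.1 6 && Nat.beq q.2 1)) = true := by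
  decide +kernel

theorem chk3 : chk 2 4 15 18 LL (fun _ _ => false) = true := by
  decide +kernel

theorem chk4 : chk 17 0 0 22 LL (fun _ _ => false) = true := by
  decide +kernel

theorem adj_iff (s t : Pt) : adjP s t ↔
    (t.1 = s.1 + 1 ∧ t.2 = s.2) ∨ (s.1 = t.1 + 1 ∧ t.2 = s.2) ∨ (t.1 = s.1 ∧ t.2 = s.2 + 1) ∨
    (t.1 = s.1 ∧ s.2 = t.2 + 1) ∨ (t.1 + 1 = s.1 ∧ t.2 = s.2 + 1) ∨
    (s.1 + 1 = t.1 ∧ s.2 = t.2 + 1) := by
  obtain ⟨a, b⟩ := s
  obtain ⟨c, d⟩ := t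
  unfold adjP
  simp only [Prod.mk.injEq]
  omega

theorem adj_symm {s t : Pt} (h : adjP s t) : adjP t s := by
  rw [adj_iff] at h ⊢
  omega

theorem adjB_iff (a b c d : ℕ) (p q : Pt) :
    adjB a b c d p q = true ↔ adjP (p.1 + a, p.2 + b) (q.1 + c, q.2 + d) := by
  rw [adj_iff]
  unfold adjB
  simp only [Bool.or_eq_true, Bool.and_eq_true, Nat.beq_eq]
  omega

theorem beq4 {p q : Pt} {a b c d : ℕ}
    (h : (Nat.beq p.1 a && Nat.beq p.2 b && (Nat.beq q.1 c && Nat.beq q.2 d)) = true) :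
    p = (a, b) ∧ q = (c, d) := by
  simp only [Bool.and_eq_true, Nat.beq_eq] at h
  exact ⟨Prod.ext h.1.1 h.1.2, Prod.ext h.2.1 h.2.2⟩

theorem main (n m i j i' j' : ℕ) (p q : Pt) (hi : i < n) (hi' : i' < n) (hj : j < m)
    (hj' : j' < m) (hp : SiteP i p) (hq : SiteP i' q)
    (h : adjP (posn n m i j p) (posn n m i' j' q)) :
    (i' = i ∧ j' = j ∧ adjP p q) ∨
    (i' = i ∧ j' = j + 1 ∧ p = (16, 1) ∧ q = (2, 5)) ∨
    (i' = i + 1 ∧ j' = j ∧ p = (4, 18) ∧ q = (6, 1)) ∨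
    i' < i ∨ (i' = i ∧ j' < j) := by
  obtain ⟨hp1, -⟩ := site_LL hp
  obtain ⟨hq1, hq2⟩ := site_LL hq
  obtain ⟨bp1, bp2⟩ := bound p hp1
  obtain ⟨bq1, bq2⟩ := bound q hq1
  rw [adj_iff] at h
  simp only [posn] at h
  obtain ⟨u, hu⟩ : ∃ u, n = i + u := ⟨n - i, by omega⟩
  obtain ⟨u', hu'⟩ : ∃ u', n = i' + u' := ⟨n - i', by omega⟩
  obtain ⟨w, hw⟩ : ∃ w, m = j + w := ⟨m - j, by omega⟩
  obtain ⟨w', hw'⟩ : ∃ w', m = j' + w' := ⟨m - j', by omega⟩
  have e1 : n - i = u := by omega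
  have e2 : n - i' = u' := by omega
  have e3 : m - j = w := by omega
  have e4 : m - j' = w' := by omega
  rw [e1, e2, e3, e4] at h
  have x1 : 15 * j' + 2 * u' + q.1 ≤ 15 * j + 2 * u + p.1 + 1 := by
    rcases h with h | h | h | h | h | h <;> omega
  have x2 : 15 * j + 2 * u + p.1 ≤ 15 * j' + 2 * u' + q.1 + 1 := by
    rcases h with h | h | h | h | h | h <;> omega
  have y1 : 18 * i' + 4 * w' + q.2 ≤ 18 * i + 4 * w + p.2 + 1 := by
    rcases h with h | h | h | h | h | h <;> omega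
  have y2 : 18 * i + 4 * w + p.2 ≤ 18 * i' + 4 * w' + q.2 + 1 := by
    rcases h with h | h | h | h | h | h <;> omega
  have z1 : i' ≤ i + 1 := by omega
  have z2 : i ≤ i' + 1 := by omega
  have z3 : j' ≤ j + 1 := by omega
  have z4 : j ≤ j' + 1 := by omega
  clear x1 x2 y1 y2 e1 e2 e3 e4 bp1 bp2 bq1 bq2
  rcases lt_trichotomy i' i with hlt | hieq | hgt
  · exact Or.inr (Or.inr (Or.inr (Or.inl hlt)))
  · rcases lt_trichotomy j' j with hlt | hjeq | hgt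
    · exact Or.inr (Or.inr (Or.inr (Or.inr ⟨hieq, hlt⟩)))
    · left
      refine ⟨hieq, hjeq, ?_⟩
      rw [adj_iff]
      refine h.imp ?_ (Or.imp ?_ (Or.imp ?_ (Or.imp ?_ (Or.imp ?_ ?_)))) <;> intro h <;> omega
    · right; left
      refine ⟨hieq, by omega, ?_⟩
      apply beq4
      refine chk_spec chk1 hp1 hq1 ((adjB_iff _ _ _ _ _ _).2 ?_)
      rw [adj_iff]
      simp only
      refine h.imp ?_ (Or.imp ?_ (Or.imp ?_ (Or.imp ?_ (Or.imp ?_ ?_)))) <;> intro h <;> omega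
  · have hq3 := hq2 (by omega)
    rcases lt_trichotomy j' j with hlt | hjeq | hgt'
    · exfalso
      have h1 := chk_spec chk4 hp1 hq3 ((adjB_iff _ _ _ _ _ _).2 (by
        rw [adj_iff]
        simp only
        refine h.imp ?_ (Or.imp ?_ (Or.imp ?_ (Or.imp ?_ (Or.imp ?_ ?_)))) <;> intro h <;> omega))
      exact Bool.false_ne_true h1
    · right; right; left
      refine ⟨by omega, hjeq, ?_⟩
      apply beq4
      refine chk_spec chk2 hp1 hq3 ((adjB_iff _ _ _ _ _ _).2 ?_)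
      rw [adj_iff]
      simp only
      refine h.imp ?_ (Or.imp ?_ (Or.imp ?_ (Or.imp ?_ (Or.imp ?_ ?_)))) <;> intro h <;> omega
    · exfalso
      have h1 := chk_spec chk3 hp1 hq3 ((adjB_iff _ _ _ _ _ _).2 (by
        rw [adj_iff]
        simp only
        refine h.imp ?_ (Or.imp ?_ (Or.imp ?_ (Or.imp ?_ (Or.imp ?_ ?_)))) <;> intro h <;> omega))
      exact Bool.false_ne_true h1

end C2aaux

open C2aaux in
theorem C2a_ok : S_C2a := by
  intro n m i j i' j' p q hi hi' hj hj' hp hq h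
  have h1 := main n m i j i' j' p q hi hi' hj hj' hp hq h
  have h2 := main n m i' j' i j q p hi' hi hj' hj hq hp (adj_symm h)
  rcases h1 with h1 | h1 | h1 | h1 | h1
  · exact Or.inl h1
  · exact Or.inr (Or.inl h1)
  · exact Or.inr (Or.inr (Or.inr (Or.inl h1)))
  all_goals
    rcases h2 with ⟨a, b, c⟩ | h2 | h2 | h2 | h2
    · exact Or.inl ⟨a.symm, b.symm, adj_symm c⟩
    · exact Or.inr (Or.inr (Or.inl h2))
    · exact Or.inr (Or.inr (Or.inr (Or.inr h2)))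
    · exfalso; omega
    · exfalso; omega

end Pool.Agent.H49R2.PC
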