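import Pool.Agent.H49R2.PC.Stubs

/-!
# C2b: different cells have different sites
-/

namespace Pool.Agent.H49R2.PC

namespace C2baux

/-- all sites, in local coordinates -/
def sites : List Pt := (6, 0) :: (cellB true true).flatten

theorem mem_sites {i : ℕ} {p : Pt} (h : SiteP i p) : p ∈ sites ∧ (1 ≤ i → p ≠ (6, 0)) := by
  have h0 : ∀ b ∈ cellB true true, (6, 0) ∉ b := by decide +kernel
  rcases h with ⟨b, hb, hp⟩ | ⟨hi, hp⟩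
  · refine ⟨List.mem_cons_of_mem _ (List.mem_flatten.2 ⟨b, hb, hp⟩), fun _ h => ?_⟩
    rw [h] at hp
    exact h0 b hb hp
  · refine ⟨?_, fun h => ?_⟩
    · rw [hp]
      exact List.mem_cons_self
    · omega

theorem bounds : ∀ p ∈ sites, p.1 ≤ 16 ∧ p.2 ≤ 18 := by decide +kernel

theorem check : ∀ p ∈ sites, ∀ q ∈ sites, ¬ (p.1 = q.1 + 15 ∧ p.2 + 4 = q.2) ∧
    (q ≠ (6, 0) → ¬ (q.1 = p.1 + 2 ∧ p.2 = q.2 + 18) ∧ ¬ (p.1 = q.1 + 13 ∧ p.2 = q.2 + 14)) := by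
  decide +kernel

end C2baux

open C2baux in
theorem C2b_ok : S_C2b := by
  intro n m i j i' j' p q hi hi' hj hj' hp hq h
  obtain ⟨hp1, hp2⟩ := mem_sites hp
  obtain ⟨hq1, hq2⟩ := mem_sites hq
  have bp := bounds p hp1
  have bq := bounds q hq1
  have c1 := check p hp1 q hq1
  have c2 := check q hq1 p hp1
  obtain ⟨p1, p2⟩ := p
  obtain ⟨q1, q2⟩ := q
  simp only [posn, Prod.mk.injEq] at h bp bq c1 c2 ⊢
  obtain ⟨h1, h2⟩ := h
  have key : (i = i' ∧ j = j') ∨ (i' = i ∧ j' = j + 1) ∨ (i = i' ∧ j = j' + 1) ∨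
      (i' = i + 1 ∧ j' = j) ∨ (i = i' + 1 ∧ j = j') ∨ (i' = i + 1 ∧ j' = j + 1) ∨
      (i = i' + 1 ∧ j = j' + 1) := by
    omega
  rcases key with ⟨rfl, rfl⟩ | ⟨rfl, rfl⟩ | ⟨rfl, rfl⟩ | ⟨rfl, rfl⟩ | ⟨rfl, rfl⟩ | ⟨rfl, rfl⟩ |
    ⟨rfl, rfl⟩
  · exact ⟨rfl, rfl, by omega, by omega⟩
  · exact absurd ⟨by omega, by omega⟩ c1.1
  · exact absurd ⟨by omega, by omega⟩ c2.1
  · exact absurd ⟨by omega, by omega⟩ (c1.2 (hq2 (by omega))).1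
  · exact absurd ⟨by omega, by omega⟩ (c2.2 (hp2 (by omega))).1
  · exact absurd ⟨by omega, by omega⟩ (c1.2 (hq2 (by omega))).2
  · exact absurd ⟨by omega, by omega⟩ (c2.2 (hp2 (by omega))).2

end Pool.Agent.H49R2.PC
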