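import Pool.Agent.H49R2.PC.Stubs

/-!
# The relation of a cell: necessary condition
-/

namespace Pool.Agent.H49R2.PC

namespace C3aux

theorem len_filter (I : Pt → Bool) (l : List Pt) :
    (l.filter I).length = (l.map fun p => (I p).toNat).sum := by
  induction l with
  | nil => rfl
  | cons x l ih =>
    rw [List.map_cons, List.sum_cons, ← ih]
    cases h : I x
    · rw [List.filter_cons_of_neg (by simp [h])]; simp
    · rw [List.filter_cons_of_pos h]; simp; omega

theorem two {a b : Bool} {I : Pt → Bool} (h : LSel a b I) (p q : Pt) (hm : [p, q] ∈ cellA) :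
    (I p).toNat + (I q).toNat = 1 := by
  have := h.1 [p, q] (by unfold cellB; exact List.mem_append_left _ hm)
  rw [len_filter] at this
  simpa using this

theorem three {a b : Bool} {I : Pt → Bool} (h : LSel a b I) (p q r : Pt)
    (hm : [p, q, r] ∈ cellA) : (I p).toNat + (I q).toNat + (I r).toNat = 1 := by
  have := h.1 [p, q, r] (by unfold cellB; exact List.mem_append_left _ hm)
  rw [len_filter] at this
  simpa [add_assoc] using this

theorem le_one (x : Bool) : x.toNat ≤ 1 := by cases x <;> simp

theorem toNat_conf {x y : Bool} (h : x = true → y = true → False) : x.toNat + y.toNat ≤ 1 := by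
  cases x <;> cases y <;> simp_all

/-- a conflict between sites of different blocks -/
theorem conf {a b : Bool} {I : Pt → Bool} (h : LSel a b I) (l l' : List Pt) (p q : Pt)
    (hl : l ∈ cellB a b) (hl' : l' ∈ cellB a b) (hp : p ∈ l) (hq : q ∈ l') (ha : adjP p q) :
    (I p).toNat + (I q).toNat ≤ 1 :=
  toNat_conf fun h1 h2 => h.2 l hl l' hl' p hp q hq h1 h2 ha

theorem eq_not {x y : Bool} (h : x.toNat + y.toNat = 1) : x = !y := by
  cases x <;> cases y <;> simp_all

theorem eq_true {x : Bool} (h : x.toNat = 1) : x = true := by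
  cases x <;> simp_all

theorem eq_false {x : Bool} (h : x.toNat = 0) : x = false := by
  cases x <;> simp_all

end C3aux

open C3aux

theorem C3_ok : S_C3 := by
  intro a b I h
  have w1 := two h (7, 6) (6, 6) (by decide)
  have w2 := two h (6, 6) (5, 6) (by decide)
  have w3 := two h (5, 6) (5, 5) (by decide)
  have w4 := two h (5, 5) (5, 4) (by decide)
  have w5 := two h (7, 6) (7, 7) (by decide)
  have w6 := two h (7, 7) (6, 8) (by decide)
  have w7 := two h (7, 6) (8, 5) (by decide)
  have w8 := two h (8, 5) (9, 4) (by decide)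
  have w9 := two h (9, 4) (10, 3) (by decide)
  have x1 := two h (2, 5) (3, 4) (by decide)
  have x2 := two h (2, 5) (2, 6) (by decide)
  have x3 := two h (2, 6) (2, 7) (by decide)
  have x4 := two h (2, 7) (2, 8) (by decide)
  have x5 := two h (2, 8) (3, 8) (by decide)
  have x6 := two h (3, 8) (4, 8) (by decide)
  have y1 := two h (6, 1) (5, 2) (by decide)
  have y2 := two h (6, 1) (7, 1) (by decide)
  have y3 := two h (7, 1) (8, 1) (by decide)
  have y4 := two h (8, 1) (9, 1) (by decide)
  have y5 := two h (9, 1) (10, 1) (by decide)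
  have z1 := two h (2, 8) (1, 9) (by decide)
  have z2 := two h (1, 9) (1, 10) (by decide)
  have z3 := two h (1, 10) (1, 11) (by decide)
  have z4 := two h (1, 11) (1, 12) (by decide)
  have z5 := two h (1, 12) (2, 12) (by decide)
  have z6 := two h (1, 12) (0, 13) (by decide)
  have z7 := two h (0, 13) (0, 14) (by decide)
  have z8 := two h (0, 14) (0, 15) (by decide)
  have z9 := two h (0, 15) (0, 16) (by decide)
  have z10 := two h (0, 16) (1, 16) (by decide)
  have z11 := two h (1, 16) (2, 16) (by decide)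
  have v1 := two h (12, 1) (13, 1) (by decide)
  have v2 := two h (13, 1) (14, 1) (by decide)
  have v3 := two h (14, 1) (15, 1) (by decide)
  have v4 := two h (15, 1) (16, 1) (by decide)
  have u1 := two h (4, 13) (4, 14) (by decide)
  have u2 := two h (4, 17) (4, 18) (by decide)
  have g1 := three h (5, 4) (4, 4) (5, 3) (by decide)
  have g2 := three h (3, 4) (4, 4) (4, 3) (by decide)
  have g3 := three h (5, 2) (5, 3) (4, 3) (by decide)
  have g4 := three h (4, 8) (5, 8) (4, 9) (by decide)
  have g5 := three h (6, 8) (5, 8) (5, 9) (by decide)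
  have g6 := three h (4, 10) (4, 9) (5, 9) (by decide)
  have g7 := three h (10, 1) (11, 1) (10, 2) (by decide)
  have g8 := three h (12, 1) (11, 1) (11, 2) (by decide)
  have g9 := three h (10, 3) (10, 2) (11, 2) (by decide)
  -- the wires
  have a1 : (I (5, 4)).toNat = (I (7, 6)).toNat := by omega
  have a2 : (I (6, 8)).toNat = (I (7, 6)).toNat := by omega
  have a3 : (I (10, 3)).toNat + (I (7, 6)).toNat = 1 := by omega
  have a4 : (I (2, 8)).toNat + (I (2, 5)).toNat = 1 := by omega
  have a5 : (I (4, 8)).toNat + (I (2, 5)).toNat = 1 := by omega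
  have a6 : (I (10, 1)).toNat = (I (6, 1)).toNat := by omega
  have a7 : (I (1, 12)).toNat + (I (2, 5)).toNat = 1 := by omega
  have a8 : (I (2, 12)).toNat = (I (2, 5)).toNat := by omega
  have a9 : (I (2, 16)).toNat + (I (2, 5)).toNat = 1 := by omega
  have a10 : (I (16, 1)).toNat = (I (12, 1)).toNat := by omega
  clear w1 w2 w3 w4 w5 w6 w7 w8 w9 x2 x3 x4 x5 x6 y2 y3 y4 y5 z1 z2 z3 z4 z5 z6 z7 z8 z9 z10 z11
    v1 v2 v3 v4
  -- the parity gadgets
  have b1 : (I (7, 6)).toNat + (I (3, 4)).toNat + (I (5, 2)).toNat = 1 ∨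
      (I (7, 6)).toNat + (I (3, 4)).toNat + (I (5, 2)).toNat = 3 := by omega
  have b2 : (I (4, 8)).toNat + (I (7, 6)).toNat + (I (4, 10)).toNat = 1 ∨
      (I (4, 8)).toNat + (I (7, 6)).toNat + (I (4, 10)).toNat = 3 := by omega
  have b3 : (I (10, 1)).toNat + (I (12, 1)).toNat + (I (10, 3)).toNat = 1 ∨
      (I (10, 1)).toNat + (I (12, 1)).toNat + (I (10, 3)).toNat = 3 := by omega
  clear g1 g2 g3 g4 g5 g6 g7 g8 g9
  have l1 := le_one (I (4, 10))
  have l2 := le_one (I (7, 6))
  have l3 := le_one (I (6, 1))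
  have l4 := le_one (I (2, 5))
  have l5 := le_one (I (12, 1))
  have c1 : (I (4, 10)).toNat + (I (6, 1)).toNat = 1 := by omega
  have c2 : (I (16, 1)).toNat + (I (2, 5)).toNat = 1 := by omega
  clear b1 b2 b3
  refine ⟨eq_not c2, ?_, eq_not (by rw [add_comm]; exact u2)⟩
  intro h17
  have h17' : (I (4, 17)).toNat = 1 := by rw [h17]; rfl
  have m1 : [((4 : ℕ), (11 : ℕ)), (4, 12)] ++ (if a then [(3, 12)] else []) ∈ cellB a b := by
    unfold cellB; exact List.mem_append_right _ (by simp)
  have m2 : [((4 : ℕ), (15 : ℕ)), (4, 16)] ++ (if b then [(3, 16)] else []) ∈ cellB a b := by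
    unfold cellB; exact List.mem_append_right _ (by simp)
  have m3 : [((4 : ℕ), (10 : ℕ)), (4, 9), (5, 9)] ∈ cellB a b := by
    unfold cellB; exact List.mem_append_left _ (by decide)
  have m4 : [((4 : ℕ), (13 : ℕ)), (4, 14)] ∈ cellB a b := by
    unfold cellB; exact List.mem_append_left _ (by decide)
  have m5 : [((4 : ℕ), (17 : ℕ)), (4, 18)] ∈ cellB a b := by
    unfold cellB; exact List.mem_append_left _ (by decide)
  have m6 : [((1 : ℕ), (12 : ℕ)), (2, 12)] ∈ cellB a b := by
    unfold cellB; exact List.mem_append_left _ (by decide)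
  have m7 : [((1 : ℕ), (16 : ℕ)), (2, 16)] ∈ cellB a b := by
    unfold cellB; exact List.mem_append_left _ (by decide)
  have n1 := h.1 _ m1
  have n2 := h.1 _ m2
  rw [len_filter] at n1 n2
  have k1 := conf h _ _ (4, 10) (4, 11) m3 m1 (by simp) (by simp) (by decide)
  have k2 := conf h _ _ (4, 12) (4, 13) m1 m4 (by simp) (by simp) (by decide)
  have k3 := conf h _ _ (4, 14) (4, 15) m4 m2 (by simp) (by simp) (by decide)
  have k4 := conf h _ _ (4, 16) (4, 17) m2 m5 (by simp) (by simp) (by decide)
  have k5 : a = true → (I (2, 12)).toNat + (I (3, 12)).toNat ≤ 1 := by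
    intro ha
    exact conf h _ _ (2, 12) (3, 12) m6 m1 (by simp) (by simp [ha]) (by decide)
  have k6 : b = true → (I (2, 16)).toNat + (I (3, 16)).toNat ≤ 1 := by
    intro hb
    exact conf h _ _ (2, 16) (3, 16) m7 m2 (by simp) (by simp [hb]) (by decide)
  cases a <;> cases b <;> simp at n1 n2 k5 k6
  · left; apply C3aux.eq_true; omega
  · by_cases hX : I (2, 5) = true
    · right; right; exact ⟨rfl, hX⟩
    · have hX' : (I (2, 5)).toNat = 0 := by simp at hX; rw [hX]; rfl
      left; apply C3aux.eq_true; omega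
  · by_cases hX : I (2, 5) = false
    · right; left; exact ⟨rfl, hX⟩
    · have hX' : (I (2, 5)).toNat = 1 := by simp at hX; rw [hX]; rfl
      left; apply C3aux.eq_true; omega
  · by_cases hX : I (2, 5) = true
    · right; right; exact ⟨rfl, hX⟩
    · right; left; exact ⟨rfl, by simpa using hX⟩

end Pool.Agent.H49R2.PC
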