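import Pool.Agent.H49R2.PC.Stubs

set_option autoImplicit false

namespace Pool.Agent.H49R2.PC

open Pool.Agent.NPC Pool.Agent.NPC.Cnt Finset

namespace C4aux

/-- the selected sites -/
def tab : Bool → Bool → Bool → Bool → Bool → List Pt
  | false, false, false, false, false => [(0, 14), (0, 16), (1, 10), (1, 12), (2, 6), (2, 8), (2, 16), (3, 4), (4, 8), (4, 10), (4, 12), (4, 14), (4, 16), (4, 18), (5, 2), (5, 4), (5, 6), (6, 8), (7, 1), (7, 6), (9, 1), (9, 4), (10, 2), (12, 1), (14, 1), (16, 1)]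
  | false, false, false, true, false => [(0, 14), (0, 16), (1, 10), (1, 12), (2, 6), (2, 8), (2, 16), (3, 4), (4, 8), (4, 11), (4, 13), (4, 15), (4, 18), (5, 3), (5, 5), (5, 9), (6, 1), (6, 6), (7, 7), (8, 1), (8, 5), (10, 1), (10, 3), (12, 1), (14, 1), (16, 1)]
  | false, false, false, true, true => [(0, 14), (0, 16), (1, 10), (1, 12), (2, 6), (2, 8), (2, 16), (3, 4), (4, 8), (4, 11), (4, 13), (4, 15), (4, 17), (5, 3), (5, 5), (5, 9), (6, 1), (6, 6), (7, 7), (8, 1), (8, 5), (10, 1), (10, 3), (12, 1), (14, 1), (16, 1)]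
  | false, false, true, false, false => [(0, 13), (0, 15), (1, 9), (1, 11), (1, 16), (2, 5), (2, 7), (2, 12), (3, 8), (4, 4), (4, 10), (4, 12), (4, 14), (4, 16), (4, 18), (5, 2), (5, 5), (5, 8), (6, 6), (7, 1), (7, 7), (8, 5), (9, 1), (10, 3), (11, 1), (13, 1), (15, 1)]
  | false, false, true, true, false => [(0, 13), (0, 15), (1, 9), (1, 11), (1, 16), (2, 5), (2, 7), (2, 12), (3, 8), (4, 3), (4, 9), (4, 11), (4, 13), (4, 15), (4, 18), (5, 4), (5, 6), (6, 1), (6, 8), (7, 6), (8, 1), (9, 4), (10, 1), (11, 2), (13, 1), (15, 1)]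
  | false, false, true, true, true => [(0, 13), (0, 15), (1, 9), (1, 11), (1, 16), (2, 5), (2, 7), (2, 12), (3, 8), (4, 3), (4, 9), (4, 11), (4, 13), (4, 15), (4, 17), (5, 4), (5, 6), (6, 1), (6, 8), (7, 6), (8, 1), (9, 4), (10, 1), (11, 2), (13, 1), (15, 1)]
  | false, true, false, false, false => [(0, 14), (0, 16), (1, 10), (1, 12), (2, 6), (2, 8), (2, 16), (3, 4), (4, 8), (4, 10), (4, 12), (4, 14), (4, 16), (4, 18), (5, 2), (5, 4), (5, 6), (6, 8), (7, 1), (7, 6), (9, 1), (9, 4), (10, 2), (12, 1), (14, 1), (16, 1)]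
  | false, true, false, true, false => [(0, 14), (0, 16), (1, 10), (1, 12), (2, 6), (2, 8), (2, 16), (3, 4), (4, 8), (4, 11), (4, 13), (4, 15), (4, 18), (5, 3), (5, 5), (5, 9), (6, 1), (6, 6), (7, 7), (8, 1), (8, 5), (10, 1), (10, 3), (12, 1), (14, 1), (16, 1)]
  | false, true, false, true, true => [(0, 14), (0, 16), (1, 10), (1, 12), (2, 6), (2, 8), (2, 16), (3, 4), (4, 8), (4, 11), (4, 13), (4, 15), (4, 17), (5, 3), (5, 5), (5, 9), (6, 1), (6, 6), (7, 7), (8, 1), (8, 5), (10, 1), (10, 3), (12, 1), (14, 1), (16, 1)]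
  | false, true, true, false, false => [(0, 13), (0, 15), (1, 9), (1, 11), (1, 16), (2, 5), (2, 7), (2, 12), (3, 8), (3, 16), (4, 4), (4, 10), (4, 12), (4, 14), (4, 18), (5, 2), (5, 5), (5, 8), (6, 6), (7, 1), (7, 7), (8, 5), (9, 1), (10, 3), (11, 1), (13, 1), (15, 1)]
  | false, true, true, false, true => [(0, 13), (0, 15), (1, 9), (1, 11), (1, 16), (2, 5), (2, 7), (2, 12), (3, 8), (3, 16), (4, 4), (4, 10), (4, 12), (4, 14), (4, 17), (5, 2), (5, 5), (5, 8), (6, 6), (7, 1), (7, 7), (8, 5), (9, 1), (10, 3), (11, 1), (13, 1), (15, 1)]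
  | false, true, true, true, false => [(0, 13), (0, 15), (1, 9), (1, 11), (1, 16), (2, 5), (2, 7), (2, 12), (3, 8), (3, 16), (4, 3), (4, 9), (4, 11), (4, 13), (4, 18), (5, 4), (5, 6), (6, 1), (6, 8), (7, 6), (8, 1), (9, 4), (10, 1), (11, 2), (13, 1), (15, 1)]
  | false, true, true, true, true => [(0, 13), (0, 15), (1, 9), (1, 11), (1, 16), (2, 5), (2, 7), (2, 12), (3, 8), (3, 16), (4, 3), (4, 9), (4, 11), (4, 13), (4, 17), (5, 4), (5, 6), (6, 1), (6, 8), (7, 6), (8, 1), (9, 4), (10, 1), (11, 2), (13, 1), (15, 1)]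
  | true, false, false, false, false => [(0, 14), (0, 16), (1, 10), (1, 12), (2, 6), (2, 8), (2, 16), (3, 4), (3, 12), (4, 8), (4, 10), (4, 13), (4, 15), (4, 18), (5, 2), (5, 4), (5, 6), (6, 8), (7, 1), (7, 6), (9, 1), (9, 4), (10, 2), (12, 1), (14, 1), (16, 1)]
  | true, false, false, false, true => [(0, 14), (0, 16), (1, 10), (1, 12), (2, 6), (2, 8), (2, 16), (3, 4), (3, 12), (4, 8), (4, 10), (4, 13), (4, 15), (4, 17), (5, 2), (5, 4), (5, 6), (6, 8), (7, 1), (7, 6), (9, 1), (9, 4), (10, 2), (12, 1), (14, 1), (16, 1)]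
  | true, false, false, true, false => [(0, 14), (0, 16), (1, 10), (1, 12), (2, 6), (2, 8), (2, 16), (3, 4), (3, 12), (4, 8), (4, 13), (4, 15), (4, 18), (5, 3), (5, 5), (5, 9), (6, 1), (6, 6), (7, 7), (8, 1), (8, 5), (10, 1), (10, 3), (12, 1), (14, 1), (16, 1)]
  | true, false, false, true, true => [(0, 14), (0, 16), (1, 10), (1, 12), (2, 6), (2, 8), (2, 16), (3, 4), (3, 12), (4, 8), (4, 13), (4, 15), (4, 17), (5, 3), (5, 5), (5, 9), (6, 1), (6, 6), (7, 7), (8, 1), (8, 5), (10, 1), (10, 3), (12, 1), (14, 1), (16, 1)]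
  | true, false, true, false, false => [(0, 13), (0, 15), (1, 9), (1, 11), (1, 16), (2, 5), (2, 7), (2, 12), (3, 8), (4, 4), (4, 10), (4, 12), (4, 14), (4, 16), (4, 18), (5, 2), (5, 5), (5, 8), (6, 6), (7, 1), (7, 7), (8, 5), (9, 1), (10, 3), (11, 1), (13, 1), (15, 1)]
  | true, false, true, true, false => [(0, 13), (0, 15), (1, 9), (1, 11), (1, 16), (2, 5), (2, 7), (2, 12), (3, 8), (4, 3), (4, 9), (4, 11), (4, 13), (4, 15), (4, 18), (5, 4), (5, 6), (6, 1), (6, 8), (7, 6), (8, 1), (9, 4), (10, 1), (11, 2), (13, 1), (15, 1)]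
  | true, false, true, true, true => [(0, 13), (0, 15), (1, 9), (1, 11), (1, 16), (2, 5), (2, 7), (2, 12), (3, 8), (4, 3), (4, 9), (4, 11), (4, 13), (4, 15), (4, 17), (5, 4), (5, 6), (6, 1), (6, 8), (7, 6), (8, 1), (9, 4), (10, 1), (11, 2), (13, 1), (15, 1)]
  | true, true, false, false, false => [(0, 14), (0, 16), (1, 10), (1, 12), (2, 6), (2, 8), (2, 16), (3, 4), (3, 12), (4, 8), (4, 10), (4, 13), (4, 15), (4, 18), (5, 2), (5, 4), (5, 6), (6, 8), (7, 1), (7, 6), (9, 1), (9, 4), (10, 2), (12, 1), (14, 1), (16, 1)]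
  | true, true, false, false, true => [(0, 14), (0, 16), (1, 10), (1, 12), (2, 6), (2, 8), (2, 16), (3, 4), (3, 12), (4, 8), (4, 10), (4, 13), (4, 15), (4, 17), (5, 2), (5, 4), (5, 6), (6, 8), (7, 1), (7, 6), (9, 1), (9, 4), (10, 2), (12, 1), (14, 1), (16, 1)]
  | true, true, false, true, false => [(0, 14), (0, 16), (1, 10), (1, 12), (2, 6), (2, 8), (2, 16), (3, 4), (3, 12), (4, 8), (4, 13), (4, 15), (4, 18), (5, 3), (5, 5), (5, 9), (6, 1), (6, 6), (7, 7), (8, 1), (8, 5), (10, 1), (10, 3), (12, 1), (14, 1), (16, 1)]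
  | true, true, false, true, true => [(0, 14), (0, 16), (1, 10), (1, 12), (2, 6), (2, 8), (2, 16), (3, 4), (3, 12), (4, 8), (4, 13), (4, 15), (4, 17), (5, 3), (5, 5), (5, 9), (6, 1), (6, 6), (7, 7), (8, 1), (8, 5), (10, 1), (10, 3), (12, 1), (14, 1), (16, 1)]
  | true, true, true, false, false => [(0, 13), (0, 15), (1, 9), (1, 11), (1, 16), (2, 5), (2, 7), (2, 12), (3, 8), (3, 16), (4, 4), (4, 10), (4, 12), (4, 14), (4, 18), (5, 2), (5, 5), (5, 8), (6, 6), (7, 1), (7, 7), (8, 5), (9, 1), (10, 3), (11, 1), (13, 1), (15, 1)]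
  | true, true, true, false, true => [(0, 13), (0, 15), (1, 9), (1, 11), (1, 16), (2, 5), (2, 7), (2, 12), (3, 8), (3, 16), (4, 4), (4, 10), (4, 12), (4, 14), (4, 17), (5, 2), (5, 5), (5, 8), (6, 6), (7, 1), (7, 7), (8, 5), (9, 1), (10, 3), (11, 1), (13, 1), (15, 1)]
  | true, true, true, true, false => [(0, 13), (0, 15), (1, 9), (1, 11), (1, 16), (2, 5), (2, 7), (2, 12), (3, 8), (3, 16), (4, 3), (4, 9), (4, 11), (4, 13), (4, 18), (5, 4), (5, 6), (6, 1), (6, 8), (7, 6), (8, 1), (9, 4), (10, 1), (11, 2), (13, 1), (15, 1)]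
  | true, true, true, true, true => [(0, 13), (0, 15), (1, 9), (1, 11), (1, 16), (2, 5), (2, 7), (2, 12), (3, 8), (3, 16), (4, 3), (4, 9), (4, 11), (4, 13), (4, 17), (5, 4), (5, 6), (6, 1), (6, 8), (7, 6), (8, 1), (9, 4), (10, 1), (11, 2), (13, 1), (15, 1)]
  | _, _, _, _, _ => []

/-- the check -/
def chk (a b : Bool) (s : List Pt) : Bool :=
  (cellB a b).all (fun l => (l.filter (fun p => decide (p ∈ s))).length == 1) &&
    s.all (fun p => s.all (fun q => !decide (adjP p q)))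

theorem lsel_of_chk (a b : Bool) (s : List Pt) (h : chk a b s = true) :
    LSel a b (fun p => decide (p ∈ s)) := by
  unfold chk at h
  rw [Bool.and_eq_true, List.all_eq_true, List.all_eq_true] at h
  refine ⟨?_, ?_⟩
  · intro l hl
    have := h.1 l hl
    simpa using this
  · intro l _ l' _ p _ q _ hp hq
    have hp' : p ∈ s := by simpa using hp
    have hq' : q ∈ s := by simpa using hq
    have h1 := h.2 p hp'
    rw [List.all_eq_true] at h1
    have h2 := h1 q hq'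
    simpa using h2

theorem main : ∀ (a b X Y Y' : Bool),
    (Y' = true → Y = true ∨ (a = true ∧ X = false) ∨ (b = true ∧ X = true)) →
    (chk a b (tab a b X Y Y') = true ∧ decide ((2, 5) ∈ tab a b X Y Y') = X ∧
      decide ((6, 1) ∈ tab a b X Y Y') = Y ∧ decide ((4, 17) ∈ tab a b X Y Y') = Y') := by
  decide

end C4aux

open C4aux in
theorem C4_ok : S_C4 := by
  intro a b X Y Y' h
  obtain ⟨h1, h2, h3, h4⟩ := main a b X Y Y' h
  exact ⟨fun p => decide (p ∈ tab a b X Y Y'), lsel_of_chk a b _ h1, h2, h3, h4⟩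

end Pool.Agent.H49R2.PC
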