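import Pool.Agent.H49R2.PC.Stubs

/-!
# Satisfiable formulas give selections (task C5i)
-/

namespace Pool.Agent.H49R2.PC

open Pool.Agent.NPC Pool.Agent.NPC.Cnt Finset

namespace C5iaux

theorem site_sub : ∀ a b : Bool, ∀ l ∈ cellB a b, ∀ p ∈ l, ∃ l' ∈ cellB true true, p ∈ l' := by
  decide

theorem site_ne : ∀ a b : Bool, ∀ l ∈ cellB a b, ∀ p ∈ l, p ≠ (6, 0) := by
  decide

theorem adj60 : ∀ a b : Bool, ∀ l ∈ cellB a b, ∀ p ∈ l, adjP (6, 0) p ∨ adjP p (6, 0) → p = (6, 1) := by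
  decide

theorem mem161 : ∀ a b : Bool, ∃ l ∈ cellB a b, ((16, 1) : Pt) ∈ l := by decide
theorem mem25 : ∀ a b : Bool, ∃ l ∈ cellB a b, ((2, 5) : Pt) ∈ l := by decide
theorem mem418 : ∀ a b : Bool, ∃ l ∈ cellB a b, ((4, 18) : Pt) ∈ l := by decide
theorem mem417 : ∀ a b : Bool, ∃ l ∈ cellB a b, ((4, 17) : Pt) ∈ l := by decide
theorem mem61 : ∀ a b : Bool, ∃ l ∈ cellB a b, ((6, 1) : Pt) ∈ l := by decide

/-- membership in the global selection, in local coordinates -/
def Sel (a b : Bool) (i : ℕ) (J : Pt → Bool) (p : Pt) : Prop :=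
  ((∃ l ∈ cellB a b, p ∈ l) ∧ J p = true) ∨ (i = 0 ∧ p = (6, 0))

theorem Sel.site {a b : Bool} {i : ℕ} {J : Pt → Bool} {p : Pt} (h : Sel a b i J p) : SiteP i p := by
  rcases h with ⟨⟨l, hl, hp⟩, -⟩ | h
  · exact Or.inl (site_sub a b l hl p hp)
  · exact Or.inr h

theorem Sel.val {a b : Bool} {i : ℕ} {J : Pt → Bool} {p : Pt} (h : Sel a b i J p)
    (hp : p ≠ (6, 0)) : J p = true := by
  rcases h with ⟨-, h⟩ | h
  · exact h
  · exact absurd h.2 hp

/-- the abstract construction -/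
theorem key (h2a : S_C2a) (h2b : S_C2b) (h3 : S_C3) (n m : ℕ) (hn : 0 < n) (a b : ℕ → ℕ → Bool)
    (X : ℕ → Bool) (Y : ℕ → ℕ → Bool) (J : ℕ → ℕ → Pt → Bool)
    (hJ : ∀ i < n, ∀ j < m, LSel (a i j) (b i j) (J i j) ∧ J i j (2, 5) = X i ∧
      J i j (6, 1) = Y i j ∧ J i j (4, 17) = Y (i + 1) j)
    (hY0 : ∀ j < m, Y 0 j = false) (hYn : ∀ j < m, Y n j = true) :
    ∃ I : Finset Pt, (∀ s ∈ I, ∀ t ∈ I, ¬ adjP s t) ∧
      ∀ i < n, ∀ j < m, ∀ bl ∈ cellBlocks n m i j (a i j) (b i j),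
        (bl.filter (fun s => decide (s ∈ I))).length = 1 := by
  classical
  obtain ⟨I, hI⟩ : ∃ I : Finset Pt, ∀ s, s ∈ I ↔ ∃ i < n, ∃ j < m, ∃ p,
      Sel (a i j) (b i j) i (J i j) p ∧ s = posn n m i j p := by
    refine ⟨(Finset.range n ×ˢ Finset.range m).biUnion (fun ij =>
      (((cellB (a ij.1 ij.2) (b ij.1 ij.2)).flatten ++ [(6, 0)]).toFinset.filter (fun p =>
        Sel (a ij.1 ij.2) (b ij.1 ij.2) ij.1 (J ij.1 ij.2) p)).image (posn n m ij.1 ij.2)), ?_⟩
    intro s
    simp only [Finset.mem_biUnion, Finset.mem_product, Finset.mem_range, Finset.mem_image,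
      Finset.mem_filter, List.mem_toFinset, Prod.exists, List.mem_append, List.mem_flatten,
      List.mem_singleton]
    constructor
    · rintro ⟨i, j, ⟨hi, hj⟩, x, y, ⟨-, hs⟩, rfl⟩
      exact ⟨i, hi, j, hj, x, y, hs, rfl⟩
    · rintro ⟨i, hi, j, hj, x, y, hs, rfl⟩
      refine ⟨i, j, ⟨hi, hj⟩, x, y, ⟨?_, hs⟩, rfl⟩
      rcases hs with ⟨⟨l, hl, hp⟩, -⟩ | ⟨-, hp⟩
      · exact Or.inl ⟨l, hl, hp⟩
      · exact Or.inr hp
  have hmem : ∀ i < n, ∀ j < m, ∀ p, SiteP i p → (posn n m i j p ∈ I ↔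
      Sel (a i j) (b i j) i (J i j) p) := by
    intro i hi j hj p hp
    rw [hI]
    constructor
    · rintro ⟨i', hi', j', hj', q, hq, he⟩
      obtain ⟨rfl, rfl, rfl⟩ := h2b n m i j i' j' p q hi hi' hj hj' hp hq.site he
      exact hq
    · intro h
      exact ⟨i, hi, j, hj, p, h, rfl⟩
  have hmem2 : ∀ i < n, ∀ j < m, ∀ l ∈ cellB (a i j) (b i j), ∀ p ∈ l,
      (posn n m i j p ∈ I ↔ J i j p = true) := by
    intro i hi j hj l hl p hp
    rw [hmem i hi j hj p (Or.inl (site_sub _ _ l hl p hp))]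
    constructor
    · intro h
      exact h.val (site_ne _ _ l hl p hp)
    · intro h
      exact Or.inl ⟨⟨l, hl, hp⟩, h⟩
  have h161 : ∀ i < n, ∀ j < m, J i j (16, 1) = !X i := by
    intro i hi j hj
    rw [← (hJ i hi j hj).2.1]
    exact (h3 _ _ _ (hJ i hi j hj).1).1
  have h418 : ∀ i < n, ∀ j < m, J i j (4, 18) = !Y (i + 1) j := by
    intro i hi j hj
    rw [← (hJ i hi j hj).2.2.2]
    exact (h3 _ _ _ (hJ i hi j hj).1).2.2
  refine ⟨I, ?_, ?_⟩
  · intro s hs t ht hst
    obtain ⟨i, hi, j, hj, p, hp, rfl⟩ := (hI s).1 hs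
    obtain ⟨i', hi', j', hj', q, hq, rfl⟩ := (hI t).1 ht
    rcases h2a n m i j i' j' p q hi hi' hj hj' hp.site hq.site hst with
      ⟨rfl, rfl, h⟩ | ⟨rfl, rfl, rfl, rfl⟩ | ⟨rfl, rfl, rfl, rfl⟩ | ⟨rfl, rfl, rfl, rfl⟩ |
      ⟨rfl, rfl, rfl, rfl⟩
    · rcases hp with ⟨⟨l, hl, hpl⟩, hpJ⟩ | ⟨hi0, rfl⟩
      · rcases hq with ⟨⟨l', hl', hql⟩, hqJ⟩ | ⟨hi0, rfl⟩
        · exact (hJ i' hi j' hj).1.2 l hl l' hl' p hpl q hql hpJ hqJ h
        · have := adj60 _ _ l hl p hpl (Or.inr h)
          subst this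
          subst hi0
          rw [(hJ 0 hi j' hj).2.2.1, hY0 j' hj] at hpJ
          exact absurd hpJ (by decide)
      · rcases hq with ⟨⟨l', hl', hql⟩, hqJ⟩ | ⟨hi0, rfl⟩
        · have := adj60 _ _ l' hl' q hql (Or.inl h)
          subst this
          subst hi0
          rw [(hJ 0 hi j' hj).2.2.1, hY0 j' hj] at hqJ
          exact absurd hqJ (by decide)
        · exact absurd h (by decide)
    · have h1 := hp.val (by decide)
      have h2 := hq.val (by decide)
      rw [h161 _ hi _ hj] at h1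
      rw [(hJ _ hi' _ hj').2.1] at h2
      rw [h2] at h1
      exact absurd h1 (by decide)
    · have h1 := hq.val (by decide)
      have h2 := hp.val (by decide)
      rw [h161 _ hi' _ hj'] at h1
      rw [(hJ _ hi _ hj).2.1] at h2
      rw [h2] at h1
      exact absurd h1 (by decide)
    · have h1 := hp.val (by decide)
      have h2 := hq.val (by decide)
      rw [h418 _ hi _ hj] at h1
      rw [(hJ _ hi' _ hj').2.2.1] at h2
      rw [h2] at h1
      exact absurd h1 (by decide)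
    · have h1 := hq.val (by decide)
      have h2 := hp.val (by decide)
      rw [h418 _ hi' _ hj'] at h1
      rw [(hJ _ hi _ hj).2.2.1] at h2
      rw [h2] at h1
      exact absurd h1 (by decide)
  · intro i hi j hj bl hbl
    obtain ⟨hL, hX, hY, hY'⟩ := hJ i hi j hj
    unfold cellBlocks at hbl
    rw [List.mem_append, List.mem_append, List.mem_map] at hbl
    rcases hbl with ⟨l, hl, rfl⟩ | hbl | hbl
    · rw [List.filter_map, List.length_map]
      rw [List.mem_append, List.mem_append] at hl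
      rcases hl with (hl | hl) | hl
      · rw [← hL.1 l hl]
        congr 1
        refine List.filter_congr fun p hp => ?_
        simp only [Function.comp]
        rw [Bool.eq_iff_iff, decide_eq_true_iff]
        exact hmem2 i hi j hj l hl p hp
      · by_cases hi0 : i = 0
        · subst hi0
          have e60 : posn n m 0 j (6, 0) ∈ I :=
            (hmem 0 hi j hj (6, 0) (Or.inr ⟨rfl, rfl⟩)).2 (Or.inr ⟨rfl, rfl⟩)
          have e61 : posn n m 0 j (6, 1) ∉ I := by
            obtain ⟨l', hl', hp'⟩ := mem61 (a 0 j) (b 0 j)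
            rw [hmem2 0 hi j hj l' hl' _ hp', hY, hY0 j hj]
            decide
          rw [if_pos rfl] at hl
          simp only [List.mem_cons, List.not_mem_nil, or_false] at hl
          rcases hl with rfl | rfl
          · simp [e60]
          · simp [e60, e61]
        · rw [if_neg hi0] at hl
          exact absurd hl (List.not_mem_nil)
      · by_cases hin : i + 1 = n
        · rw [if_pos hin] at hl
          simp only [List.mem_cons, List.not_mem_nil, or_false] at hl
          subst hl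
          have e417 : posn n m i j (4, 17) ∈ I := by
            obtain ⟨l', hl', hp'⟩ := mem417 (a i j) (b i j)
            rw [hmem2 i hi j hj l' hl' _ hp', hY', hin, hYn j hj]
          simp [e417]
        · rw [if_neg hin] at hl
          exact absurd hl (List.not_mem_nil)
    · by_cases hjm : j + 1 < m
      · rw [if_pos hjm] at hbl
        simp only [List.mem_cons, List.not_mem_nil, or_false] at hbl
        subst hbl
        have e1 : posn n m i j (16, 1) ∈ I ↔ X i = false := by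
          obtain ⟨l', hl', hp'⟩ := mem161 (a i j) (b i j)
          rw [hmem2 i hi j hj l' hl' _ hp', h161 i hi j hj]
          cases X i <;> decide
        have e2 : posn n m i (j + 1) (2, 5) ∈ I ↔ X i = true := by
          obtain ⟨l', hl', hp'⟩ := mem25 (a i (j + 1)) (b i (j + 1))
          rw [hmem2 i hi (j + 1) hjm l' hl' _ hp', (hJ i hi (j + 1) hjm).2.1]
        cases hXi : X i
        · rw [hXi] at e1 e2
          simp [e1, e2]
        · rw [hXi] at e1 e2
          simp [e1, e2]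
      · rw [if_neg hjm] at hbl
        exact absurd hbl (List.not_mem_nil)
    · by_cases hin : i + 1 < n
      · rw [if_pos hin] at hbl
        simp only [List.mem_cons, List.not_mem_nil, or_false] at hbl
        subst hbl
        have e1 : posn n m i j (4, 18) ∈ I ↔ Y (i + 1) j = false := by
          obtain ⟨l', hl', hp'⟩ := mem418 (a i j) (b i j)
          rw [hmem2 i hi j hj l' hl' _ hp', h418 i hi j hj]
          cases Y (i + 1) j <;> decide
        have e2 : posn n m (i + 1) j (6, 1) ∈ I ↔ Y (i + 1) j = true := by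
          obtain ⟨l', hl', hp'⟩ := mem61 (a (i + 1) j) (b (i + 1) j)
          rw [hmem2 (i + 1) hin j hj l' hl' _ hp', (hJ (i + 1) hin j hj).2.2.1]
        cases hXi : Y (i + 1) j
        · rw [hXi] at e1 e2
          simp [e1, e2]
        · rw [hXi] at e1 e2
          simp [e1, e2]
      · rw [if_neg hin] at hbl
        exact absurd hbl (List.not_mem_nil)

end C5iaux

open C5iaux in
theorem C5i_ok : S_C5i := by
  classical
  intro h2a h2b h3 h4 φ hφ
  unfold satCount at hφ
  obtain ⟨S, hS⟩ := Finset.card_pos.1 hφ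
  rw [Finset.mem_filter] at hS
  have hsat : SatBy S φ := hS.2
  obtain ⟨a, ha⟩ : ∃ a : ℕ → ℕ → Bool, ∀ i j, a i j =
      occ false ((rows φ).getD i none) (φ.getD j []) := ⟨_, fun _ _ => rfl⟩
  obtain ⟨b, hb⟩ : ∃ b : ℕ → ℕ → Bool, ∀ i j, b i j =
      occ true ((rows φ).getD i none) (φ.getD j []) := ⟨_, fun _ _ => rfl⟩
  obtain ⟨X, hX⟩ : ∃ X : ℕ → Bool, ∀ i v, (rows φ).getD i none = some v → X i = decide (v ∈ S) := by
    refine ⟨fun i => decide (∀ v, (rows φ).getD i none = some v → v ∈ S), fun i v hv => ?_⟩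
    refine decide_eq_decide.2 ⟨fun h => h v hv, fun h v' hv' => ?_⟩
    rw [hv] at hv'
    cases hv'
    exact h
  obtain ⟨Y, hY⟩ : ∃ Y : ℕ → ℕ → Bool, ∀ i j, Y i j = true ↔
      ∃ i' < i, (a i' j = true ∧ X i' = false) ∨ (b i' j = true ∧ X i' = true) :=
    ⟨fun i j => decide (∃ i' < i, (a i' j = true ∧ X i' = false) ∨ (b i' j = true ∧ X i' = true)),
      fun i j => decide_eq_true_iff⟩
  have hstep : ∀ i j, Y (i + 1) j = true → Y i j = true ∨ (a i j = true ∧ X i = false) ∨
      (b i j = true ∧ X i = true) := by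
    intro i j h
    obtain ⟨i', hi', h'⟩ := (hY (i + 1) j).1 h
    rcases Nat.lt_succ_iff_lt_or_eq.1 hi' with h1 | rfl
    · exact Or.inl ((hY i j).2 ⟨i', h1, h'⟩)
    · exact Or.inr h'
  have hex : ∀ i j, ∃ I : Pt → Bool, LSel (a i j) (b i j) I ∧ I (2, 5) = X i ∧ I (6, 1) = Y i j ∧
      I (4, 17) = Y (i + 1) j := fun i j => h4 _ _ _ _ _ (hstep i j)
  choose J hJ using hex
  have hn : 0 < (rows φ).length := by
    unfold rows
    exact Nat.succ_pos _
  obtain ⟨I, hI1, hI2⟩ := key h2a h2b h3 (rows φ).length φ.length hn a b X Y J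
    (fun i _ j _ => hJ i j)
    (fun j _ => by
      rw [Bool.eq_false_iff]
      intro h
      obtain ⟨i', hi', -⟩ := (hY 0 j).1 h
      exact absurd hi' (Nat.not_lt_zero _))
    (fun j hj => by
      rw [hY]
      have hc : φ[j] ∈ φ := List.getElem_mem hj
      obtain ⟨l, hl, hls⟩ := hsat _ hc
      have hv : some l.2 ∈ rows φ := by
        unfold rows
        rw [List.mem_cons, List.mem_map]
        refine Or.inr ⟨l.2, ?_, rfl⟩
        rw [List.mem_dedup, List.mem_map]
        exact ⟨l, List.mem_flatten.2 ⟨_, hc, hl⟩, rfl⟩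
      obtain ⟨i, hi, hiv⟩ := List.getElem_of_mem hv
      have e1 : (rows φ).getD i none = some l.2 := by
        rw [List.getD_eq_getElem _ _ hi, hiv]
      have e2 : φ.getD j [] = φ[j] := List.getD_eq_getElem _ _ hj
      refine ⟨i, hi, ?_⟩
      rw [ha, hb, e1, e2, hX i l.2 e1, ← hls]
      rcases hl1 : l.1 with _ | _
      · refine Or.inl ⟨?_, rfl⟩
        unfold occ
        exact decide_eq_true ⟨l, hl, hl1, rfl⟩
      · refine Or.inr ⟨?_, rfl⟩
        unfold occ
        exact decide_eq_true ⟨l, hl, hl1, rfl⟩)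
  refine ⟨I, hI1, ?_⟩
  intro bl hbl
  unfold blocksOf at hbl
  rw [List.mem_flatMap] at hbl
  obtain ⟨⟨o, i⟩, hr, hbl⟩ := hbl
  rw [List.mem_flatMap] at hbl
  obtain ⟨⟨c, j⟩, hc, hbl⟩ := hbl
  rw [List.mem_zipIdx_iff_getElem?] at hr hc
  simp only at hr hc hbl
  obtain ⟨hi, hi2⟩ := List.getElem?_eq_some_iff.1 hr
  obtain ⟨hj, hj2⟩ := List.getElem?_eq_some_iff.1 hc
  have e1 : (rows φ).getD i none = o := by rw [List.getD_eq_getElem _ _ hi, hi2]
  have e2 : φ.getD j [] = c := by rw [List.getD_eq_getElem _ _ hj, hj2]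
  refine hI2 i hi j hj bl ?_
  rw [ha, hb, e1, e2]
  exact hbl

end Pool.Agent.H49R2.PC
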