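import Pool.Agent.H49R2.PC.Stubs

/-!
# Counting the 4-colourings of planar graphs: selections give satisfying assignments (task C6i)
-/

namespace Pool.Agent.H49R2.PC

open Pool.Agent.NPC Pool.Agent.NPC.Cnt Finset

namespace C6iaux

theorem adjP_posn {n m i j : ℕ} {p q : Pt} (h : adjP p q) :
    adjP (posn n m i j p) (posn n m i j q) := by
  obtain ⟨p1, p2⟩ := p
  obtain ⟨q1, q2⟩ := q
  unfold adjP posn at *
  generalize 15 * j + 2 * (n - i) + 1 = a
  generalize 18 * i + 4 * (m - j) + 1 = b
  simp only [Prod.mk.injEq] at h ⊢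
  rcases h with (h | h) | (h | h) | (h | h)
  · exact Or.inl (Or.inl (by omega))
  · exact Or.inl (Or.inr (by omega))
  · exact Or.inr (Or.inl (Or.inl (by omega)))
  · exact Or.inr (Or.inl (Or.inr (by omega)))
  · exact Or.inr (Or.inr (Or.inl (by omega)))
  · exact Or.inr (Or.inr (Or.inr (by omega)))

theorem one_of_two {α : Type} {P : α → Bool} {x y : α} (h : ([x, y].filter P).length = 1) :
    P y = !P x := by
  cases hx : P x <;> cases hy : P y <;> simp [List.filter, hx, hy] at h ⊢

theorem one_of_one {α : Type} {P : α → Bool} {x : α} (h : ([x].filter P).length = 1) :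
    P x = true := by
  cases hx : P x
  · simp [List.filter, hx] at h
  · rfl

variable {φ : CNF ℕ}

theorem mem_blocks {i j : ℕ} {o : Option ℕ} {c : List (Bool × ℕ)} (hi : (rows φ)[i]? = some o)
    (hj : φ[j]? = some c) {l : List Pt}
    (hl : l ∈ cellBlocks (rows φ).length φ.length i j (occ false o c) (occ true o c)) :
    l ∈ blocksOf φ := by
  unfold blocksOf
  rw [List.mem_flatMap]
  refine ⟨(o, i), List.mk_mem_zipIdx_iff_getElem?.2 hi, ?_⟩
  rw [List.mem_flatMap]
  exact ⟨(c, j), List.mk_mem_zipIdx_iff_getElem?.2 hj, hl⟩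

/-- The local selection. -/
def J (φ : CNF ℕ) (I : Finset Pt) (i j : ℕ) (p : Pt) : Bool :=
  decide (posn (rows φ).length φ.length i j p ∈ I)

section

variable {I : Finset Pt} (hI : ∀ s ∈ I, ∀ t ∈ I, ¬ adjP s t)
  (hB : ∀ b ∈ blocksOf φ, (b.filter (fun s => decide (s ∈ I))).length = 1)

include hB in
theorem filt {i j : ℕ} {o : Option ℕ} {c : List (Bool × ℕ)} (hi : (rows φ)[i]? = some o)
    (hj : φ[j]? = some c) {l : List Pt}
    (hl : l ∈ (cellB (occ false o c) (occ true o c) ++
      (if i = 0 then [[(6, 0)], [(6, 0), (6, 1)]] else [])) ++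
      (if i + 1 = (rows φ).length then [[(4, 17)]] else [])) :
    (l.filter (J φ I i j)).length = 1 := by
  have h1 := hB (l.map (posn (rows φ).length φ.length i j)) (mem_blocks hi hj (by
    unfold cellBlocks
    rw [List.mem_append]
    left
    rw [List.mem_map]
    exact ⟨l, hl, rfl⟩))
  rw [List.filter_map, List.length_map] at h1
  exact h1

include hI hB in
theorem lsel {i j : ℕ} {o : Option ℕ} {c : List (Bool × ℕ)} (hi : (rows φ)[i]? = some o)
    (hj : φ[j]? = some c) : LSel (occ false o c) (occ true o c) (J φ I i j) := by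
  refine ⟨fun l hl => filt hB hi hj ?_, ?_⟩
  · rw [List.mem_append, List.mem_append]
    exact Or.inl (Or.inl hl)
  · intro l _ l' _ p _ q _ hp hq hadj
    unfold J at hp hq
    rw [decide_eq_true_iff] at hp hq
    exact hI _ hp _ hq (adjP_posn hadj)

include hB in
theorem hlink {i j : ℕ} {o : Option ℕ} {c : List (Bool × ℕ)} (hi : (rows φ)[i]? = some o)
    (hj : φ[j]? = some c) (hj1 : j + 1 < φ.length) :
    J φ I i (j + 1) (2, 5) = !J φ I i j (16, 1) := by
  have h1 := hB [posn (rows φ).length φ.length i j (16, 1),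
    posn (rows φ).length φ.length i (j + 1) (2, 5)] (mem_blocks hi hj (by
      unfold cellBlocks
      rw [List.mem_append]
      right
      rw [List.mem_append]
      left
      rw [if_pos hj1]
      exact List.mem_singleton.2 rfl))
  exact one_of_two (P := fun s => decide (s ∈ I)) h1

include hB in
theorem vlink {i j : ℕ} {o : Option ℕ} {c : List (Bool × ℕ)} (hi : (rows φ)[i]? = some o)
    (hj : φ[j]? = some c) (hi1 : i + 1 < (rows φ).length) :
    J φ I (i + 1) j (6, 1) = !J φ I i j (4, 18) := by
  have h1 := hB [posn (rows φ).length φ.length i j (4, 18),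
    posn (rows φ).length φ.length (i + 1) j (6, 1)] (mem_blocks hi hj (by
      unfold cellBlocks
      rw [List.mem_append]
      right
      rw [List.mem_append]
      right
      rw [if_pos hi1]
      exact List.mem_singleton.2 rfl))
  exact one_of_two (P := fun s => decide (s ∈ I)) h1

include hB in
theorem bottom {j : ℕ} {o : Option ℕ} {c : List (Bool × ℕ)} (hi : (rows φ)[0]? = some o)
    (hj : φ[j]? = some c) : J φ I 0 j (6, 1) = false := by
  have h1 : J φ I 0 j (6, 0) = true := one_of_one (filt hB hi hj (by
    rw [List.mem_append, List.mem_append]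
    left; right
    rw [if_pos rfl]
    exact List.mem_cons_self))
  have h2 : J φ I 0 j (6, 1) = !J φ I 0 j (6, 0) := one_of_two (filt hB hi hj (by
    rw [List.mem_append, List.mem_append]
    left; right
    rw [if_pos rfl]
    exact List.mem_cons_of_mem _ (List.mem_singleton.2 rfl)))
  rw [h2, h1]
  rfl

include hB in
theorem top {i j : ℕ} {o : Option ℕ} {c : List (Bool × ℕ)} (hi : (rows φ)[i]? = some o)
    (hj : φ[j]? = some c) (hi1 : i + 1 = (rows φ).length) : J φ I i j (4, 17) = true :=
  one_of_one (filt hB hi hj (by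
    rw [List.mem_append]
    right
    rw [if_pos hi1]
    exact List.mem_singleton.2 rfl))

end

theorem rows_nodup (φ : CNF ℕ) : (rows φ).Nodup := by
  unfold rows
  rw [List.nodup_cons]
  constructor
  · simp
  · exact (List.nodup_dedup _).map (Option.some_injective _)

theorem occ_true {b : Bool} {o : Option ℕ} {c : List (Bool × ℕ)} (h : occ b o c = true) :
    ∃ v, o = some v ∧ (b, v) ∈ c := by
  unfold occ at h
  rw [decide_eq_true_iff] at h
  obtain ⟨⟨b', v⟩, hl, h1, h2⟩ := h
  simp only at h1 h2
  subst h1
  exact ⟨v, h2.symm, hl⟩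

end C6iaux

open C6iaux in
theorem C6i_ok : S_C6i := by
  intro hC3 φ hsel
  obtain ⟨I, hI, hB⟩ := hsel
  -- the rows carry constant values
  have hX : ∀ i o, (rows φ)[i]? = some o → ∀ j, j < φ.length →
      J φ I i j (2, 5) = J φ I i 0 (2, 5) := by
    intro i o hi j
    induction j with
    | zero => intro _; rfl
    | succ j ih =>
      intro hj
      have hjl : j < φ.length := by omega
      have hj' : φ[j]? = some φ[j] := List.getElem?_eq_getElem hjl
      rw [hlink hB hi hj' hj, (hC3 _ _ _ (lsel hI hB hi hj')).1, Bool.not_not]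
      exact ih hjl
  -- each column contains a cell which satisfies the clause
  have hcol : ∀ j c, φ[j]? = some c → ∃ i o, (rows φ)[i]? = some o ∧
      ((occ false o c = true ∧ J φ I i j (2, 5) = false) ∨
        (occ true o c = true ∧ J φ I i j (2, 5) = true)) := by
    intro j c hj
    by_contra hcon
    push Not at hcon
    have hall : ∀ i, i < (rows φ).length → J φ I i j (4, 17) = false := by
      intro i
      induction i with
      | zero =>
        intro h0
        have hi : (rows φ)[0]? = some (rows φ)[0] := List.getElem?_eq_getElem h0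
        have h1 := (hC3 _ _ _ (lsel hI hB hi hj)).2.1
        have h2 := hcon 0 _ hi
        by_contra h3
        rw [Bool.not_eq_false] at h3
        rcases h1 h3 with h4 | h4 | h4
        · rw [bottom hB hi hj] at h4
          exact absurd h4 (by simp)
        · exact h2.1 h4.1 h4.2
        · exact h2.2 h4.1 h4.2
      | succ i ih =>
        intro h0
        have hil : i < (rows φ).length := by omega
        have hi : (rows φ)[i]? = some (rows φ)[i] := List.getElem?_eq_getElem hil
        have hi1 : (rows φ)[i + 1]? = some (rows φ)[i + 1] := List.getElem?_eq_getElem h0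
        have h1 := (hC3 _ _ _ (lsel hI hB hi1 hj)).2.1
        have h2 := hcon (i + 1) _ hi1
        by_contra h3
        rw [Bool.not_eq_false] at h3
        rcases h1 h3 with h4 | h4 | h4
        · rw [vlink hB hi hj h0, (hC3 _ _ _ (lsel hI hB hi hj)).2.2, ih hil] at h4
          exact absurd h4 (by simp)
        · exact h2.1 h4.1 h4.2
        · exact h2.2 h4.1 h4.2
    have hn : 0 < (rows φ).length := by simp [rows]
    have hl : (rows φ).length - 1 < (rows φ).length := by omega
    have hi : (rows φ)[(rows φ).length - 1]? = some (rows φ)[(rows φ).length - 1] :=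
      List.getElem?_eq_getElem hl
    have h1 := top hB hi hj (by omega)
    rw [hall _ hl] at h1
    exact absurd h1 (by simp)
  -- the assignment
  unfold satCount
  rw [Finset.card_pos]
  refine ⟨(vars φ).filter (fun v => J φ I ((rows φ).idxOf (some v)) 0 (2, 5) = true), ?_⟩
  rw [Finset.mem_filter, Finset.mem_powerset]
  refine ⟨Finset.filter_subset _ _, ?_⟩
  intro c hc
  obtain ⟨j, hjl, hjc⟩ := List.getElem_of_mem hc
  have hj : φ[j]? = some c := by rw [List.getElem?_eq_getElem hjl, hjc]
  obtain ⟨i, o, hi, h⟩ := hcol j c hj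
  have hidx : ∀ v, o = some v → (rows φ).idxOf (some v) = i := by
    intro v hv
    obtain ⟨hil, hio⟩ := List.getElem?_eq_some_iff.1 hi
    rw [← hv, ← hio]
    exact List.Nodup.idxOf_getElem (rows_nodup φ) i hil
  rcases h with ⟨h1, h2⟩ | ⟨h1, h2⟩
  · obtain ⟨v, hv, hvc⟩ := occ_true h1
    refine ⟨(false, v), hvc, ?_⟩
    symm
    rw [decide_eq_false_iff_not, Finset.mem_filter]
    rintro ⟨-, h3⟩
    rw [hidx v hv, ← hX i o hi j hjl, h2] at h3
    exact absurd h3 (by simp)
  · obtain ⟨v, hv, hvc⟩ := occ_true h1
    refine ⟨(true, v), hvc, ?_⟩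
    symm
    rw [decide_eq_true_iff, Finset.mem_filter]
    refine ⟨mem_vars.2 ⟨c, hc, true, hvc⟩, ?_⟩
    rw [hidx v hv, ← hX i o hi j hjl, h2]

end Pool.Agent.H49R2.PC
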