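import Pool.Agent.H49R2.PY.Defs

/-!
# Counting the 4-colourings of planar graphs: definitions

Bit strings, polynomial time (`PolyTime`: Turing machines), the codes `bits` of structured data and
the class `NP` are in `Pool/Agent/NPC/Defs.lean`, the class `RP` is in
`Pool/Agent/H579R2/Spt/Defs.lean`.
-/

namespace Pool.Agent.H49R2.PC

open Pool.Agent.NPC

/-- A graph, given by the list of its vertices (natural numbers) and the list of its edges. -/
abbrev Gr : Type := List ℕ × List (ℕ × ℕ)

/-- The vertices are different and every edge joins two different vertices.  (The order of the two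
ends of an edge and repetitions of an edge in the list have no meaning, so this is a finite simple
graph.) -/
def IsGr (G : Gr) : Prop := G.1.Nodup ∧ ∀ e ∈ G.2, e.1 ∈ G.1 ∧ e.2 ∈ G.1 ∧ e.1 ≠ e.2

/-- `pos` is a plane straight-line drawing: different vertices have different positions, no vertex
lies on an edge of which it is not an end, and two different edges meet at most in a common end. -/
def PlaneDrawing (G : Gr) (pos : ℕ → ℝ × ℝ) : Prop :=
  (∀ u ∈ G.1, ∀ v ∈ G.1, pos u = pos v → u = v) ∧
  (∀ e ∈ G.2, ∀ w ∈ G.1, pos w ∈ segment ℝ (pos e.1) (pos e.2) → w = e.1 ∨ w = e.2) ∧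
  ∀ e ∈ G.2, ∀ f ∈ G.2, ∀ p : ℝ × ℝ, p ∈ segment ℝ (pos e.1) (pos e.2) →
    p ∈ segment ℝ (pos f.1) (pos f.2) →
    (f = e ∨ f = (e.2, e.1)) ∨ ∃ w, p = pos w ∧ (w = e.1 ∨ w = e.2) ∧ (w = f.1 ∨ w = f.2)

/-- Planar graphs: finite simple graphs with a plane straight-line drawing. -/
def IsPlanar (G : Gr) : Prop := IsGr G ∧ ∃ pos : ℕ → ℝ × ℝ, PlaneDrawing G pos

/-- The number of proper colourings of `G` with `q` colours. -/
noncomputable def numCol (q : ℕ) (G : Gr) : ℕ :=
  Nat.card {c : {v // v ∈ G.1} → Fin q //
    ∀ e ∈ G.2, ∀ (h1 : e.1 ∈ G.1) (h2 : e.2 ∈ G.1), c ⟨e.1, h1⟩ ≠ c ⟨e.2, h2⟩}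

/-- The number `Z` approximates `v` within the relative error `1 / N`. -/
def Approx (N : ℕ) (Z v : ℝ) : Prop := (1 - 1 / (N : ℝ)) * v ≤ Z ∧ Z ≤ (1 + 1 / (N : ℝ)) * v

/-- `f` has an FPRAS on the class `C` of inputs.  The relative error is `ε = 1 / N`; the random bits
form a string `r` of length `p (n + N)`, where `n` is the length of the code of the input; the
output is the rational number with numerator `(F (G, N, r)).1` and denominator
`(F (G, N, r)).2`, computed in time polynomial in the length of the whole input, including the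
random bits, that is, polynomial in `n + 1 / ε`.  With probability at least `3/4` the output
approximates `f G` within relative error `ε`, for all inputs `G` in `C` and all `N ≥ 2`. -/
def HasFPRASOn {α : Type} [TEnc α] (C : α → Prop) (f : α → ℕ) : Prop :=
  ∃ (F : α × ℕ × List Bool → ℕ × ℕ) (A : List Bool → List Bool) (p : Polynomial ℕ),
    PolyTime A ∧ (∀ s, A (bits s) = bits (F s)) ∧
    ∀ G, C G → ∀ N, 2 ≤ N → 3 * 2 ^ p.eval ((bits G).length + N) ≤
      4 * {r : List Bool | r.length = p.eval ((bits G).length + N) ∧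
        Approx N (((F (G, N, r)).1 : ℝ) / (F (G, N, r)).2) (f G)}.ncard

end Pool.Agent.H49R2.PC
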