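import Pool.Agent.H49R2.PC.Stubs

/-!
# The number of 4-colourings of the thickened graph
-/

namespace Pool.Agent.H49R2.PC

open Pool.Agent.NPC Pool.Agent.NPC.Cnt Finset

namespace T1aux

theorem midL_inj {u v i u' v' i' : ℕ} (h : midL u v i = midL u' v' i') :
    u = u' ∧ v = v' ∧ i = i' := by
  unfold midL at h
  have h1 : Nat.pair (Nat.pair u v) i = Nat.pair (Nat.pair u' v') i' := by omega
  rw [Nat.pair_eq_pair, Nat.pair_eq_pair] at h1
  exact ⟨h1.1.1, h1.1.2, h1.2⟩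

theorem midL_ne (u v i w : ℕ) : 2 * w ≠ midL u v i := by
  unfold midL; omega

theorem mem_thick_v (W : WG) (x : ℕ) : x ∈ (thick W).1 ↔
    (∃ v ∈ W.1, 2 * v = x) ∨ ∃ s ∈ W.2.2, ∃ i < s.2, midL s.1.1 s.1.2 i = x := by
  simp only [thick, List.mem_append, List.mem_map, List.mem_flatMap, List.mem_range]

theorem mem_thick_e (W : WG) (e : ℕ × ℕ) : e ∈ (thick W).2 ↔
    (∃ f ∈ W.2.1, (2 * f.1, 2 * f.2) = e) ∨ ∃ s ∈ W.2.2, ∃ i < s.2,
      e = (2 * s.1.1, midL s.1.1 s.1.2 i) ∨ e = (2 * s.1.2, midL s.1.1 s.1.2 i) := by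
  simp only [thick, List.mem_append, List.mem_map, List.mem_flatMap, List.mem_range,
    List.mem_cons, List.not_mem_nil, or_false]

theorem isGr_thick (W : WG) (hW : IsWG W) : IsGr (thick W) := by
  obtain ⟨h1, h2, h3, h4⟩ := hW
  refine ⟨?_, ?_⟩
  · show List.Nodup (_ ++ _)
    rw [List.nodup_append']
    refine ⟨h1.map (fun a b h => by simpa using h), ?_, ?_⟩
    · rw [List.nodup_flatMap]
      refine ⟨fun s hs => ?_, ?_⟩
      · exact (List.nodup_range).map (fun a b h => (midL_inj h).2.2)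
      · have := List.pairwise_map.1 h4
        refine this.imp ?_
        intro s t hst
        simp only [Function.onFun]
        intro x hx hy
        simp only [List.mem_map, List.mem_range] at hx hy
        obtain ⟨i, hi, rfl⟩ := hx
        obtain ⟨j, hj, hj'⟩ := hy
        obtain ⟨a, b, c⟩ := midL_inj hj'
        exact hst (Prod.ext a.symm b.symm)
    · intro x hx hy
      simp only [List.mem_map, List.mem_flatMap, List.mem_range] at hx hy
      obtain ⟨v, hv, rfl⟩ := hx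
      obtain ⟨s, hs, i, hi, h⟩ := hy
      exact midL_ne _ _ _ _ h.symm
  · intro e he
    rw [mem_thick_e] at he
    rw [mem_thick_v, mem_thick_v]
    rcases he with ⟨f, hf, rfl⟩ | ⟨s, hs, i, hi, rfl | rfl⟩
    · obtain ⟨a, b, c⟩ := h2 f hf
      exact ⟨Or.inl ⟨_, a, rfl⟩, Or.inl ⟨_, b, rfl⟩, by simpa using c⟩
    · obtain ⟨a, b, c⟩ := h3 s hs
      exact ⟨Or.inl ⟨_, a, rfl⟩, Or.inr ⟨s, hs, i, hi, rfl⟩, midL_ne _ _ _ _⟩
    · obtain ⟨a, b, c⟩ := h3 s hs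
      exact ⟨Or.inl ⟨_, b, rfl⟩, Or.inr ⟨s, hs, i, hi, rfl⟩, midL_ne _ _ _ _⟩

/-- The middle vertices. -/
abbrev Mid (W : WG) : Type := Σ s : {s // s ∈ W.2.2}, Fin s.1.2

/-- The map from the disjoint union of the vertices and the middle vertices. -/
def vmap (W : WG) : {v // v ∈ W.1} ⊕ Mid W → {v // v ∈ (thick W).1} :=
  Sum.elim (fun v => ⟨2 * v.1, (mem_thick_v W _).2 (Or.inl ⟨v.1, v.2, rfl⟩)⟩)
    (fun m => ⟨midL m.1.1.1.1 m.1.1.1.2 m.2.1,
      (mem_thick_v W _).2 (Or.inr ⟨m.1.1, m.1.2, m.2.1, m.2.2, rfl⟩)⟩)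

theorem vmap_bij (W : WG) (hW : IsWG W) : Function.Bijective (vmap W) := by
  obtain ⟨h1, h2, h3, h4⟩ := hW
  constructor
  · rintro (⟨v, hv⟩ | ⟨⟨s, hs⟩, ⟨i, hi⟩⟩) (⟨w, hw⟩ | ⟨⟨t, ht⟩, ⟨j, hj⟩⟩) h
    · simp only [vmap, Sum.elim_inl, Subtype.mk.injEq] at h
      have : v = w := by omega
      subst this
      rfl
    · simp only [vmap, Sum.elim_inl, Sum.elim_inr, Subtype.mk.injEq] at h
      exact absurd h (midL_ne _ _ _ _)
    · simp only [vmap, Sum.elim_inl, Sum.elim_inr, Subtype.mk.injEq] at h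
      exact absurd h.symm (midL_ne _ _ _ _)
    · simp only [vmap, Sum.elim_inr, Subtype.mk.injEq] at h
      obtain ⟨a, b, c⟩ := midL_inj h
      have hst : s = t := List.inj_on_of_nodup_map h4 hs ht (Prod.ext a b)
      subst hst
      subst c
      rfl
  · rintro ⟨x, hx⟩
    rcases (mem_thick_v W x).1 hx with ⟨v, hv, rfl⟩ | ⟨s, hs, i, hi, rfl⟩
    · exact ⟨Sum.inl ⟨v, hv⟩, rfl⟩
    · exact ⟨Sum.inr ⟨⟨s, hs⟩, ⟨i, hi⟩⟩, rfl⟩

/-- The equivalence of the sets of colourings of the vertices. -/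
noncomputable def cmap (W : WG) (hW : IsWG W) :
    ({v // v ∈ (thick W).1} → Fin 4) ≃ ({v // v ∈ W.1} → Fin 4) × (Mid W → Fin 4) :=
  ((Equiv.ofBijective (vmap W) (vmap_bij W hW)).symm.arrowCongr (Equiv.refl _)).trans
    (Equiv.sumArrowEquivProdArrow _ _ _)

theorem cmap_fst (W : WG) (hW : IsWG W) (c : {v // v ∈ (thick W).1} → Fin 4)
    (v : {v // v ∈ W.1}) : (cmap W hW c).1 v = c (vmap W (Sum.inl v)) := rfl

theorem cmap_snd (W : WG) (hW : IsWG W) (c : {v // v ∈ (thick W).1} → Fin 4)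
    (m : Mid W) : (cmap W hW c).2 m = c (vmap W (Sum.inr m)) := rfl

/-- The condition on a pair of colourings. -/
def Good (W : WG) (c : ({v // v ∈ W.1} → Fin 4) × (Mid W → Fin 4)) : Prop :=
  (∀ e ∈ W.2.1, ext W.1 c.1 e.1 ≠ ext W.1 c.1 e.2) ∧
  ∀ m : Mid W, ext W.1 c.1 m.1.1.1.1 ≠ c.2 m ∧ ext W.1 c.1 m.1.1.1.2 ≠ c.2 m

theorem ext_mem (V : List ℕ) (c : {v // v ∈ V} → Fin 4) (v : ℕ) (h : v ∈ V) :
    ext V c v = c ⟨v, h⟩ := by
  simp [ext, h]

theorem proper_iff (W : WG) (hW : IsWG W) (c : {v // v ∈ (thick W).1} → Fin 4) :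
    (∀ e ∈ (thick W).2, ∀ (h1 : e.1 ∈ (thick W).1) (h2 : e.2 ∈ (thick W).1),
      c ⟨e.1, h1⟩ ≠ c ⟨e.2, h2⟩) ↔ Good W (cmap W hW c) := by
  constructor
  · intro h
    constructor
    · intro e he
      obtain ⟨a, b, _⟩ := hW.2.1 e he
      rw [ext_mem _ _ _ a, ext_mem _ _ _ b, cmap_fst, cmap_fst]
      exact h (2 * e.1, 2 * e.2) ((mem_thick_e W _).2 (Or.inl ⟨e, he, rfl⟩)) _ _
    · rintro ⟨⟨s, hs⟩, ⟨i, hi⟩⟩
      obtain ⟨a, b, _⟩ := hW.2.2.1 s hs
      dsimp only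
      rw [ext_mem _ _ _ a, ext_mem _ _ _ b, cmap_fst, cmap_fst, cmap_snd]
      exact ⟨h (2 * s.1.1, midL s.1.1 s.1.2 i)
          ((mem_thick_e W _).2 (Or.inr ⟨s, hs, i, hi, Or.inl rfl⟩)) _ _,
        h (2 * s.1.2, midL s.1.1 s.1.2 i)
          ((mem_thick_e W _).2 (Or.inr ⟨s, hs, i, hi, Or.inr rfl⟩)) _ _⟩
  · rintro ⟨hA, hB⟩ e he h1 h2
    rcases (mem_thick_e W e).1 he with ⟨f, hf, rfl⟩ | ⟨s, hs, i, hi, rfl | rfl⟩
    · obtain ⟨a, b, _⟩ := hW.2.1 f hf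
      have := hA f hf
      rw [ext_mem _ _ _ a, ext_mem _ _ _ b, cmap_fst, cmap_fst] at this
      exact this
    · obtain ⟨a, b, _⟩ := hW.2.2.1 s hs
      have := (hB ⟨⟨s, hs⟩, ⟨i, hi⟩⟩).1
      dsimp only at this
      rw [ext_mem _ _ _ a, cmap_fst, cmap_snd] at this
      exact this
    · obtain ⟨a, b, _⟩ := hW.2.2.1 s hs
      have := (hB ⟨⟨s, hs⟩, ⟨i, hi⟩⟩).2
      dsimp only at this
      rw [ext_mem _ _ _ b, cmap_fst, cmap_snd] at this
      exact this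

theorem card_two (a b : Fin 4) :
    (Finset.univ.filter (fun x : Fin 4 => a ≠ x ∧ b ≠ x)).card = if a = b then 3 else 2 := by
  revert a b
  decide

open Classical in
theorem card_good (W : WG) (hW : IsWG W) :
    Nat.card {c : ({v // v ∈ W.1} → Fin 4) × (Mid W → Fin 4) // Good W c} = Zw W := by
  have hnd : W.2.2.Nodup := List.Nodup.of_map _ hW.2.2.2
  rw [Nat.card_eq_fintype_card, Fintype.card_subtype, Finset.card_filter]
  rw [Fintype.sum_prod_type]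
  unfold Zw
  refine Finset.sum_congr rfl (fun c _ => ?_)
  unfold wcol
  by_cases hp : ∀ e ∈ W.2.1, ext W.1 c e.1 ≠ ext W.1 c e.2
  · rw [if_pos hp]
    have hG : ∀ f : Mid W → Fin 4, Good W (c, f) ↔
        f ∈ Fintype.piFinset (fun m : Mid W => Finset.univ.filter (fun x : Fin 4 =>
          ext W.1 c m.1.1.1.1 ≠ x ∧ ext W.1 c m.1.1.1.2 ≠ x)) := by
      intro f
      unfold Good
      simp only [Fintype.mem_piFinset, Finset.mem_filter, Finset.mem_univ, true_and]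
      exact ⟨fun h => h.2, fun h => ⟨hp, h⟩⟩
    rw [Finset.sum_congr rfl (fun f _ => if_congr (hG f) rfl rfl), Finset.sum_ite_mem,
      Finset.univ_inter, Finset.sum_const, smul_eq_mul, mul_one, Fintype.card_piFinset]
    simp only [card_two]
    rw [Fintype.prod_sigma]
    have h3 : ∀ s : (ℕ × ℕ) × ℕ, (if ext W.1 c s.1.1 = ext W.1 c s.1.2 then 3 else 2) ^ s.2 =
      if ext W.1 c s.1.1 = ext W.1 c s.1.2 then 3 ^ s.2 else 2 ^ s.2 := by
      intro s; split_ifs <;> rfl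
    rw [← List.prod_toFinset _ hnd, Finset.prod_subtype W.2.2.toFinset
      (p := fun s => s ∈ W.2.2) (by simp)]
    refine Finset.prod_congr rfl (fun s _ => ?_)
    refine Eq.trans ?_ (h3 s.1)
    show (∏ _i : Fin s.1.2, (if ext W.1 c s.1.1.1 = ext W.1 c s.1.1.2 then 3 else 2)) = _
    rw [Finset.prod_const, Finset.card_univ, Fintype.card_fin]
  · rw [if_neg hp]
    refine Finset.sum_eq_zero (fun f _ => ?_)
    rw [if_neg]
    intro h
    exact hp h.1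

end T1aux

open T1aux in
theorem T1_ok : S_T1 := by
  intro W hW
  refine ⟨isGr_thick W hW, ?_⟩
  rw [← card_good W hW]
  unfold numCol
  exact Nat.card_congr ((cmap W hW).subtypeEquiv (fun c => proper_iff W hW c))

end Pool.Agent.H49R2.PC
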