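import Pool.Agent.H49R2.PC.Stubs

set_option autoImplicit false

open Filter Topology

namespace Pool.Agent.H49R2.PC.T2aaux

open Pool.Agent.H49R2.PC

theorem memseg {x y p : ℝ × ℝ} :
    p ∈ segment ℝ x y ↔ ∃ t : ℝ, 0 ≤ t ∧ t ≤ 1 ∧ p = x + t • (y - x) := by
  rw [segment_eq_image']
  constructor
  · rintro ⟨t, ⟨h0, h1⟩, rfl⟩
    exact ⟨t, h0, h1, rfl⟩
  · rintro ⟨t, h0, h1, rfl⟩
    exact ⟨t, ⟨h0, h1⟩, rfl⟩

theorem compact_seg (x y : ℝ × ℝ) : IsCompact (segment ℝ x y) := by
  rw [segment_eq_image']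
  exact isCompact_Icc.image (by fun_prop)

/-- a closed set that does not meet `[U, m]` does not meet `[U, m + ε n]` -/
theorem far (C : Set (ℝ × ℝ)) (hC : IsClosed C) (U m n : ℝ × ℝ)
    (h : ∀ p ∈ segment ℝ U m, p ∉ C) :
    ∀ᶠ ε : ℝ in 𝓝[>] 0, ∀ p ∈ segment ℝ U (m + ε • n), p ∉ C := by
  have hd : Disjoint (segment ℝ U m) C := Set.disjoint_left.2 h
  obtain ⟨δ, hδ, hdis⟩ := hd.exists_thickenings (compact_seg U m) hC
  have hn : 0 < ‖n‖ + 1 := by positivity
  have h1 : ∀ᶠ ε : ℝ in 𝓝[>] 0, ε < δ / (‖n‖ + 1) :=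
    mem_nhdsWithin_of_mem_nhds (Iio_mem_nhds (by positivity))
  have h2 : ∀ᶠ ε : ℝ in 𝓝[>] (0 : ℝ), 0 < ε := self_mem_nhdsWithin
  filter_upwards [h1, h2] with ε he he0 p hp hpC
  obtain ⟨s, hs0, hs1, rfl⟩ := memseg.1 hp
  refine (Set.disjoint_left.1 hdis) ?_ (Metric.self_subset_thickening hδ C hpC)
  rw [Metric.mem_thickening_iff]
  refine ⟨U + s • (m - U), memseg.2 ⟨s, hs0, hs1, rfl⟩, ?_⟩
  rw [dist_eq_norm]
  have e : U + s • (m + ε • n - U) - (U + s • (m - U)) = (s * ε) • n := by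
    rw [mul_smul]
    module
  rw [e, norm_smul, Real.norm_eq_abs, abs_of_nonneg (by positivity)]
  have h3 : s * ε * ‖n‖ ≤ ε * ‖n‖ := by
    have : 0 ≤ ε * ‖n‖ := by positivity
    nlinarith
  have h4 : ε * (‖n‖ + 1) < δ := (lt_div_iff₀ hn).1 he
  nlinarith

/-- a segment that starts at `U` -/
theorem near (U Q m n : ℝ × ℝ) (hli : ∀ α β : ℝ, α • (m - U) + β • n = 0 → α = 0 ∧ β = 0) :
    ∀ᶠ ε : ℝ in 𝓝[>] 0, ∀ p ∈ segment ℝ U (m + ε • n), p ∈ segment ℝ U Q → p = U := by
  have h2 : ∀ᶠ ε : ℝ in 𝓝[>] (0 : ℝ), 0 < ε := self_mem_nhdsWithin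
  have key : ∀ ε : ℝ, ∀ p ∈ segment ℝ U (m + ε • n), p ∈ segment ℝ U Q → p ≠ U →
      ∃ r : ℝ, m + ε • n - U = r • (Q - U) := by
    intro ε p hp hp' hne
    obtain ⟨s, hs0, hs1, rfl⟩ := memseg.1 hp
    obtain ⟨t, ht0, ht1, ht⟩ := memseg.1 hp'
    have hs : s ≠ 0 := by
      rintro rfl
      apply hne; simp
    have h3 : s • (m + ε • n - U) = t • (Q - U) := add_left_cancel ht
    refine ⟨s⁻¹ * t, ?_⟩
    rw [mul_smul, ← h3, smul_smul, inv_mul_cancel₀ hs, one_smul]
  by_cases h : ∃ ε0 : ℝ, 0 < ε0 ∧ ∃ r : ℝ, m + ε0 • n - U = r • (Q - U)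
  · obtain ⟨ε0, he0, r0, hr0⟩ := h
    have h1 : ∀ᶠ ε : ℝ in 𝓝[>] 0, ε < ε0 := mem_nhdsWithin_of_mem_nhds (Iio_mem_nhds he0)
    filter_upwards [h1, h2] with ε he hpos p hp hp'
    by_contra hne
    obtain ⟨r1, hr1⟩ := key ε p hp hp' hne
    have h3 : (r0 - r1) • (m - U) + (r0 * ε - r1 * ε0) • n = 0 := by
      have h4 : r0 • (m + ε • n - U) - r1 • (m + ε0 • n - U) = 0 := by
        rw [hr1, hr0]
        module
      rw [← h4]
      module
    obtain ⟨h5, h6⟩ := hli _ _ h3
    have h7 : r0 = r1 := by linarith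
    rw [← h7] at h6
    have h8 : r0 * (ε - ε0) = 0 := by linarith
    have h9 : r0 = 0 := by
      rcases mul_eq_zero.1 h8 with h | h
      · exact h
      · linarith
    rw [h9, zero_smul] at hr0
    have h10 : (1 : ℝ) • (m - U) + ε0 • n = 0 := by
      rw [← hr0]; module
    have := (hli _ _ h10).1
    norm_num at this
  · filter_upwards [h2] with ε hpos p hp hp'
    by_contra hne
    exact h ⟨ε, hpos, key ε p hp hp' hne⟩

/-- one of the two new edges -/
theorem side (G : Gr) (hG : IsGr G) (pos : ℕ → ℝ × ℝ) (u v : ℕ) (m n : ℝ × ℝ)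
    (hinj : ∀ a ∈ G.1, ∀ b ∈ G.1, pos a = pos b → a = b)
    (hv : v ∈ G.1)
    (H1 : ∀ w ∈ G.1, pos w ∈ segment ℝ (pos u) (pos v) → w = u ∨ w = v)
    (H2 : ∀ f ∈ G.2, ∀ p : ℝ × ℝ, p ∈ segment ℝ (pos u) (pos v) →
      p ∈ segment ℝ (pos f.1) (pos f.2) →
      (f = (u, v) ∨ f = (v, u)) ∨ ∃ w, p = pos w ∧ (w = u ∨ w = v) ∧ (w = f.1 ∨ w = f.2))
    (hm : m = pos u + (1 / 2 : ℝ) • (pos v - pos u)) (huv : pos v ≠ pos u)
    (hli : ∀ α β : ℝ, α • (m - pos u) + β • n = 0 → α = 0 ∧ β = 0) :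
    ∀ᶠ ε : ℝ in 𝓝[>] 0, (∀ w ∈ G.1, w ≠ u → pos w ∉ segment ℝ (pos u) (m + ε • n)) ∧
      ∀ f ∈ G.2, ∀ p ∈ segment ℝ (pos u) (m + ε • n), p ∈ segment ℝ (pos f.1) (pos f.2) →
        p = pos u ∧ (u = f.1 ∨ u = f.2) := by
  have hsub : ∀ p ∈ segment ℝ (pos u) m, p ∈ segment ℝ (pos u) (pos v) ∧ p ≠ pos v := by
    intro p hp
    obtain ⟨t, h0, h1, rfl⟩ := memseg.1 hp
    constructor
    · refine memseg.2 ⟨t / 2, by linarith, by linarith, ?_⟩
      rw [hm]
      module
    · intro h
      apply huv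
      rw [hm] at h
      have h2 : (1 - t / 2) • (pos v - pos u) = 0 := by
        have h3 : (1 - t / 2) • (pos v - pos u) = pos v -
            (pos u + t • (pos u + (1 / 2 : ℝ) • (pos v - pos u) - pos u)) := by module
        rw [h3, h, sub_self]
      rcases smul_eq_zero.1 h2 with h4 | h4
      · linarith
      · exact sub_eq_zero.1 h4
  refine Filter.Eventually.and ?_ ?_
  · have : ∀ w ∈ {w | w ∈ G.1}, ∀ᶠ ε : ℝ in 𝓝[>] 0, w ≠ u →
        pos w ∉ segment ℝ (pos u) (m + ε • n) := by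
      intro w hw
      by_cases hwu : w = u
      · exact Filter.Eventually.of_forall fun ε h => absurd hwu h
      · have h1 : ∀ p ∈ segment ℝ (pos u) m, p ∉ ({pos w} : Set (ℝ × ℝ)) := by
          intro p hp hpw
          rw [Set.mem_singleton_iff] at hpw
          obtain ⟨h2, h3⟩ := hsub p hp
          rw [hpw] at h2 h3
          rcases H1 w hw h2 with h | h
          · exact hwu h
          · exact h3 (by rw [h])
        filter_upwards [far {pos w} isClosed_singleton (pos u) m n h1] with ε he _ hmem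
        exact he _ hmem rfl
    exact (Filter.eventually_all_finite (List.finite_toSet G.1)).2 this
  · have : ∀ f ∈ {f | f ∈ G.2}, ∀ᶠ ε : ℝ in 𝓝[>] 0,
        ∀ p ∈ segment ℝ (pos u) (m + ε • n), p ∈ segment ℝ (pos f.1) (pos f.2) →
        p = pos u ∧ (u = f.1 ∨ u = f.2) := by
      intro f hf
      by_cases hf1 : u = f.1
      · filter_upwards [near (pos u) (pos f.2) m n hli] with ε he p hp hp'
        exact ⟨he p hp (by rw [hf1]; exact hp'), Or.inl hf1⟩
      by_cases hf2 : u = f.2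
      · filter_upwards [near (pos u) (pos f.1) m n hli] with ε he p hp hp'
        refine ⟨he p hp (by rw [hf2, segment_symm]; exact hp'), Or.inr hf2⟩
      have h1 : ∀ p ∈ segment ℝ (pos u) m, p ∉ segment ℝ (pos f.1) (pos f.2) := by
        intro p hp hpf
        obtain ⟨h2, h3⟩ := hsub p hp
        rcases H2 f hf p h2 hpf with (h | h) | ⟨w, h4, h5, h6⟩
        · exact hf1 (by rw [h])
        · exact hf2 (by rw [h])
        · rcases h5 with h5 | h5
          · rw [h5] at h6
            rcases h6 with h6 | h6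
            · exact hf1 h6
            · exact hf2 h6
          · exact h3 (by rw [h4, h5])
      filter_upwards [far _ (compact_seg _ _).isClosed (pos u) m n h1] with ε he p hp hp'
      exact absurd hp' (he p hp)
    exact (Filter.eventually_all_finite (List.finite_toSet G.2)).2 this

end Pool.Agent.H49R2.PC.T2aaux

namespace Pool.Agent.H49R2.PC

open T2aaux

theorem T2a_ok : S_T2a := by
  intro G u v x hP huv hx
  obtain ⟨hG, pos, hinj, hve, hee⟩ := hP
  obtain ⟨hu, hv, hne⟩ := hG.2 _ huv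
  simp only at hu hv hne
  have hUV : pos v ≠ pos u := fun h => hne (hinj _ hv _ hu h).symm
  set d : ℝ × ℝ := pos v - pos u with hd
  have hd0 : d ≠ 0 := sub_ne_zero.2 hUV
  set n : ℝ × ℝ := (-d.2, d.1) with hn
  set m : ℝ × ℝ := pos u + (1 / 2 : ℝ) • (pos v - pos u) with hm
  have hm' : m = pos v + (1 / 2 : ℝ) • (pos u - pos v) := by
    rw [hm]; module
  have hdd : 0 < d.1 * d.1 + d.2 * d.2 := by
    by_contra hcon
    push Not at hcon
    apply hd0
    have h1 : d.1 = 0 := by nlinarith [mul_self_nonneg d.1, mul_self_nonneg d.2]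
    have h2 : d.2 = 0 := by nlinarith [mul_self_nonneg d.1, mul_self_nonneg d.2]
    exact Prod.ext h1 h2
  have hli0 : ∀ α β : ℝ, α • d + β • n = 0 → α = 0 ∧ β = 0 := by
    intro α β h
    have h1 : α * d.1 + β * (-d.2) = 0 := by
      have := congrArg Prod.fst h
      simpa [hn] using this
    have h2 : α * d.2 + β * d.1 = 0 := by
      have := congrArg Prod.snd h
      simpa [hn] using this
    have h3 : α * (d.1 * d.1 + d.2 * d.2) = 0 := by linear_combination d.1 * h1 + d.2 * h2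
    have h4 : β * (d.1 * d.1 + d.2 * d.2) = 0 := by linear_combination d.1 * h2 - d.2 * h1
    constructor
    · rcases mul_eq_zero.1 h3 with h | h
      · exact h
      · linarith
    · rcases mul_eq_zero.1 h4 with h | h
      · exact h
      · linarith
  have hli1 : ∀ α β : ℝ, α • (m - pos u) + β • n = 0 → α = 0 ∧ β = 0 := by
    intro α β h
    have h1 : (α / 2) • d + β • n = 0 := by
      rw [← h, hm, ← hd]; module
    obtain ⟨h2, h3⟩ := hli0 _ _ h1
    exact ⟨by linarith, h3⟩
  have hli2 : ∀ α β : ℝ, α • (m - pos v) + β • n = 0 → α = 0 ∧ β = 0 := by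
    intro α β h
    have h1 : (-α / 2) • d + β • n = 0 := by
      rw [← h, hm', hd]; module
    obtain ⟨h2, h3⟩ := hli0 _ _ h1
    exact ⟨by linarith, h3⟩
  have s1 := side G hG pos u v m n hinj hv (fun w hw h => hve _ huv w hw h)
    (fun f hf p hp hp' => hee _ huv f hf p hp hp') hm hUV hli1
  have s2 := side G hG pos v u m n hinj hu
    (fun w hw h => (hve _ huv w hw (by rw [segment_symm]; exact h)).symm)
    (fun f hf p hp hp' => by
      rcases hee _ huv f hf p (by rw [segment_symm]; exact hp) hp' with (h | h) | ⟨w, h1, h2, h3⟩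
      · exact Or.inl (Or.inr h)
      · exact Or.inl (Or.inl h)
      · exact Or.inr ⟨w, h1, h2.symm, h3⟩) hm' hUV.symm hli2
  have h2 : ∀ᶠ ε : ℝ in 𝓝[>] (0 : ℝ), 0 < ε := self_mem_nhdsWithin
  obtain ⟨ε, ⟨⟨a1, a2⟩, ⟨b1, b2⟩⟩, he⟩ := ((s1.and s2).and h2).exists
  set z : ℝ × ℝ := m + ε • n with hz
  -- the two new edges meet in `z` only
  have hzz : ∀ p, p ∈ segment ℝ (pos u) z → p ∈ segment ℝ (pos v) z → p = z := by
    intro p hp hp'
    obtain ⟨s, hs0, hs1, hs⟩ := memseg.1 hp
    obtain ⟨t, ht0, ht1, ht⟩ := memseg.1 hp'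
    have h1 : (s / 2 + t / 2 - 1) • d + ((s - t) * ε) • n = 0 := by
      have h3 : (pos u + s • (z - pos u)) - (pos v + t • (z - pos v)) = 0 := by
        rw [← hs, ← ht, sub_self]
      rw [← h3, hz, hm, hd]
      module
    obtain ⟨h3, h4⟩ := hli0 _ _ h1
    have h5 : s = 1 := by linarith
    rw [hs, h5, one_smul]; abel
  have hzu : z ≠ pos u := by
    intro h
    have h1 : (1 / 2 : ℝ) • d + ε • n = 0 := by
      have : z - pos u = 0 := sub_eq_zero.2 h
      rw [← this, hz, hm, hd]; module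
    have := (hli0 _ _ h1).1
    norm_num at this
  have hzv : z ≠ pos v := by
    intro h
    have h1 : (-(1 / 2) : ℝ) • d + ε • n = 0 := by
      have : z - pos v = 0 := sub_eq_zero.2 h
      rw [← this, hz, hm, hd]; module
    have := (hli0 _ _ h1).1
    norm_num at this
  have hzw : ∀ w ∈ G.1, z ≠ pos w := by
    intro w hw h
    by_cases hwu : w = u
    · exact hzu (by rw [h, hwu])
    · apply a1 w hw hwu
      rw [← h]; exact right_mem_segment ℝ _ _
  have hzf : ∀ f ∈ G.2, z ∉ segment ℝ (pos f.1) (pos f.2) := fun f hf h =>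
    hzu (a2 f hf z (right_mem_segment ℝ _ _) h).1
  classical
  refine ⟨Function.update pos x z, ?_, ?_, ?_⟩
  all_goals
    have hup : ∀ w ∈ G.1, Function.update pos x z w = pos w := by
      intro w hw
      have hwx : w ≠ x := by
        intro h
        rw [h] at hw
        exact hx hw
      exact Function.update_of_ne hwx _ _
    have hux : Function.update pos x z x = z := Function.update_self _ _ _
  · intro a ha b hb hab
    rcases List.mem_cons.1 ha with h | h
    · rcases List.mem_cons.1 hb with h' | h'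
      · rw [h, h']
      · rw [h, hux, hup b h'] at hab
        exact absurd hab (hzw b h')
    · rcases List.mem_cons.1 hb with h' | h'
      · rw [h', hux, hup a h] at hab
        exact absurd hab.symm (hzw a h)
      · rw [hup a h, hup b h'] at hab
        exact hinj a h b h' hab
  · intro e hedge w hw hmem
    simp only [List.mem_cons] at hedge
    rcases hedge with rfl | rfl | hedge
    · simp only at hmem ⊢
      rw [hup u hu, hux] at hmem
      rcases List.mem_cons.1 hw with h | h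
      · exact Or.inr h
      · rw [hup w h] at hmem
        by_contra hcon
        push Not at hcon
        exact a1 w h hcon.1 hmem
    · simp only at hmem ⊢
      rw [hup v hv, hux] at hmem
      rcases List.mem_cons.1 hw with h | h
      · exact Or.inr h
      · rw [hup w h] at hmem
        by_contra hcon
        push Not at hcon
        exact b1 w h hcon.1 hmem
    · obtain ⟨e1, e2, _⟩ := hG.2 e hedge
      rw [hup _ e1, hup _ e2] at hmem
      rcases List.mem_cons.1 hw with h | h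
      · rw [h, hux] at hmem
        exact absurd hmem (hzf e hedge)
      · rw [hup w h] at hmem
        exact hve e hedge w h hmem
  · intro e hedge f hfedge p hp hp'
    simp only [List.mem_cons] at hedge hfedge
    rcases hedge with rfl | rfl | hedge
    · simp only at hp ⊢
      rw [hup u hu, hux] at hp
      rcases hfedge with rfl | rfl | hfedge
      · exact Or.inl (Or.inl rfl)
      · simp only at hp' ⊢
        rw [hup v hv, hux] at hp'
        exact Or.inr ⟨x, by rw [hux]; exact hzz p hp hp', Or.inr rfl, Or.inr rfl⟩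
      · obtain ⟨f1, f2, _⟩ := hG.2 f hfedge
        rw [hup _ f1, hup _ f2] at hp'
        obtain ⟨h3, h4⟩ := a2 f hfedge p hp hp'
        exact Or.inr ⟨u, by rw [hup u hu]; exact h3, Or.inl rfl, h4⟩
    · simp only at hp ⊢
      rw [hup v hv, hux] at hp
      rcases hfedge with rfl | rfl | hfedge
      · simp only at hp' ⊢
        rw [hup u hu, hux] at hp'
        exact Or.inr ⟨x, by rw [hux]; exact hzz p hp' hp, Or.inr rfl, Or.inr rfl⟩
      · exact Or.inl (Or.inl rfl)
      · obtain ⟨f1, f2, _⟩ := hG.2 f hfedge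
        rw [hup _ f1, hup _ f2] at hp'
        obtain ⟨h3, h4⟩ := b2 f hfedge p hp hp'
        exact Or.inr ⟨v, by rw [hup v hv]; exact h3, Or.inl rfl, h4⟩
    · obtain ⟨e1, e2, _⟩ := hG.2 e hedge
      rw [hup _ e1, hup _ e2] at hp
      rcases hfedge with rfl | rfl | hfedge
      · simp only at hp' ⊢
        rw [hup u hu, hux] at hp'
        obtain ⟨h3, h4⟩ := a2 e hedge p hp' hp
        exact Or.inr ⟨u, by rw [hup u hu]; exact h3, h4, Or.inl rfl⟩
      · simp only at hp' ⊢
        rw [hup v hv, hux] at hp'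
        obtain ⟨h3, h4⟩ := b2 e hedge p hp' hp
        exact Or.inr ⟨v, by rw [hup v hv]; exact h3, h4, Or.inl rfl⟩
      · obtain ⟨f1, f2, _⟩ := hG.2 f hfedge
        rw [hup _ f1, hup _ f2] at hp'
        rcases hee e hedge f hfedge p hp hp' with h | ⟨w, h1, h2, h3⟩
        · exact Or.inl h
        · refine Or.inr ⟨w, ?_, h2, h3⟩
          have hw : w ∈ G.1 := by
            rcases h2 with rfl | rfl
            · exact e1
            · exact e2
          rw [hup w hw]; exact h1

end Pool.Agent.H49R2.PC
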