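import Pool.Agent.H49R2.PC.Stubs

set_option autoImplicit false

namespace Pool.Agent.H49R2.PC.T2iaux

open Pool.Agent.H49R2.PC

theorem mono {G H : Gr} {pos : ℕ → ℝ × ℝ} (hH : PlaneDrawing H pos)
    (h1 : ∀ v ∈ G.1, v ∈ H.1) (h2 : ∀ e ∈ G.2, e ∈ H.2) : PlaneDrawing G pos :=
  ⟨fun u hu v hv h => hH.1 u (h1 u hu) v (h1 v hv) h,
    fun e he w hw h => hH.2.1 e (h2 e he) w (h1 w hw) h,
    fun e he f hf p hp hp' => hH.2.2 e (h2 e he) f (h2 f hf) p hp hp'⟩

theorem midL_inj {a b i a' b' i' : ℕ} (h : midL a b i = midL a' b' i') :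
    a = a' ∧ b = b' ∧ i = i' := by
  unfold midL at h
  have h1 : Nat.pair (Nat.pair a b) i = Nat.pair (Nat.pair a' b') i' := by omega
  obtain ⟨h2, h3⟩ := Nat.pair_eq_pair.1 h1
  obtain ⟨h4, h5⟩ := Nat.pair_eq_pair.1 h2
  exact ⟨h4, h5, h3⟩

theorem build (hT : S_T2a) (G : Gr) (hG : IsPlanar G) (hev : ∀ v ∈ G.1, ∃ k, v = 2 * k) :
    ∀ M : List (ℕ × ℕ × ℕ), (∀ t ∈ M, (2 * t.1, 2 * t.2.1) ∈ G.2) →
      ∃ H : Gr, IsPlanar H ∧ (∀ v ∈ G.1, v ∈ H.1) ∧ (∀ e ∈ G.2, e ∈ H.2) ∧
        (∀ w ∈ H.1, w ∈ G.1 ∨ ∃ t ∈ M, w = midL t.1 t.2.1 t.2.2) ∧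
        ∀ t ∈ M, midL t.1 t.2.1 t.2.2 ∈ H.1 ∧ (2 * t.1, midL t.1 t.2.1 t.2.2) ∈ H.2 ∧
          (2 * t.2.1, midL t.1 t.2.1 t.2.2) ∈ H.2 := by
  intro M
  induction M with
  | nil =>
    intro _
    exact ⟨G, hG, fun v hv => hv, fun e he => he, fun w hw => Or.inl hw,
      fun t ht => absurd ht (by simp)⟩
  | cons t M ih =>
    intro hM
    obtain ⟨H, hH, hv, he, hw, ht⟩ := ih (fun t ht => hM t (List.mem_cons_of_mem _ ht))
    have htG := hM t (by simp)
    by_cases hx : midL t.1 t.2.1 t.2.2 ∈ H.1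
    · refine ⟨H, hH, hv, he, ?_, ?_⟩
      · intro w hwH
        rcases hw w hwH with h | ⟨t', ht', h⟩
        · exact Or.inl h
        · exact Or.inr ⟨t', List.mem_cons_of_mem _ ht', h⟩
      · intro t' ht'
        rcases List.mem_cons.1 ht' with h | h
        · rcases hw _ hx with h1 | ⟨t'', ht'', h1⟩
          · obtain ⟨k, hk⟩ := hev _ h1
            unfold midL at hk
            omega
          · obtain ⟨h2, h3, h4⟩ := midL_inj h1
            have h5 : t = t'' := Prod.ext h2 (Prod.ext h3 h4)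
            rw [h, h5]
            exact ht t'' ht''
        · exact ht t' h
    · obtain ⟨pos, hpos⟩ := hT H (2 * t.1) (2 * t.2.1) (midL t.1 t.2.1 t.2.2) hH (he _ htG) hx
      obtain ⟨hu, hv', -⟩ := hH.1.2 _ (he _ htG)
      refine ⟨(midL t.1 t.2.1 t.2.2 :: H.1, (2 * t.1, midL t.1 t.2.1 t.2.2) ::
        (2 * t.2.1, midL t.1 t.2.1 t.2.2) :: H.2), ⟨⟨?_, ?_⟩, pos, hpos⟩, ?_, ?_, ?_, ?_⟩
      · exact List.nodup_cons.2 ⟨hx, hH.1.1⟩
      · intro e hedge
        rcases List.mem_cons.1 hedge with h | h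
        · rw [h]
          refine ⟨List.mem_cons_of_mem _ hu, by simp, ?_⟩
          intro h'
          apply hx
          simp only at h' hu
          rw [← h']
          exact hu
        · rcases List.mem_cons.1 h with h | h
          · rw [h]
            refine ⟨List.mem_cons_of_mem _ hv', by simp, ?_⟩
            intro h'
            apply hx
            simp only at h' hv'
            rw [← h']
            exact hv'
          · obtain ⟨h1, h2, h3⟩ := hH.1.2 e h
            exact ⟨List.mem_cons_of_mem _ h1, List.mem_cons_of_mem _ h2, h3⟩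
      · intro v hvG
        exact List.mem_cons_of_mem _ (hv v hvG)
      · intro e heG
        exact List.mem_cons_of_mem _ (List.mem_cons_of_mem _ (he e heG))
      · intro w hwH
        rcases List.mem_cons.1 hwH with h | h
        · exact Or.inr ⟨t, by simp, h⟩
        · rcases hw w h with h | ⟨t', ht', h⟩
          · exact Or.inl h
          · exact Or.inr ⟨t', List.mem_cons_of_mem _ ht', h⟩
      · intro t' ht'
        rcases List.mem_cons.1 ht' with h | h
        · rw [h]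
          exact ⟨by simp, by simp, by simp⟩
        · obtain ⟨h1, h2, h3⟩ := ht t' h
          exact ⟨List.mem_cons_of_mem _ h1,
            List.mem_cons_of_mem _ (List.mem_cons_of_mem _ h2),
            List.mem_cons_of_mem _ (List.mem_cons_of_mem _ h3)⟩

end Pool.Agent.H49R2.PC.T2iaux

namespace Pool.Agent.H49R2.PC

open T2iaux

theorem T2i_ok : S_T2i := by
  intro hT W hW ⟨pos, hpos⟩
  obtain ⟨w1, w2, w3, w4⟩ := hW
  have hedges : ∀ e ∈ W.2.1 ++ W.2.2.map Prod.fst, e.1 ∈ W.1 ∧ e.2 ∈ W.1 ∧ e.1 ≠ e.2 := by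
    intro e he
    rcases List.mem_append.1 he with h | h
    · exact w2 e h
    · obtain ⟨s, hs, rfl⟩ := List.mem_map.1 h
      exact w3 s hs
  have hG0 : IsPlanar (W.1.map (fun v => 2 * v),
      (W.2.1 ++ W.2.2.map Prod.fst).map (fun e => (2 * e.1, 2 * e.2))) := by
    refine ⟨⟨w1.map (fun a b h => by simpa using h), ?_⟩, fun k => pos (k / 2), ?_, ?_, ?_⟩
    · intro e he
      obtain ⟨e', he', rfl⟩ := List.mem_map.1 he
      obtain ⟨h1, h2, h3⟩ := hedges e' he'
      exact ⟨List.mem_map.2 ⟨_, h1, rfl⟩, List.mem_map.2 ⟨_, h2, rfl⟩, by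
        simp only [ne_eq]; omega⟩
    · intro a ha b hb hab
      obtain ⟨a', ha', rfl⟩ := List.mem_map.1 ha
      obtain ⟨b', hb', rfl⟩ := List.mem_map.1 hb
      have e1 : 2 * a' / 2 = a' := by omega
      have e2 : 2 * b' / 2 = b' := by omega
      simp only [e1, e2] at hab
      rw [hpos.1 a' ha' b' hb' hab]
    · intro e he w hw hmem
      obtain ⟨e', he', rfl⟩ := List.mem_map.1 he
      obtain ⟨w', hw', rfl⟩ := List.mem_map.1 hw
      have e1 : 2 * w' / 2 = w' := by omega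
      have e2 : 2 * e'.1 / 2 = e'.1 := by omega
      have e3 : 2 * e'.2 / 2 = e'.2 := by omega
      simp only [e1, e2, e3] at hmem ⊢
      rcases hpos.2.1 e' he' w' hw' hmem with h | h
      · exact Or.inl (by rw [h])
      · exact Or.inr (by rw [h])
    · intro e he f hf p hp hp'
      obtain ⟨e', he', rfl⟩ := List.mem_map.1 he
      obtain ⟨f', hf', rfl⟩ := List.mem_map.1 hf
      have e2 : 2 * e'.1 / 2 = e'.1 := by omega
      have e3 : 2 * e'.2 / 2 = e'.2 := by omega
      have e4 : 2 * f'.1 / 2 = f'.1 := by omega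
      have e5 : 2 * f'.2 / 2 = f'.2 := by omega
      simp only [e2, e3] at hp
      simp only [e4, e5] at hp'
      rcases hpos.2.2 e' he' f' hf' p hp hp' with (h | h) | ⟨w, h1, h2, h3⟩
      · exact Or.inl (Or.inl (by rw [h]))
      · exact Or.inl (Or.inr (by rw [h]))
      · refine Or.inr ⟨2 * w, ?_, ?_, ?_⟩
        · have e6 : 2 * w / 2 = w := by omega
          simp only [e6]
          exact h1
        · rcases h2 with h2 | h2
          · exact Or.inl (by rw [h2])
          · exact Or.inr (by rw [h2])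
        · rcases h3 with h3 | h3
          · exact Or.inl (by rw [h3])
          · exact Or.inr (by rw [h3])
  have hev : ∀ v ∈ (W.1.map (fun v => 2 * v),
      (W.2.1 ++ W.2.2.map Prod.fst).map (fun e => (2 * e.1, 2 * e.2))).1, ∃ k, v = 2 * k := by
    intro v hv
    obtain ⟨k, _, rfl⟩ := List.mem_map.1 hv
    exact ⟨k, rfl⟩
  obtain ⟨H, ⟨_, pos', hpos'⟩, hv, he, -, ht⟩ := build hT _ hG0 hev
    (W.2.2.flatMap (fun s => (List.range s.2).map (fun i => (s.1.1, s.1.2, i)))) (by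
      intro t ht
      obtain ⟨s, hs, ht⟩ := List.mem_flatMap.1 ht
      obtain ⟨i, hi, rfl⟩ := List.mem_map.1 ht
      exact List.mem_map.2 ⟨s.1, List.mem_append_right _ (List.mem_map.2 ⟨s, hs, rfl⟩), rfl⟩)
  refine ⟨pos', mono hpos' ?_ ?_⟩
  · intro v hvW
    rcases List.mem_append.1 hvW with h | h
    · exact hv v h
    · obtain ⟨s, hs, h⟩ := List.mem_flatMap.1 h
      obtain ⟨i, hi, rfl⟩ := List.mem_map.1 h
      exact (ht (s.1.1, s.1.2, i) (List.mem_flatMap.2 ⟨s, hs, List.mem_map.2 ⟨i, hi, rfl⟩⟩)).1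
  · intro e heW
    rcases List.mem_append.1 heW with h | h
    · apply he
      obtain ⟨e', he', rfl⟩ := List.mem_map.1 h
      exact List.mem_map.2 ⟨e', List.mem_append_left _ he', rfl⟩
    · obtain ⟨s, hs, h⟩ := List.mem_flatMap.1 h
      obtain ⟨i, hi, h⟩ := List.mem_flatMap.1 h
      obtain ⟨-, h2, h3⟩ := ht (s.1.1, s.1.2, i)
        (List.mem_flatMap.2 ⟨s, hs, List.mem_map.2 ⟨i, hi, rfl⟩⟩)
      simp only [List.mem_cons, List.not_mem_nil, or_false] at h
      rcases h with rfl | rfl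
      · exact h2
      · exact h3

end Pool.Agent.H49R2.PC
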