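import Pool.Agent.H49R2.PC.Stubs

/-!
# The weight of a proper colouring (task U0a)
-/

namespace Pool.Agent.H49R2.PC

open Pool.Agent.NPC Pool.Agent.NPC.Cnt Finset

namespace U0aaux

theorem range_prod (n : ℕ) (f : ℕ → ℕ) : ((List.range n).map f).prod = ∏ k ∈ Finset.range n, f k := by
  induction n with
  | zero => simp
  | succ n ih => rw [List.range_succ, List.map_append, List.prod_append, ih, Finset.prod_range_succ]; simp

theorem flatMap_prod {α β : Type} (L : List α) (g : α → List β) (f : β → ℕ) :
    ((L.flatMap g).map f).prod = (L.map (fun a => ((g a).map f).prod)).prod := by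
  induction L with
  | nil => simp
  | cons a L ih => rw [List.flatMap_cons, List.map_append, List.prod_append, ih, List.map_cons,
      List.prod_cons]

/-- the multiplicities at the unequal spokes -/
def nS (B : List (List Pt)) (c : ℕ → Fin 4) (s : Pt) : ℕ :=
  ∑ k ∈ Finset.range 9, ((if c (cL s) = c (aL s k) then 0 else 10 * dl B s) +
    (if c (cL s) = c (pL s k) then 0 else 9 * dl B s))

theorem eS_add_nS (B : List (List Pt)) (c : ℕ → Fin 4) (s : Pt) :
    eS B c s + nS B c s = 171 * dl B s := by
  unfold eS nS
  rw [← Finset.sum_add_distrib]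
  have h : ∀ k ∈ Finset.range 9, ((if c (cL s) = c (aL s k) then 10 * dl B s else 0) +
      (if c (cL s) = c (pL s k) then 9 * dl B s else 0)) +
      ((if c (cL s) = c (aL s k) then 0 else 10 * dl B s) +
      (if c (cL s) = c (pL s k) then 0 else 9 * dl B s)) = 19 * dl B s := by
    intro k _
    split_ifs <;> ring
  rw [Finset.sum_congr rfl h, Finset.sum_const, Finset.card_range, smul_eq_mul]
  ring

theorem site (B : List (List Pt)) (t : ℕ) (c : ℕ → Fin 4) (s : Pt) :
    ((spokesOf B t s).map (fun s => if c s.1.1 = c s.1.2 then 3 ^ s.2 else 2 ^ s.2)).prod =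
      3 ^ (t * eS B c s) * 2 ^ (t * nS B c s) := by
  unfold spokesOf eS nS
  rw [flatMap_prod, range_prod, Finset.mul_sum, Finset.mul_sum, ← Finset.prod_pow_eq_pow_sum,
    ← Finset.prod_pow_eq_pow_sum, ← Finset.prod_mul_distrib]
  refine Finset.prod_congr rfl fun k _ => ?_
  simp only [List.map_cons, List.map_nil, List.prod_cons, List.prod_nil, mul_one]
  rw [show 10 * dl B s * t = t * (10 * dl B s) by ring,
    show 9 * dl B s * t = t * (9 * dl B s) by ring]
  split_ifs <;> simp only [zero_add, add_zero, mul_zero, pow_zero, one_mul, mul_one, mul_add, pow_add] <;>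
    ring

theorem total (B : List (List Pt)) (t : ℕ) (c : ℕ → Fin 4) (L : List Pt) :
    ((L.flatMap (spokesOf B t)).map (fun s => if c s.1.1 = c s.1.2 then 3 ^ s.2 else 2 ^ s.2)).prod =
      3 ^ (t * (L.map (eS B c)).sum) * 2 ^ (t * (L.map (nS B c)).sum) ∧
    (L.map (eS B c)).sum + (L.map (nS B c)).sum = 171 * (L.map (dl B)).sum := by
  induction L with
  | nil => simp
  | cons s L ih =>
    obtain ⟨h1, h2⟩ := ih
    constructor
    · rw [List.flatMap_cons, List.map_append, List.prod_append, h1, site, List.map_cons,
        List.map_cons, List.sum_cons, List.sum_cons, mul_add, mul_add, pow_add, pow_add]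
      ring
    · rw [List.map_cons, List.map_cons, List.map_cons, List.sum_cons, List.sum_cons, List.sum_cons]
      have := eS_add_nS B c s
      omega

end U0aaux

open U0aaux in
theorem U0a_ok : S_U0a := by
  intro B t c _ hc
  obtain ⟨h1, h2⟩ := total B t c (latS B)
  have h3 : ((latS B).map (nS B c)).sum = 171 * sumD B - ((latS B).map (eS B c)).sum := by
    unfold sumD
    omega
  refine ⟨?_, ?_⟩
  · unfold wcol
    rw [if_pos hc, ← h3]
    exact h1
  · unfold sumD
    omega

end Pool.Agent.H49R2.PC
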