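import Pool.Agent.H49R2.PC.Stubs

/-!
# U0b: the sum of the multiplicities at a site
-/

namespace Pool.Agent.H49R2.PC

open Pool.Agent.NPC Pool.Agent.NPC.Cnt Finset

namespace U0baux

/-- indicator of equal colours of the centre and an `a`-vertex -/
def al (c : ℕ → Fin 4) (s : Pt) (k : ℕ) : ℕ := if c (cL s) = c (aL s k) then 1 else 0

/-- indicator of equal colours of the centre and a `p`-vertex -/
def pi (c : ℕ → Fin 4) (s : Pt) (k : ℕ) : ℕ := if c (cL s) = c (pL s k) then 1 else 0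

theorem eS_eq (B : List (List Pt)) (c : ℕ → Fin 4) (s : Pt) :
    eS B c s = (∑ k ∈ Finset.range 9, (10 * al c s k + 9 * pi c s k)) * dl B s := by
  unfold eS
  rw [Finset.sum_mul]
  refine Finset.sum_congr rfl fun k _ => ?_
  unfold al pi
  split_ifs <;> ring

theorem mem1 (s : Pt) (k : ℕ) (hk : k < 9) : (aL s k, pL s k) ∈ rimOf s := by
  unfold rimOf
  rw [List.mem_flatMap]
  exact ⟨k, List.mem_range.2 hk, by simp⟩

theorem mem2 (s : Pt) (k : ℕ) (hk : k < 9) : (pL s k, aL s ((k + 1) % 9)) ∈ rimOf s := by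
  unfold rimOf
  rw [List.mem_flatMap]
  exact ⟨k, List.mem_range.2 hk, by simp⟩

theorem h1 {c : ℕ → Fin 4} {s : Pt} (h : ∀ e ∈ rimOf s, c e.1 ≠ c e.2) (k : ℕ) (hk : k < 9) :
    al c s k + pi c s k ≤ 1 := by
  have h2 : c (aL s k) ≠ c (pL s k) := h _ (mem1 s k hk)
  unfold al pi
  split_ifs with h3 h4
  · exact absurd (h3.symm.trans h4) h2
  · omega
  · omega
  · omega

theorem h2 {c : ℕ → Fin 4} {s : Pt} (h : ∀ e ∈ rimOf s, c e.1 ≠ c e.2) (k : ℕ) (hk : k < 9) :
    pi c s k + al c s ((k + 1) % 9) ≤ 1 := by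
  have h2 : c (pL s k) ≠ c (aL s ((k + 1) % 9)) := h _ (mem2 s k hk)
  unfold al pi
  split_ifs with h3 h4
  · exact absurd (h3.symm.trans h4) h2
  · omega
  · omega
  · omega

end U0baux

open U0baux in
theorem U0b_ok : S_U0b := by
  intro B c s _ _ h
  rw [eS_eq]
  have a0 := h1 h 0 (by omega)
  have a1 := h1 h 1 (by omega)
  have a2 := h1 h 2 (by omega)
  have a3 := h1 h 3 (by omega)
  have a4 := h1 h 4 (by omega)
  have a5 := h1 h 5 (by omega)
  have a6 := h1 h 6 (by omega)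
  have a7 := h1 h 7 (by omega)
  have a8 := h1 h 8 (by omega)
  have b0 : pi c s 0 + al c s 1 ≤ 1 := U0baux.h2 h 0 (by omega)
  have b1 : pi c s 1 + al c s 2 ≤ 1 := U0baux.h2 h 1 (by omega)
  have b2 : pi c s 2 + al c s 3 ≤ 1 := U0baux.h2 h 2 (by omega)
  have b3 : pi c s 3 + al c s 4 ≤ 1 := U0baux.h2 h 3 (by omega)
  have b4 : pi c s 4 + al c s 5 ≤ 1 := U0baux.h2 h 4 (by omega)
  have b5 : pi c s 5 + al c s 6 ≤ 1 := U0baux.h2 h 5 (by omega)
  have b6 : pi c s 6 + al c s 7 ≤ 1 := U0baux.h2 h 6 (by omega)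
  have b7 : pi c s 7 + al c s 8 ≤ 1 := U0baux.h2 h 7 (by omega)
  have b8 : pi c s 8 + al c s 0 ≤ 1 := U0baux.h2 h 8 (by omega)
  constructor
  · intro hA
    have e : ∀ k < 9, al c s k = 1 := fun k hk => by
      unfold al
      rw [if_pos (hA k hk).symm]
    have e0 := e 0 (by omega)
    have e1 := e 1 (by omega)
    have e2 := e 2 (by omega)
    have e3 := e 3 (by omega)
    have e4 := e 4 (by omega)
    have e5 := e 5 (by omega)
    have e6 := e 6 (by omega)
    have e7 := e 7 (by omega)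
    have e8 := e 8 (by omega)
    congr 1
    simp only [Finset.sum_range_succ, Finset.sum_range_zero]
    omega
  · intro hA
    apply Nat.mul_le_mul_right
    unfold Act at hA
    push Not at hA
    obtain ⟨j, hj, hj2⟩ := hA
    have e : al c s j = 0 := by
      unfold al
      rw [if_neg (Ne.symm hj2)]
    simp only [Finset.sum_range_succ, Finset.sum_range_zero]
    clear h hj2
    have hj' : j = 0 ∨ j = 1 ∨ j = 2 ∨ j = 3 ∨ j = 4 ∨ j = 5 ∨ j = 6 ∨ j = 7 ∨ j = 8 := by omega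
    generalize hα : al c s = α at *
    generalize hπ : pi c s = π at *
    clear hα hπ
    rcases hj' with rfl | rfl | rfl | rfl | rfl | rfl | rfl | rfl | rfl
    · linarith only [e, b0, b1, b2, b3, b4, b5, b6, b7, b8, a0, a1, a2, a3, a4, a5, a6, a7, a8]
    · linarith only [e, b1, b2, b3, b4, b5, b6, b7, b8, b0, a1, a2, a3, a4, a5, a6, a7, a8, a0]
    · linarith only [e, b2, b3, b4, b5, b6, b7, b8, b0, b1, a2, a3, a4, a5, a6, a7, a8, a0, a1]
    · linarith only [e, b3, b4, b5, b6, b7, b8, b0, b1, b2, a3, a4, a5, a6, a7, a8, a0, a1, a2]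
    · linarith only [e, b4, b5, b6, b7, b8, b0, b1, b2, b3, a4, a5, a6, a7, a8, a0, a1, a2, a3]
    · linarith only [e, b5, b6, b7, b8, b0, b1, b2, b3, b4, a5, a6, a7, a8, a0, a1, a2, a3, a4]
    · linarith only [e, b6, b7, b8, b0, b1, b2, b3, b4, b5, a6, a7, a8, a0, a1, a2, a3, a4, a5]
    · linarith only [e, b7, b8, b0, b1, b2, b3, b4, b5, b6, a7, a8, a0, a1, a2, a3, a4, a5, a6]
    · linarith only [e, b8, b0, b1, b2, b3, b4, b5, b6, b7, a8, a0, a1, a2, a3, a4, a5, a6, a7]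

end Pool.Agent.H49R2.PC
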