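import Pool.Agent.H49R2.PC.Stubs

set_option autoImplicit false

namespace Pool.Agent.H49R2.PC

namespace U0caux

theorem mem_chord {B : List (List Pt)} {t : ℕ} {s : Pt} (hs : s ∈ latS B) {e : ℕ × ℕ}
    (he : e ∈ chordOf (latS B) s) : e ∈ (latW B t).2.1 := by
  change e ∈ (latS B).flatMap rimOf ++ (latS B).flatMap (chordOf (latS B))
  exact List.mem_append_right _ (List.mem_flatMap.2 ⟨s, hs, he⟩)

theorem ge_one {B : List (List Pt)} (hB : GoodB B) {s : Pt} (hs : s ∈ latS B) :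
    1 ≤ s.1 ∧ 1 ≤ s.2 := by
  rw [latS, List.mem_dedup, List.mem_flatten] at hs
  obtain ⟨b, hb, hsb⟩ := hs
  exact (hB b hb).2.2.1 s hsb

/-- neighbours to the right -/
theorem step1 {B : List (List Pt)} {t : ℕ} {c : ℕ → Fin 4}
    (hc : ∀ e ∈ (latW B t).2.1, c e.1 ≠ c e.2) {s s' : Pt} (hs : s ∈ latS B)
    (hs' : s' ∈ latS B) (ha : Act c s) (ha' : Act c s') (h : s' = (s.1 + 1, s.2)) : False := by
  subst h
  have h1 := ha 0 (by norm_num)
  have h2 := ha' 5 (by norm_num)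
  have h3 : aL (s.1 + 1, s.2) 5 = aL s 0 := by simp [aL]
  rw [h3, h1] at h2
  have h4 := ha 1 (by norm_num)
  have h5 := ha' 4 (by norm_num)
  have h6 := hc (aL s 1, aL (s.1 + 1, s.2) 4) (mem_chord hs (by
    unfold chordOf
    rw [if_pos hs']
    simp))
  apply h6
  change c (aL s 1) = c (aL (s.1 + 1, s.2) 4)
  rw [h4, h5, h2]

/-- neighbours above -/
theorem step2 {B : List (List Pt)} {t : ℕ} {c : ℕ → Fin 4}
    (hc : ∀ e ∈ (latW B t).2.1, c e.1 ≠ c e.2) {s s' : Pt} (hs : s ∈ latS B)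
    (hs' : s' ∈ latS B) (ha : Act c s) (ha' : Act c s') (h : s' = (s.1, s.2 + 1)) : False := by
  subst h
  have h1 := ha 2 (by norm_num)
  have h2 := ha' 6 (by norm_num)
  have h3 : aL (s.1, s.2 + 1) 6 = aL s 2 := by simp [aL]
  rw [h3, h1] at h2
  have h4 := ha 1 (by norm_num)
  have h5 := ha' 7 (by norm_num)
  have h6 := hc (aL s 1, aL (s.1, s.2 + 1) 7) (mem_chord hs (by
    unfold chordOf
    rw [if_pos hs']
    simp))
  apply h6
  change c (aL s 1) = c (aL (s.1, s.2 + 1) 7)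
  rw [h4, h5, h2]

/-- neighbours to the upper left -/
theorem step3 {B : List (List Pt)} {t : ℕ} {c : ℕ → Fin 4}
    (hc : ∀ e ∈ (latW B t).2.1, c e.1 ≠ c e.2) {s s' : Pt} (hs : s ∈ latS B)
    (hs' : s' ∈ latS B) (ha : Act c s) (ha' : Act c s') (h1' : 1 ≤ s.1)
    (h : s' = (s.1 - 1, s.2 + 1)) : False := by
  subst h
  have h1 := ha 3 (by norm_num)
  have h2 := ha' 8 (by norm_num)
  have h3 : aL (s.1 - 1, s.2 + 1) 8 = aL s 3 := by
    have : s.1 - 1 + 1 = s.1 := by omega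
    simp [aL, this]
  rw [h3, h1] at h2
  have h4 := ha 4 (by norm_num)
  have h5 := ha' 7 (by norm_num)
  have h6 := hc (aL s 4, aL (s.1 - 1, s.2 + 1) 7) (mem_chord hs (by
    unfold chordOf
    rw [if_pos hs']
    simp))
  apply h6
  change c (aL s 4) = c (aL (s.1 - 1, s.2 + 1) 7)
  rw [h4, h5, h2]

end U0caux

theorem U0c_ok : S_U0c := by
  intro B t c hB hc s hs s' hs' ha ha' hadj
  have g1 := U0caux.ge_one hB hs
  have g2 := U0caux.ge_one hB hs'
  rcases hadj with (h | h) | (h | h) | (h | h)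
  · exact U0caux.step1 hc hs hs' ha ha' h
  · exact U0caux.step1 hc hs' hs ha' ha h
  · exact U0caux.step2 hc hs hs' ha ha' h
  · exact U0caux.step2 hc hs' hs ha' ha h
  · exact U0caux.step3 hc hs hs' ha ha' g1.1 (Prod.ext (by simp; omega) (by simp; omega))
  · exact U0caux.step3 hc hs' hs ha' ha g2.1 (Prod.ext (by simp; omega) (by simp; omega))

end Pool.Agent.H49R2.PC
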