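import Pool.Agent.H49R2.PC.Stubs

namespace Pool.Agent.H49R2.PC.U0daux

open Pool.Agent.NPC Pool.Agent.NPC.Cnt Finset

theorem dl_cons (b : List Pt) (B : List (List Pt)) (s : Pt) :
    dl (b :: B) s = (if s ∈ b then 1 else 0) + dl B s := by
  unfold dl
  by_cases h : s ∈ b
  · rw [List.filter_cons_of_pos (by simpa using h), List.length_cons, if_pos h]
    omega
  · rw [List.filter_cons_of_neg (by simpa using h), if_neg h]
    omega

theorem sum_ite (b L : List Pt) :
    (L.map (fun s => if s ∈ b then 1 else 0)).sum = (L.filter (fun s => decide (s ∈ b))).length := by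
  induction L with
  | nil => rfl
  | cons a L ih =>
    by_cases h : a ∈ b
    · rw [List.filter_cons_of_pos (by simpa using h), List.map_cons, List.sum_cons, if_pos h, ih,
        List.length_cons]
      omega
    · rw [List.filter_cons_of_neg (by simpa using h), List.map_cons, List.sum_cons, if_neg h, ih]
      omega

theorem len_eq {L b : List Pt} (hL : L.Nodup) (hb : b.Nodup) (hs : ∀ s ∈ b, s ∈ L)
    (p : Pt → Bool) :
    ((L.filter p).filter (fun s => decide (s ∈ b))).length = (b.filter p).length := by
  apply List.Perm.length_eq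
  rw [List.perm_ext_iff_of_nodup ((hL.filter _).filter _) (hb.filter _)]
  intro a
  simp only [List.mem_filter, decide_eq_true_eq]
  constructor
  · rintro ⟨⟨h1, h2⟩, h3⟩
    exact ⟨h3, h2⟩
  · rintro ⟨h1, h2⟩
    exact ⟨⟨hs a h1, h2⟩, h1⟩

theorem dbl (L : List Pt) (hL : L.Nodup) (p : Pt → Bool) (B : List (List Pt)) :
    (∀ b ∈ B, b.Nodup ∧ ∀ s ∈ b, s ∈ L) →
    ((L.filter p).map (dl B)).sum = (B.map (fun b => (b.filter p).length)).sum := by
  induction B with
  | nil =>
    intro _
    have h0 : dl [] = fun _ => 0 := by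
      funext s
      rfl
    rw [h0]
    simp
  | cons b B ih =>
    intro h
    have h1 := ih (fun b' hb' => h b' (List.mem_cons_of_mem _ hb'))
    obtain ⟨hb1, hb2⟩ := h b List.mem_cons_self
    have e : (dl (b :: B)) = fun s => (if s ∈ b then 1 else 0) + dl B s := by
      funext s
      exact dl_cons b B s
    rw [e, List.sum_map_add, sum_ite, len_eq hL hb1 hb2 p, h1, List.map_cons, List.sum_cons]

theorem nodup_latS (B : List (List Pt)) : (latS B).Nodup := List.nodup_dedup _

theorem mem_latS {B : List (List Pt)} {b : List Pt} (hb : b ∈ B) {s : Pt} (hs : s ∈ b) :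
    s ∈ latS B := by
  unfold latS
  rw [List.mem_dedup, List.mem_flatten]
  exact ⟨b, hb, hs⟩

theorem len_le_sum (B : List (List Pt)) (h : ∀ b ∈ B, b ≠ []) :
    B.length ≤ (B.map (fun b => (b.filter (fun _ => true)).length)).sum := by
  induction B with
  | nil => simp
  | cons b B ih =>
    rw [List.map_cons, List.sum_cons, List.length_cons]
    have h1 := ih (fun b' hb' => h b' (List.mem_cons_of_mem _ hb'))
    have h2 : (b.filter (fun _ => true)).length = b.length := by simp
    have h3 : 0 < b.length := List.length_pos_iff.2 (h b List.mem_cons_self)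
    omega

end Pool.Agent.H49R2.PC.U0daux

namespace Pool.Agent.H49R2.PC

open Pool.Agent.NPC Pool.Agent.NPC.Cnt Finset

theorem U0d_ok : S_U0d := by
  intro B hB I hI
  have hall : ∀ b ∈ B, b.Nodup ∧ ∀ s ∈ b, s ∈ latS B := fun b hb =>
    ⟨(hB b hb).2.1, fun s hs => U0daux.mem_latS hb hs⟩
  refine ⟨U0daux.dbl _ (U0daux.nodup_latS B) _ B hall, ?_, ?_⟩
  · intro b hb
    obtain ⟨-, hnd, -, hcl⟩ := hB b hb
    have hnd' := hnd.filter (fun s => decide (s ∈ I))
    rcases hx : b.filter (fun s => decide (s ∈ I)) with _ | ⟨x, _ | ⟨y, l⟩⟩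
    · simp
    · simp
    · exfalso
      rw [hx] at hnd'
      have hx1 : x ∈ b.filter (fun s => decide (s ∈ I)) := by rw [hx]; simp
      have hy1 : y ∈ b.filter (fun s => decide (s ∈ I)) := by rw [hx]; simp
      rw [List.mem_filter, decide_eq_true_eq] at hx1 hy1
      have hxy : x ≠ y := by
        rintro rfl
        simp at hnd'
      exact hI x hx1.2 y hy1.2 (hcl x hx1.1 y hy1.1 hxy)
  · have h1 := U0daux.dbl _ (U0daux.nodup_latS B) (fun _ => true) B hall
    have h2 := U0daux.len_le_sum B (fun b hb => (hB b hb).1)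
    rw [← h1] at h2
    unfold sumD
    have e : (latS B).filter (fun _ => true) = latS B := by simp
    rwa [e] at h2

end Pool.Agent.H49R2.PC
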