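import Pool.Agent.H49R2.PC.Stubs

set_option autoImplicit false

namespace Pool.Agent.H49R2.PC

namespace U1aaux

open Classical in
/-- the colour of the vertex of type `τ` at `(x, y)`, `A` is the set of active sites -/
noncomputable def cc (A : Pt → Prop) (x y τ : ℕ) : Fin 4 :=
  if τ = 0 then (if A (x, y) then 0 else 1)
  else if τ = 1 then (if A (x, y) ∨ A (x + 1, y) then 0 else 2)
  else if τ = 2 then (if A (x, y) ∨ A (x, y + 1) then 0 else 2)
  else if τ = 3 then (if A (x, y) ∨ A (x - 1, y + 1) then 0 else 2)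
  else if τ = 4 then (if A (x, y) then 0 else 2)
  else if τ = 5 then (if A (x, y) then 0 else 3)
  else if τ = 6 then (if A (x, y) then 0 else if A (x, y - 1) then 2
    else if A (x + 1, y - 1) then 3 else 0)
  else 1

noncomputable def col (A : Pt → Prop) (v : ℕ) : Fin 4 :=
  cc A v.unpair.1.unpair.1 v.unpair.1.unpair.2 v.unpair.2

theorem col_vl (A : Pt → Prop) (x y τ : ℕ) : col A (vl x y τ) = cc A x y τ := by
  simp [col, vl]

theorem ge_one {B : List (List Pt)} (hB : GoodB B) {s : Pt} (hs : s ∈ latS B) :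
    1 ≤ s.1 ∧ 1 ≤ s.2 := by
  rw [latS, List.mem_dedup, List.mem_flatten] at hs
  obtain ⟨b, hb, hsb⟩ := hs
  exact (hB b hb).2.2.1 s hsb

theorem cc_a (A : Pt → Prop) (x y τ : ℕ) (h0 : τ ≠ 0) (h7 : τ < 7) : cc A x y τ ≠ 1 := by
  have : τ = 1 ∨ τ = 2 ∨ τ = 3 ∨ τ = 4 ∨ τ = 5 ∨ τ = 6 := by omega
  rcases this with rfl | rfl | rfl | rfl | rfl | rfl <;> unfold cc <;> simp <;>
    (try split_ifs) <;> decide

theorem a_ne (A : Pt → Prop) (s : Pt) (k : ℕ) : col A (aL s k) ≠ 1 := by
  unfold aL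
  split_ifs <;> rw [col_vl] <;> apply cc_a <;> norm_num

theorem p_eq (A : Pt → Prop) (s : Pt) (k : ℕ) : col A (pL s k) = 1 := by
  unfold pL
  rw [col_vl]
  unfold cc
  rw [if_neg (by omega), if_neg (by omega), if_neg (by omega), if_neg (by omega),
    if_neg (by omega), if_neg (by omega), if_neg (by omega)]

theorem c_act (A : Pt → Prop) (s : Pt) (h : A s) : col A (cL s) = 0 := by
  unfold cL
  rw [col_vl]
  unfold cc
  rw [if_pos rfl, if_pos h]

theorem c_not (A : Pt → Prop) (s : Pt) (h : ¬ A s) : col A (cL s) = 1 := by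
  unfold cL
  rw [col_vl]
  unfold cc
  rw [if_pos rfl, if_neg h]

theorem a_act (A : Pt → Prop) (s : Pt) (h : A s) (h1 : 1 ≤ s.1) (h2 : 1 ≤ s.2) (k : ℕ)
    (hk : k < 9) : col A (aL s k) = 0 := by
  obtain ⟨x, y⟩ := s
  simp only at h1 h2
  obtain ⟨x, rfl⟩ : ∃ x', x = x' + 1 := ⟨x - 1, by omega⟩
  obtain ⟨y, rfl⟩ : ∃ y', y = y' + 1 := ⟨y - 1, by omega⟩
  interval_cases k <;> simp [aL, col_vl, cc, h]

/-- the value at the vertex of type 4 -/
theorem v4 (A : Pt → Prop) (s : Pt) : (A s ∧ col A (aL s 1) = 0) ∨ (¬ A s ∧ col A (aL s 1) = 2) := by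
  by_cases h : A s
  · exact Or.inl ⟨h, by simp [aL, col_vl, cc, h]⟩
  · exact Or.inr ⟨h, by simp [aL, col_vl, cc, h]⟩

/-- the value at the vertex of type 5 -/
theorem v5 (A : Pt → Prop) (s : Pt) : (A s ∧ col A (aL s 4) = 0) ∨ (¬ A s ∧ col A (aL s 4) = 3) := by
  by_cases h : A s
  · exact Or.inl ⟨h, by simp [aL, col_vl, cc, h]⟩
  · exact Or.inr ⟨h, by simp [aL, col_vl, cc, h]⟩

/-- the value at the vertex of type 6 -/
theorem v6 (A : Pt → Prop) (s : Pt) : (A s ∧ col A (aL s 7) = 0) ∨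
    (¬ A s ∧ A (s.1, s.2 - 1) ∧ col A (aL s 7) = 2) ∨
    (¬ A s ∧ ¬ A (s.1, s.2 - 1) ∧ A (s.1 + 1, s.2 - 1) ∧ col A (aL s 7) = 3) ∨
    (¬ A s ∧ ¬ A (s.1, s.2 - 1) ∧ ¬ A (s.1 + 1, s.2 - 1) ∧ col A (aL s 7) = 0) := by
  by_cases h : A s
  · exact Or.inl ⟨h, by simp [aL, col_vl, cc, h]⟩
  · by_cases h' : A (s.1, s.2 - 1)
    · exact Or.inr (Or.inl ⟨h, h', by simp [aL, col_vl, cc, h, h']⟩)
    · by_cases h'' : A (s.1 + 1, s.2 - 1)
      · exact Or.inr (Or.inr (Or.inl ⟨h, h', h'', by simp [aL, col_vl, cc, h, h', h'']⟩))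
      · exact Or.inr (Or.inr (Or.inr ⟨h, h', h'', by simp [aL, col_vl, cc, h, h', h'']⟩))

end U1aaux

open U1aaux in
theorem U1a_ok : S_U1a := by
  intro B t hB I hI
  set A : Pt → Prop := fun s => s ∈ I with hA
  refine ⟨col A, ?_, ?_, ?_⟩
  · intro e he
    have he' : e ∈ (latS B).flatMap rimOf ++ (latS B).flatMap (chordOf (latS B)) := he
    rw [List.mem_append, List.mem_flatMap, List.mem_flatMap] at he'
    rcases he' with ⟨s, hs, he⟩ | ⟨s, hs, he⟩
    · rw [rimOf, List.mem_flatMap] at he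
      obtain ⟨k, -, he⟩ := he
      simp only [List.mem_cons, List.not_mem_nil, or_false] at he
      rcases he with rfl | rfl
      · simp only [p_eq]; exact a_ne A s k
      · simp only [p_eq]; exact (a_ne A s _).symm
    · obtain ⟨g1, g2⟩ := ge_one hB hs
      unfold chordOf at he
      rw [List.mem_append, List.mem_append] at he
      rcases he with (he | he) | he
      · split_ifs at he with h
        · rw [List.mem_singleton] at he
          subst he
          simp only
          have hadj : A s → A (s.1 + 1, s.2) → False := fun h1 h2 =>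
            hI s h1 _ h2 (Or.inl (Or.inl rfl))
          rcases v4 A s with ⟨h1, e1⟩ | ⟨h1, e1⟩ <;>
            rcases v5 A (s.1 + 1, s.2) with ⟨h2, e2⟩ | ⟨h2, e2⟩ <;> rw [e1, e2]
          · exact absurd h2 (hadj h1)
          · decide
          · decide
          · decide
        · simp at he
      · split_ifs at he with h
        · rw [List.mem_singleton] at he
          subst he
          simp only
          have hadj : A s → A (s.1, s.2 + 1) → False := fun h1 h2 =>
            hI s h1 _ h2 (Or.inr (Or.inl (Or.inl rfl)))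
          rcases v4 A s with ⟨h1, e1⟩ | ⟨h1, e1⟩ <;>
            rcases v6 A (s.1, s.2 + 1) with ⟨h2, e2⟩ | ⟨h2, h3, e2⟩ | ⟨h2, h3, h4, e2⟩ |
              ⟨h2, h3, h4, e2⟩ <;> rw [e1, e2] <;> try decide
          · exact absurd h2 (hadj h1)
          · exact absurd h1 (by simpa using h3)
          · exact absurd (by simpa using h3) h1
        · simp at he
      · split_ifs at he with h
        · rw [List.mem_singleton] at he
          subst he
          simp only
          have hadj : A s → A (s.1 - 1, s.2 + 1) → False := fun h1 h2 =>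
            hI s h1 _ h2 (Or.inr (Or.inr (Or.inl ⟨by simp; omega, rfl⟩)))
          have hadj2 : A s → A (s.1 - 1, s.2) → False := fun h1 h2 =>
            hI s h1 _ h2 (Or.inl (Or.inr (Prod.ext (by simp; omega) rfl)))
          have hs1 : s.1 - 1 + 1 = s.1 := by omega
          rcases v5 A s with ⟨h1, e1⟩ | ⟨h1, e1⟩ <;>
            rcases v6 A (s.1 - 1, s.2 + 1) with ⟨h2, e2⟩ | ⟨h2, h3, e2⟩ | ⟨h2, h3, h4, e2⟩ |
              ⟨h2, h3, h4, e2⟩ <;> rw [e1, e2] <;> try decide
          · exact absurd h2 (hadj h1)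
          · exact absurd h1 (by simpa [hs1] using h4)
          · exact absurd (by simpa [hs1] using h4) h1
        · simp at he
  · intro s hs hsI k hk
    obtain ⟨g1, g2⟩ := ge_one hB hs
    rw [c_act A s hsI, a_act A s hsI g1 g2 k hk]
  · intro s hs hsI k hk
    rw [c_not A s hsI]
    exact ⟨p_eq A s k, a_ne A s k⟩

end Pool.Agent.H49R2.PC
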