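import Pool.Agent.H49R2.PC.U3i

set_option autoImplicit false

namespace Pool.Agent.H49R2.PC

open Finset

namespace U1iaux

theorem sum_filter {α : Type} (L : List α) (p : α → Bool) (f : α → ℕ) :
    ((L.filter p).map f).sum = (L.map (fun s => if p s then f s else 0)).sum := by
  induction L with
  | nil => rfl
  | cons a L ih =>
    rw [List.filter_cons, List.map_cons, List.sum_cons, ← ih]
    split_ifs <;> simp

theorem sum_ones {α : Type} (L : List α) (f : α → ℕ) (h : ∀ b ∈ L, f b = 1) :
    (L.map f).sum = L.length := by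
  induction L with
  | nil => rfl
  | cons a L ih =>
    rw [List.map_cons, List.sum_cons, List.length_cons, ih (fun b hb => h b (by simp [hb])),
      h a (by simp)]
    ring

theorem sum_lin {α : Type} (L : List α) (f g : α → ℕ) (a b : ℕ) :
    (L.map (fun s => a * f s + b * g s)).sum = a * (L.map f).sum + b * (L.map g).sum := by
  induction L with
  | nil => rfl
  | cons x L ih =>
    rw [List.map_cons, List.sum_cons, ih, List.map_cons, List.sum_cons, List.map_cons,
      List.sum_cons]
    ring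

theorem pow_key (t D E E0 K : ℕ) (h1 : E0 ≤ E) (h2 : E ≤ 171 * D) (h3 : 171 * D - E0 = K) :
    3 ^ (t * E0) * 2 ^ (t * K) ≤ 3 ^ (t * E) * 2 ^ (t * (171 * D - E)) := by
  obtain ⟨d, rfl⟩ := Nat.exists_eq_add_of_le h1
  have h4 : K = (171 * D - (E0 + d)) + d := by omega
  rw [h4, mul_add, mul_add, pow_add, pow_add]
  have h5 : 2 ^ (t * d) ≤ 3 ^ (t * d) := Nat.pow_le_pow_left (by norm_num) _
  calc 3 ^ (t * E0) * (2 ^ (t * (171 * D - (E0 + d))) * 2 ^ (t * d))
      ≤ 3 ^ (t * E0) * (2 ^ (t * (171 * D - (E0 + d))) * 3 ^ (t * d)) := by gcongr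
    _ = 3 ^ (t * E0) * 3 ^ (t * d) * 2 ^ (t * (171 * D - (E0 + d))) := by ring

end U1iaux

open U1iaux in
theorem U1i_ok : S_U1i := by
  intro h0a h0d h1a h4 B hB hsel
  obtain ⟨I, hI, hsel⟩ := hsel
  obtain ⟨c, hc, hc1, hc2⟩ := h1a B (tt B) hB I hI
  obtain ⟨hw, hE⟩ := h0a B (tt B) c hB hc
  obtain ⟨hs, -, hsD⟩ := h0d B hB I hI
  refine le_trans ?_ (U3iaux.le_Zw (h4 B (tt B) hB) c)
  rw [hw]
  unfold Th
  have e1 : 81 * sumD B + 9 * B.length ≤ ((latS B).map (eS B c)).sum := by
    have h1 : 81 * sumD B + 9 * B.length =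
        ((latS B).map (fun s => 81 * dl B s + 9 * (if decide (s ∈ I) then dl B s else 0))).sum := by
      rw [sum_lin, ← sum_filter, hs, sum_ones B _ hsel]
      rfl
    rw [h1]
    refine List.sum_le_sum ?_
    intro s hs'
    by_cases hsI : s ∈ I
    · have h2 : eS B c s = ∑ k ∈ Finset.range 9, (10 * dl B s +
          (if c (cL s) = c (pL s k) then 9 * dl B s else 0)) := by
        refine Finset.sum_congr rfl fun k hk => ?_
        rw [if_pos (hc1 s hs' hsI k (Finset.mem_range.1 hk)).symm]
      rw [h2, Finset.sum_add_distrib, Finset.sum_const, Finset.card_range, smul_eq_mul]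
      simp only [hsI, decide_true, if_true]
      have := Nat.zero_le (∑ k ∈ Finset.range 9, (if c (cL s) = c (pL s k) then 9 * dl B s else 0))
      omega
    · have h2 : eS B c s = ∑ k ∈ Finset.range 9, (0 + 9 * dl B s) := by
        refine Finset.sum_congr rfl fun k hk => ?_
        obtain ⟨g1, g2⟩ := hc2 s hs' hsI k (Finset.mem_range.1 hk)
        rw [if_pos g1.symm, if_neg (fun g => g2 g.symm)]
      rw [h2, Finset.sum_const, Finset.card_range, smul_eq_mul]
      simp only [hsI, decide_false, Bool.false_eq_true, if_false]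
      omega
  exact pow_key (tt B) (sumD B) _ _ _ e1 hE (by omega)

end Pool.Agent.H49R2.PC
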