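import Pool.Agent.H49R2.PC.Stubs

/-!
# Task U2i: without selection the partition function is small
-/

set_option autoImplicit false

namespace Pool.Agent.H49R2.PC

open Pool.Agent.NPC Pool.Agent.NPC.Cnt Finset

namespace U2iaux

theorem sum_le {β : Type} (f : β → ℕ) (B : List β) (h : ∀ b ∈ B, f b ≤ 1) :
    (B.map f).sum ≤ B.length := by
  induction B with
  | nil => simp
  | cons b B ih =>
    have h1 := h b (by simp)
    have h2 := ih fun b' hb' => h b' (by simp [hb'])
    simp only [List.map_cons, List.sum_cons, List.length_cons]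
    omega

theorem sum_lt {β : Type} (f : β → ℕ) (B : List β) (h : ∀ b ∈ B, f b ≤ 1)
    (h' : ∃ b ∈ B, f b ≠ 1) : (B.map f).sum + 1 ≤ B.length := by
  induction B with
  | nil => simp at h'
  | cons b B ih =>
    have h1 := h b (by simp)
    have h2 : ∀ b' ∈ B, f b' ≤ 1 := fun b' hb' => h b' (by simp [hb'])
    have h3 := sum_le f B h2
    simp only [List.map_cons, List.sum_cons, List.length_cons]
    obtain ⟨b', hb', hne⟩ := h'
    rcases List.mem_cons.1 hb' with rfl | hb'
    · omega
    · have := ih h2 ⟨b', hb', hne⟩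
      omega

theorem sum_split {β : Type} (d : β → ℕ) (p : β → Bool) (l : List β) :
    (l.map (fun s => 81 * d s + if p s = true then 9 * d s else 0)).sum =
      81 * (l.map d).sum + 9 * ((l.filter p).map d).sum := by
  induction l with
  | nil => simp
  | cons b l ih =>
    rw [List.map_cons, List.sum_cons, ih, List.map_cons, List.sum_cons, List.filter_cons]
    by_cases hp : p b = true
    · rw [if_pos hp, if_pos hp, List.map_cons, List.sum_cons]
      ring
    · rw [if_neg hp, if_neg hp]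
      ring

theorem pow_mono (t K E E' : ℕ) (h : E ≤ E') (h' : E' ≤ K) :
    3 ^ (t * E) * 2 ^ (t * (K - E)) ≤ 3 ^ (t * E') * 2 ^ (t * (K - E')) := by
  obtain ⟨d, rfl⟩ := Nat.exists_eq_add_of_le h
  obtain ⟨e, rfl⟩ := Nat.exists_eq_add_of_le h'
  have e1 : E + d + e - E = d + e := by omega
  have e2 : E + d + e - (E + d) = e := by omega
  rw [e1, e2, mul_add, mul_add, pow_add, pow_add, mul_assoc]
  refine Nat.mul_le_mul_left _ ?_
  exact Nat.mul_le_mul_right _ (Nat.pow_le_pow_left (by norm_num) _)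

theorem num (t : ℕ) (ht : 1 ≤ t) : 16 * 4 ^ (t - 1) * 2 ^ (9 * t) ≤ 3 ^ (9 * t) := by
  obtain ⟨s, rfl⟩ := Nat.exists_eq_add_of_le ht
  have e : 1 + s - 1 = s := by omega
  rw [e, pow_mul, pow_mul, pow_add, pow_add]
  norm_num
  have h1 : 4 ^ s * 512 ^ s ≤ 19683 ^ s := by
    rw [← mul_pow]
    exact Nat.pow_le_pow_left (by norm_num) _
  calc 16 * 4 ^ s * (512 * 512 ^ s) = 8192 * (4 ^ s * 512 ^ s) := by ring
    _ ≤ 19683 * 19683 ^ s := Nat.mul_le_mul (by norm_num) h1

theorem main (hB : S_U0b) (hC : S_U0c) (hD : S_U0d) (B : List (List Pt))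
    (t : ℕ) (hG : GoodB B) (hS : ¬ HasSel B) (c : ℕ → Fin 4)
    (hc : ∀ e ∈ (latW B t).2.1, c e.1 ≠ c e.2) :
    ((latS B).map (eS B c)).sum + 9 ≤ 81 * sumD B + 9 * B.length := by
  classical
  let I : Finset Pt := (latS B).toFinset.filter (Act c)
  have hI : ∀ s, s ∈ I ↔ s ∈ latS B ∧ Act c s := by
    intro s
    simp [I]
  have hind : ∀ s ∈ I, ∀ s' ∈ I, ¬ adjP s s' := by
    intro s hs s' hs'
    rw [hI] at hs hs'
    exact hC B t c hG hc s hs.1 s' hs'.1 hs.2 hs'.2
  obtain ⟨d1, d2, d3⟩ := hD B hG I hind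
  have hex : ∃ b ∈ B, (b.filter (fun s => decide (s ∈ I))).length ≠ 1 := by
    by_contra hcon
    push Not at hcon
    exact hS ⟨I, hind, hcon⟩
  have h1 := sum_lt (fun b : List Pt => (b.filter (fun s => decide (s ∈ I))).length) B d2 hex
  have h2 : ((latS B).map (eS B c)).sum ≤ ((latS B).map (fun s => 81 * dl B s +
      if decide (s ∈ I) = true then 9 * dl B s else 0)).sum := by
    refine List.sum_le_sum fun s hs => ?_
    have hs' : 1 ≤ s.1 ∧ 1 ≤ s.2 := by
      unfold latS at hs
      rw [List.mem_dedup, List.mem_flatten] at hs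
      obtain ⟨b, hb, hsb⟩ := hs
      exact (hG b hb).2.2.1 s hsb
    have hr : ∀ e ∈ rimOf s, c e.1 ≠ c e.2 := by
      intro e he
      refine hc e ?_
      exact List.mem_append_left _ (List.mem_flatMap.2 ⟨s, hs, he⟩)
    have hb := hB B c s hs'.1 hs'.2 hr
    by_cases ha : Act c s
    · rw [if_pos (by simpa using (hI s).2 ⟨hs, ha⟩), hb.1 ha]
      omega
    · rw [if_neg (by simpa using fun h => ha ((hI s).1 h).2), add_zero]
      exact hb.2 ha
  rw [sum_split, d1] at h2
  unfold sumD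
  omega

end U2iaux

theorem U2i_ok : S_U2i := by
  intro hA hB hC hD B hG hS
  have ht : 1 ≤ tt B := by unfold tt; omega
  have hBl : B.length ≤ sumD B := (hD B hG ∅ (by simp)).2.2
  have hB1 : 1 ≤ B.length := by
    by_contra hcon
    have : B = [] := List.length_eq_zero_iff.1 (by omega)
    subst this
    exact hS ⟨∅, by simp, by simp⟩
  have hw : ∀ c : {v // v ∈ (latW B (tt B)).1} → Fin 4,
      wcol (latW B (tt B)) (ext (latW B (tt B)).1 c) ≤
        3 ^ (tt B * (81 * sumD B + 9 * B.length - 9)) *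
          2 ^ (tt B * (171 * sumD B - (81 * sumD B + 9 * B.length - 9))) := by
    intro c
    by_cases hc : ∀ e ∈ (latW B (tt B)).2.1,
        ext (latW B (tt B)).1 c e.1 ≠ ext (latW B (tt B)).1 c e.2
    · rw [(hA B (tt B) _ hG hc).1]
      have h1 := U2iaux.main hB hC hD B (tt B) hG hS _ hc
      exact U2iaux.pow_mono _ _ _ _ (by omega) (by omega)
    · unfold wcol
      rw [if_neg hc]
      exact Nat.zero_le _
  have hcard : Fintype.card ({v // v ∈ (latW B (tt B)).1} → Fin 4) ≤ 4 ^ (tt B - 1) := by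
    rw [Fintype.card_fun, Fintype.card_fin]
    refine Nat.pow_le_pow_right (by norm_num) ?_
    rw [Fintype.card_of_subtype (latW B (tt B)).1.toFinset (by simp)]
    refine (List.toFinset_card_le _).trans ?_
    have : tt B - 1 = ((latS B).flatMap vertsOf).length := by unfold tt; omega
    rw [this]
    exact (List.dedup_sublist _).length_le
  have hZ : Zw (latW B (tt B)) ≤ 4 ^ (tt B - 1) *
      (3 ^ (tt B * (81 * sumD B + 9 * B.length - 9)) *
          2 ^ (tt B * (171 * sumD B - (81 * sumD B + 9 * B.length - 9)))) := by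
    unfold Zw
    refine (Finset.sum_le_card_nsmul _ _ _ fun c _ => hw c).trans ?_
    rw [smul_eq_mul, Finset.card_univ]
    exact Nat.mul_le_mul_right _ hcard
  have e1 : 171 * sumD B - (81 * sumD B + 9 * B.length - 9) = (90 * sumD B - 9 * B.length) + 9 := by
    omega
  have e2 : 81 * sumD B + 9 * B.length = (81 * sumD B + 9 * B.length - 9) + 9 := by omega
  rw [e1] at hZ
  unfold Th
  rw [e2]
  generalize 81 * sumD B + 9 * B.length - 9 = x at *
  generalize 90 * sumD B - 9 * B.length = y at *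
  have hn := U2iaux.num (tt B) ht
  calc 16 * Zw (latW B (tt B)) ≤ 16 * (4 ^ (tt B - 1) * (3 ^ (tt B * x) * 2 ^ (tt B * (y + 9)))) :=
        Nat.mul_le_mul_left _ hZ
    _ = (16 * 4 ^ (tt B - 1) * 2 ^ (9 * tt B)) * (3 ^ (tt B * x) * 2 ^ (tt B * y)) := by
        rw [mul_add (tt B) y 9, pow_add, mul_comm (tt B) 9]
        ring
    _ ≤ 3 ^ (9 * tt B) * (3 ^ (tt B * x) * 2 ^ (tt B * y)) := Nat.mul_le_mul_right _ hn
    _ = 3 ^ (tt B * (x + 9)) * 2 ^ (tt B * y) := by
        rw [mul_add (tt B) x 9, pow_add 3, mul_comm (tt B) 9]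
        ring

end Pool.Agent.H49R2.PC
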