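import Pool.Agent.H49R2.PC.Stubs

set_option autoImplicit false

namespace Pool.Agent.H49R2.PC

open Finset

namespace U3iaux

theorem ext_eq (V : List ℕ) (c : ℕ → Fin 4) {v : ℕ} (hv : v ∈ V) :
    ext V (fun w : {v // v ∈ V} => c w.1) v = c v := by
  unfold ext
  rw [dif_pos hv]

theorem wcol_congr {W : WG} (hW : IsWG W) {c c' : ℕ → Fin 4} (h : ∀ v ∈ W.1, c v = c' v) :
    wcol W c = wcol W c' := by
  obtain ⟨-, h2, h3, -⟩ := hW
  unfold wcol
  have e1 : (∀ e ∈ W.2.1, c e.1 ≠ c e.2) ↔ (∀ e ∈ W.2.1, c' e.1 ≠ c' e.2) := by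
    constructor
    · intro g e he
      rw [← h _ (h2 e he).1, ← h _ (h2 e he).2.1]
      exact g e he
    · intro g e he
      rw [h _ (h2 e he).1, h _ (h2 e he).2.1]
      exact g e he
  by_cases hp : ∀ e ∈ W.2.1, c e.1 ≠ c e.2
  · rw [if_pos hp, if_pos (e1.1 hp)]
    congr 1
    refine List.map_congr_left fun s hs => ?_
    rw [h _ (h3 s hs).1, h _ (h3 s hs).2.1]
  · rw [if_neg hp, if_neg (fun g => hp (e1.2 g))]

theorem le_Zw {W : WG} (hW : IsWG W) (c : ℕ → Fin 4) : wcol W c ≤ Zw W := by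
  unfold Zw
  rw [wcol_congr hW (c' := ext W.1 (fun w : {v // v ∈ W.1} => c w.1))
    (fun v hv => (ext_eq W.1 c hv).symm)]
  exact Finset.single_le_sum (f := fun c : {v // v ∈ W.1} → Fin 4 => wcol W (ext W.1 c))
    (fun _ _ => Nat.zero_le _) (Finset.mem_univ _)

end U3iaux

open U3iaux in
theorem U3i_ok : S_U3i := by
  intro h1a h4 B t hB
  obtain ⟨c, hc, -⟩ := h1a B t hB ∅ (by simp)
  refine lt_of_lt_of_le ?_ (le_Zw (h4 B t hB) c)
  unfold wcol
  rw [if_pos hc]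
  refine List.prod_pos ?_
  intro x hx
  rw [List.mem_map] at hx
  obtain ⟨s, -, rfl⟩ := hx
  split_ifs <;> positivity

end Pool.Agent.H49R2.PC
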