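import Pool.Agent.H49R2.PC.Stubs

namespace Pool.Agent.H49R2.PC

open Pool.Agent.NPC Pool.Agent.NPC.Cnt Finset

namespace U4aux

theorem vl_inj {x y τ x' y' τ' : ℕ} : vl x y τ = vl x' y' τ' ↔ x = x' ∧ y = y' ∧ τ = τ' := by
  unfold vl
  rw [Nat.pair_eq_pair, Nat.pair_eq_pair, and_assoc]

theorem aL_type (s : Pt) (k : ℕ) : ∃ x y τ, aL s k = vl x y τ ∧ 1 ≤ τ ∧ τ ≤ 6 := by
  unfold aL
  split_ifs
  · exact ⟨_, _, 1, rfl, by norm_num, by norm_num⟩
  · exact ⟨_, _, 4, rfl, by norm_num, by norm_num⟩
  · exact ⟨_, _, 2, rfl, by norm_num, by norm_num⟩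
  · exact ⟨_, _, 3, rfl, by norm_num, by norm_num⟩
  · exact ⟨_, _, 5, rfl, by norm_num, by norm_num⟩
  · exact ⟨_, _, 1, rfl, by norm_num, by norm_num⟩
  · exact ⟨_, _, 2, rfl, by norm_num, by norm_num⟩
  · exact ⟨_, _, 6, rfl, by norm_num, by norm_num⟩
  · exact ⟨_, _, 3, rfl, by norm_num, by norm_num⟩

theorem aL_ne_pL (s s' : Pt) (k k' : ℕ) : aL s k ≠ pL s' k' := by
  intro h
  obtain ⟨x, y, τ, h1, h2, h3⟩ := aL_type s k
  rw [h1] at h
  unfold pL at h
  rw [vl_inj] at h
  omega

theorem cL_ne_aL (s s' : Pt) (k : ℕ) : cL s ≠ aL s' k := by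
  intro h
  obtain ⟨x, y, τ, h1, h2, h3⟩ := aL_type s' k
  rw [h1] at h
  unfold cL at h
  rw [vl_inj] at h
  omega

theorem cL_ne_pL (s s' : Pt) (k : ℕ) : cL s ≠ pL s' k := by
  intro h
  unfold cL pL at h
  rw [vl_inj] at h
  omega

theorem cL_inj {s s' : Pt} (h : cL s = cL s') : s = s' := by
  unfold cL at h
  rw [vl_inj] at h
  exact Prod.ext h.1 h.2.1

theorem pL_inj {s : Pt} {k k' : ℕ} (h : pL s k = pL s k') : k = k' := by
  unfold pL at h
  rw [vl_inj] at h
  omega

theorem aL_inj {s : Pt} (h1 : 1 ≤ s.1) (h2 : 1 ≤ s.2) {k k' : ℕ} (hk : k < 9) (hk' : k' < 9)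
    (h : aL s k = aL s k') : k = k' := by
  interval_cases k <;> interval_cases k' <;> first
    | rfl
    | (exfalso
       simp only [aL] at h
       norm_num [vl_inj] at h
       try omega)

theorem site_pos {B : List (List Pt)} (hB : GoodB B) {s : Pt} (hs : s ∈ latS B) :
    1 ≤ s.1 ∧ 1 ≤ s.2 := by
  unfold latS at hs
  rw [List.mem_dedup, List.mem_flatten] at hs
  obtain ⟨b, hb, hsb⟩ := hs
  exact (hB b hb).2.2.1 s hsb

theorem cL_mem {B : List (List Pt)} {s : Pt} (hs : s ∈ latS B) :
    cL s ∈ ((latS B).flatMap vertsOf).dedup := by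
  rw [List.mem_dedup, List.mem_flatMap]
  exact ⟨s, hs, by unfold vertsOf; exact List.mem_cons_self⟩

theorem aL_mem {B : List (List Pt)} {s : Pt} (hs : s ∈ latS B) {k : ℕ} (hk : k < 9) :
    aL s k ∈ ((latS B).flatMap vertsOf).dedup := by
  rw [List.mem_dedup, List.mem_flatMap]
  refine ⟨s, hs, ?_⟩
  unfold vertsOf
  rw [List.mem_cons, List.mem_append]
  right; left
  rw [List.mem_map]
  exact ⟨k, List.mem_range.2 hk, rfl⟩

theorem pL_mem {B : List (List Pt)} {s : Pt} (hs : s ∈ latS B) {k : ℕ} (hk : k < 9) :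
    pL s k ∈ ((latS B).flatMap vertsOf).dedup := by
  rw [List.mem_dedup, List.mem_flatMap]
  refine ⟨s, hs, ?_⟩
  unfold vertsOf
  rw [List.mem_cons, List.mem_append]
  right; right
  rw [List.mem_map]
  exact ⟨k, List.mem_range.2 hk, rfl⟩

end U4aux

open U4aux

theorem U4_ok : S_U4 := by
  intro B t hB
  refine ⟨List.nodup_dedup _, ?_, ?_, ?_⟩
  · intro e he
    change e ∈ (latS B).flatMap rimOf ++ (latS B).flatMap (chordOf (latS B)) at he
    show e.1 ∈ ((latS B).flatMap vertsOf).dedup ∧ e.2 ∈ ((latS B).flatMap vertsOf).dedup ∧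
      e.1 ≠ e.2
    rw [List.mem_append] at he
    rcases he with he | he
    · rw [List.mem_flatMap] at he
      obtain ⟨s, hs, he⟩ := he
      unfold rimOf at he
      rw [List.mem_flatMap] at he
      obtain ⟨k, hk, he⟩ := he
      rw [List.mem_range] at hk
      rw [List.mem_cons, List.mem_singleton] at he
      rcases he with rfl | rfl
      · exact ⟨aL_mem hs hk, pL_mem hs hk, aL_ne_pL _ _ _ _⟩
      · exact ⟨pL_mem hs hk, aL_mem hs (Nat.mod_lt _ (by norm_num)), (aL_ne_pL _ _ _ _).symm⟩
    · rw [List.mem_flatMap] at he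
      obtain ⟨s, hs, he⟩ := he
      unfold chordOf at he
      rw [List.mem_append, List.mem_append] at he
      rcases he with (he | he) | he
      · split_ifs at he with h1
        · rw [List.mem_singleton] at he
          subst he
          refine ⟨aL_mem hs (k := 1) (by norm_num), aL_mem h1 (k := 4) (by norm_num), ?_⟩
          intro h
          simp only [aL] at h
          norm_num [vl_inj] at h
        · exact absurd he List.not_mem_nil
      · split_ifs at he with h1
        · rw [List.mem_singleton] at he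
          subst he
          refine ⟨aL_mem hs (k := 1) (by norm_num), aL_mem h1 (k := 7) (by norm_num), ?_⟩
          intro h
          simp only [aL] at h
          norm_num [vl_inj] at h
        · exact absurd he List.not_mem_nil
      · split_ifs at he with h1
        · rw [List.mem_singleton] at he
          subst he
          refine ⟨aL_mem hs (k := 4) (by norm_num), aL_mem h1 (k := 7) (by norm_num), ?_⟩
          intro h
          simp only [aL] at h
          norm_num [vl_inj] at h
        · exact absurd he List.not_mem_nil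
  · intro e he
    change e ∈ (latS B).flatMap (spokesOf B t) at he
    show e.1.1 ∈ ((latS B).flatMap vertsOf).dedup ∧ e.1.2 ∈ ((latS B).flatMap vertsOf).dedup ∧
      e.1.1 ≠ e.1.2
    rw [List.mem_flatMap] at he
    obtain ⟨s, hs, he⟩ := he
    unfold spokesOf at he
    rw [List.mem_flatMap] at he
    obtain ⟨k, hk, he⟩ := he
    rw [List.mem_range] at hk
    rw [List.mem_cons, List.mem_singleton] at he
    rcases he with rfl | rfl
    · exact ⟨cL_mem hs, aL_mem hs hk, cL_ne_aL _ _ _⟩
    · exact ⟨cL_mem hs, pL_mem hs hk, cL_ne_pL _ _ _⟩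
  · show (((latS B).flatMap (spokesOf B t)).map Prod.fst).Nodup
    have e1 : ((latS B).flatMap (spokesOf B t)).map Prod.fst =
        (latS B).flatMap (fun s => (List.range 9).flatMap (fun k =>
          [(cL s, aL s k), (cL s, pL s k)])) := by
      rw [List.map_flatMap]
      rfl
    rw [e1, List.nodup_flatMap]
    constructor
    · intro s hs
      obtain ⟨p1, p2⟩ := site_pos hB hs
      rw [List.nodup_flatMap]
      constructor
      · intro k _
        rw [List.nodup_cons]
        refine ⟨?_, List.nodup_singleton _⟩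
        rw [List.mem_singleton]
        intro h
        exact aL_ne_pL _ _ _ _ (Prod.ext_iff.1 h).2
      · have hnd : (List.range 9).Nodup := List.nodup_range
        rw [List.Nodup] at hnd
        have hnd' := List.Pairwise.and_mem.1 hnd
        refine hnd'.imp ?_
        rintro k k' ⟨hk, hk', hne⟩
        rw [List.mem_range] at hk hk'
        show List.Disjoint _ _
        intro z hz hz'
        rw [List.mem_cons, List.mem_singleton] at hz hz'
        rcases hz with rfl | rfl <;> rcases hz' with h | h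
        · exact hne (aL_inj p1 p2 hk hk' (Prod.ext_iff.1 h).2)
        · exact aL_ne_pL _ _ _ _ (Prod.ext_iff.1 h).2
        · exact aL_ne_pL _ _ _ _ (Prod.ext_iff.1 h).2.symm
        · exact hne (pL_inj (Prod.ext_iff.1 h).2)
    · have hnd : (latS B).Nodup := List.nodup_dedup _
      rw [List.Nodup] at hnd
      refine hnd.imp ?_
      intro s s' hne
      show List.Disjoint _ _
      intro z hz hz'
      rw [List.mem_flatMap] at hz hz'
      obtain ⟨k, _, hz⟩ := hz
      obtain ⟨k', _, hz'⟩ := hz'
      rw [List.mem_cons, List.mem_singleton] at hz hz'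
      have h1 : z.1 = cL s := by rcases hz with rfl | rfl <;> rfl
      have h2 : z.1 = cL s' := by rcases hz' with rfl | rfl <;> rfl
      exact hne (cL_inj (h1.symm.trans h2))

end Pool.Agent.H49R2.PC
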