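import Pool.Agent.H49R2.PC.Stubs

/-!
# Task U5a: the test `okT` implies that two segments have only common ends in common
-/

namespace Pool.Agent.H49R2.PC

namespace U5aaux

theorem seg_coords {A B : ℤ × ℤ} {p : ℝ × ℝ} (h : p ∈ segment ℝ (toR A) (toR B)) :
    ∃ s : ℝ, 0 ≤ s ∧ s ≤ 1 ∧ p.1 = (1 - s) * A.1 + s * B.1 ∧ p.2 = (1 - s) * A.2 + s * B.2 := by
  obtain ⟨a, b, ha, hb, hab, rfl⟩ := h
  refine ⟨b, hb, by linarith, ?_, ?_⟩
  · have : a = 1 - b := by linarith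
    simp [toR, this]
  · have : a = 1 - b := by linarith
    simp [toR, this]

theorem cross_cast (A B C : ℤ × ℤ) : (crossZ A B C : ℝ) =
    ((B.1 : ℝ) - A.1) * ((C.2 : ℝ) - A.2) - ((B.2 : ℝ) - A.2) * ((C.1 : ℝ) - A.1) := by
  simp [crossZ]

theorem sep1_disj {A B C D : ℤ × ℤ} (h : sep1 A B C D = true) {p : ℝ × ℝ}
    (h1 : p ∈ segment ℝ (toR A) (toR B)) (h2 : p ∈ segment ℝ (toR C) (toR D)) : False := by
  obtain ⟨s, s0, s1, e1, e2⟩ := seg_coords h1
  obtain ⟨r, r0, r1, f1, f2⟩ := seg_coords h2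
  have key : (1 - r) * (crossZ A B C : ℝ) + r * (crossZ A B D : ℝ) = 0 := by
    rw [cross_cast, cross_cast]
    have g1 : (1 - s) * (A.1 : ℝ) + s * B.1 = (1 - r) * C.1 + r * D.1 := by rw [← e1, ← f1]
    have g2 : (1 - s) * (A.2 : ℝ) + s * B.2 = (1 - r) * C.2 + r * D.2 := by rw [← e2, ← f2]
    linear_combination ((B.2 : ℝ) - A.2) * g1 - ((B.1 : ℝ) - A.1) * g2
  simp only [sep1, decide_eq_true_eq] at h
  rcases h with ⟨hC, hD⟩ | ⟨hC, hD⟩
  · have hC' : (0 : ℝ) < crossZ A B C := by exact_mod_cast hC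
    have hD' : (0 : ℝ) < crossZ A B D := by exact_mod_cast hD
    rcases r0.eq_or_lt with h | h
    · rw [← h] at key
      linarith
    · have : 0 < r * (crossZ A B D : ℝ) := mul_pos h hD'
      have : 0 ≤ (1 - r) * (crossZ A B C : ℝ) := mul_nonneg (by linarith) hC'.le
      linarith
  · have hC' : (crossZ A B C : ℝ) < 0 := by exact_mod_cast hC
    have hD' : (crossZ A B D : ℝ) < 0 := by exact_mod_cast hD
    rcases r0.eq_or_lt with h | h
    · rw [← h] at key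
      linarith
    · have : r * (crossZ A B D : ℝ) < 0 := mul_neg_of_pos_of_neg h hD'
      have : (1 - r) * (crossZ A B C : ℝ) ≤ 0 :=
        mul_nonpos_of_nonneg_of_nonpos (by linarith) hC'.le
      linarith

theorem coord_disj {a b c d : ℤ} (h : max a b < min c d) {s r x : ℝ} (s0 : 0 ≤ s) (s1 : s ≤ 1)
    (r0 : 0 ≤ r) (r1 : r ≤ 1) (e : x = (1 - s) * a + s * b) (f : x = (1 - r) * c + r * d) :
    False := by
  have h1 : ((a : ℝ) < c) ∧ ((a : ℝ) < d) ∧ ((b : ℝ) < c) ∧ ((b : ℝ) < d) := by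
    rw [max_lt_iff, lt_min_iff, lt_min_iff] at h
    exact ⟨by exact_mod_cast h.1.1, by exact_mod_cast h.1.2, by exact_mod_cast h.2.1,
      by exact_mod_cast h.2.2⟩
  obtain ⟨m, hm⟩ : ∃ m : ℝ, m = max (a : ℝ) b := ⟨_, rfl⟩
  have ha : (a : ℝ) ≤ m := by rw [hm]; exact le_max_left _ _
  have hb : (b : ℝ) ≤ m := by rw [hm]; exact le_max_right _ _
  have hmc : m < c := by rw [hm]; exact max_lt h1.1 h1.2.2.1
  have hmd : m < d := by rw [hm]; exact max_lt h1.2.1 h1.2.2.2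
  have hx : x ≤ m := by
    rw [e]
    nlinarith
  have hx2 : m < x := by
    rw [f]
    rcases r0.eq_or_lt with h | h
    · rw [← h]; linarith
    · have g1 : r * m < r * d := mul_lt_mul_of_pos_left hmd h
      have g2 : (1 - r) * m ≤ (1 - r) * c := mul_le_mul_of_nonneg_left hmc.le (by linarith)
      linarith
  linarith

theorem sepT_disj {A B C D : ℤ × ℤ} (h : sepT A B C D = true) {p : ℝ × ℝ}
    (h1 : p ∈ segment ℝ (toR A) (toR B)) (h2 : p ∈ segment ℝ (toR C) (toR D)) : False := by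
  obtain ⟨s, s0, s1, e1, e2⟩ := seg_coords h1
  obtain ⟨r, r0, r1, f1, f2⟩ := seg_coords h2
  simp only [sepT, Bool.or_eq_true, decide_eq_true_eq] at h
  rcases h with ((((h | h) | h) | h) | h) | h
  · exact sep1_disj h h1 h2
  · exact sep1_disj h h2 h1
  · exact coord_disj h s0 s1 r0 r1 e1 f1
  · exact coord_disj h r0 r1 s0 s1 f1 e1
  · exact coord_disj h s0 s1 r0 r1 e2 f2
  · exact coord_disj h r0 r1 s0 s1 f2 e2

theorem share_eq {A B D : ℤ × ℤ} (h : shareT A B D = true) {p : ℝ × ℝ}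
    (h1 : p ∈ segment ℝ (toR A) (toR B)) (h2 : p ∈ segment ℝ (toR A) (toR D)) : p = toR A := by
  obtain ⟨s, s0, s1, e1, e2⟩ := seg_coords h1
  obtain ⟨r, r0, r1, f1, f2⟩ := seg_coords h2
  have g1 : (1 - s) * (A.1 : ℝ) + s * B.1 = (1 - r) * A.1 + r * D.1 := by rw [← e1, ← f1]
  have g2 : (1 - s) * (A.2 : ℝ) + s * B.2 = (1 - r) * A.2 + r * D.2 := by rw [← e2, ← f2]
  have hs : s = 0 ∨ r = 0 := by
    simp only [shareT, decide_eq_true_eq] at h
    rcases h with h | h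
    · right
      have h' : (crossZ A B D : ℝ) ≠ 0 := by exact_mod_cast h
      have : r * (crossZ A B D : ℝ) = 0 := by
        rw [cross_cast]
        linear_combination ((B.2 : ℝ) - A.2) * g1 - ((B.1 : ℝ) - A.1) * g2
      exact (mul_eq_zero.1 this).resolve_right h'
    · left
      have h' : ((B.1 : ℝ) - A.1) * (D.1 - A.1) + ((B.2 : ℝ) - A.2) * (D.2 - A.2) < 0 := by
        exact_mod_cast h
      have k1 : s * (((B.1 : ℝ) - A.1) ^ 2 + ((B.2 : ℝ) - A.2) ^ 2) =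
          r * (((B.1 : ℝ) - A.1) * (D.1 - A.1) + ((B.2 : ℝ) - A.2) * (D.2 - A.2)) := by
        linear_combination ((B.1 : ℝ) - A.1) * g1 + ((B.2 : ℝ) - A.2) * g2
      have k2 : r * (((B.1 : ℝ) - A.1) * (D.1 - A.1) + ((B.2 : ℝ) - A.2) * (D.2 - A.2)) ≤ 0 :=
        mul_nonpos_of_nonneg_of_nonpos r0 h'.le
      have k3 : 0 < ((B.1 : ℝ) - A.1) ^ 2 + ((B.2 : ℝ) - A.2) ^ 2 := by
        by_contra hn
        have z1 : ((B.1 : ℝ) - A.1) = 0 := by
          nlinarith [sq_nonneg ((B.1 : ℝ) - A.1), sq_nonneg ((B.2 : ℝ) - A.2)]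
        have z2 : ((B.2 : ℝ) - A.2) = 0 := by
          nlinarith [sq_nonneg ((B.1 : ℝ) - A.1), sq_nonneg ((B.2 : ℝ) - A.2)]
        rw [z1, z2] at h'
        simp at h'
      by_contra hne
      have : 0 < s := lt_of_le_of_ne s0 (Ne.symm hne)
      have := mul_pos this k3
      linarith
  apply Prod.ext
  · show p.1 = (A.1 : ℝ)
    rcases hs with h | h
    · rw [e1, h]; ring
    · rw [f1, h]; ring
  · show p.2 = (A.2 : ℝ)
    rcases hs with h | h
    · rw [e2, h]; ring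
    · rw [f2, h]; ring

end U5aaux

open U5aaux in
/-- Task U5a. -/
theorem U5a_ok : S_U5a := by
  intro A B C D h p h1 h2
  simp only [okT, Bool.or_eq_true, Bool.and_eq_true, decide_eq_true_eq] at h
  rcases h with (((((h | h) | h) | h) | h) | h) | h
  · exact Or.inl (Or.inl h)
  · exact Or.inl (Or.inr h)
  · exact (sepT_disj h h1 h2).elim
  · obtain ⟨rfl, h⟩ := h
    exact Or.inr ⟨A, share_eq h h1 h2, Or.inl rfl, Or.inl rfl⟩
  · obtain ⟨rfl, h⟩ := h
    rw [segment_symm] at h2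
    exact Or.inr ⟨A, share_eq h h1 h2, Or.inl rfl, Or.inr rfl⟩
  · obtain ⟨rfl, h⟩ := h
    rw [segment_symm] at h1
    exact Or.inr ⟨B, share_eq h h1 h2, Or.inr rfl, Or.inl rfl⟩
  · obtain ⟨rfl, h⟩ := h
    rw [segment_symm] at h1 h2
    exact Or.inr ⟨B, share_eq h h1 h2, Or.inr rfl, Or.inr rfl⟩

end Pool.Agent.H49R2.PC
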