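import Pool.Agent.H49R2.PC.Stubs

/-!
# The plane drawing
-/

namespace Pool.Agent.H49R2.PC

open Pool.Agent.NPC Pool.Agent.NPC.Cnt Finset

namespace U5iaux

theorem ty_vl (x y τ : ℕ) : (vl x y τ).unpair.2 = τ := by
  unfold vl
  rw [Nat.unpair_pair]

theorem ty_c (s : Pt) : (cL s).unpair.2 ≤ 15 := by
  unfold cL
  rw [ty_vl]
  omega

theorem ty_a (s : Pt) (k : ℕ) : (aL s k).unpair.2 ≤ 15 := by
  unfold aL
  split_ifs <;> rw [ty_vl] <;> omega

theorem ty_p (s : Pt) {k : ℕ} (hk : k < 9) : (pL s k).unpair.2 ≤ 15 := by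
  unfold pL
  rw [ty_vl]
  omega

theorem ty_vert (s : Pt) (v : ℕ) (hv : v ∈ vertsOf s) : v.unpair.2 ≤ 15 := by
  unfold vertsOf at hv
  rw [List.mem_cons, List.mem_append, List.mem_map, List.mem_map] at hv
  rcases hv with rfl | ⟨k, hk, rfl⟩ | ⟨k, hk, rfl⟩
  · exact ty_c s
  · exact ty_a s k
  · exact ty_p s (List.mem_range.1 hk)

theorem ty_edge (s : Pt) (e : ℕ × ℕ) (he : e ∈ edgesOf s) :
    e.1.unpair.2 ≤ 15 ∧ e.2.unpair.2 ≤ 15 := by
  unfold edgesOf at he
  rw [List.mem_append, List.mem_append] at he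
  rcases he with (he | he) | he
  · unfold rimOf at he
    rw [List.mem_flatMap] at he
    obtain ⟨k, hk, he⟩ := he
    have hk' := List.mem_range.1 hk
    simp only [List.mem_cons, List.not_mem_nil, or_false] at he
    rcases he with rfl | rfl
    · exact ⟨ty_a s k, ty_p s hk'⟩
    · exact ⟨ty_p s hk', ty_a s ((k + 1) % 9)⟩
  · simp only [List.mem_cons, List.not_mem_nil, or_false] at he
    rcases he with rfl | rfl | rfl
    · exact ⟨ty_a s 1, ty_a (s.1 + 1, s.2) 4⟩
    · exact ⟨ty_a s 1, ty_a (s.1, s.2 + 1) 7⟩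
    · exact ⟨ty_a s 4, ty_a (s.1 - 1, s.2 + 1) 7⟩
  · rw [List.mem_flatMap] at he
    obtain ⟨k, hk, he⟩ := he
    have hk' := List.mem_range.1 hk
    simp only [List.mem_cons, List.not_mem_nil, or_false] at he
    rcases he with rfl | rfl
    · exact ⟨ty_c s, ty_a s k⟩
    · exact ⟨ty_c s, ty_p s hk'⟩

theorem off_inj : ∀ a : Fin 16, ∀ b : Fin 16,
    (60 : ℤ) ∣ (offL.getD a.1 (0, 0)).1 - (offL.getD b.1 (0, 0)).1 →
    (60 : ℤ) ∣ (offL.getD a.1 (0, 0)).2 - (offL.getD b.1 (0, 0)).2 → a = b := by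
  decide

theorem zpos_inj (u v : ℕ) (hu : u.unpair.2 ≤ 15) (hv : v.unpair.2 ≤ 15)
    (h : zpos u = zpos v) : u = v := by
  unfold zpos at h
  rw [Prod.mk.injEq] at h
  obtain ⟨h1, h2⟩ := h
  have ht : (⟨u.unpair.2, by omega⟩ : Fin 16) = ⟨v.unpair.2, by omega⟩ := by
    apply off_inj
    · exact ⟨(v.unpair.1.unpair.1 : ℤ) - u.unpair.1.unpair.1, by
        show (offL.getD u.unpair.2 (0, 0)).1 - (offL.getD v.unpair.2 (0, 0)).1 = _
        linarith⟩
    · exact ⟨(v.unpair.1.unpair.2 : ℤ) - u.unpair.1.unpair.2, by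
        show (offL.getD u.unpair.2 (0, 0)).2 - (offL.getD v.unpair.2 (0, 0)).2 = _
        linarith⟩
  have ht' : u.unpair.2 = v.unpair.2 := congrArg Fin.val ht
  rw [ht'] at h1 h2
  have e1 : u.unpair.1.unpair.1 = v.unpair.1.unpair.1 := by omega
  have e2 : u.unpair.1.unpair.2 = v.unpair.1.unpair.2 := by omega
  have e3 : u.unpair.1 = v.unpair.1 := by
    rw [← Nat.pair_unpair u.unpair.1, ← Nat.pair_unpair v.unpair.1, e1, e2]
  rw [← Nat.pair_unpair u, ← Nat.pair_unpair v, e3, ht']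

theorem toR_inj (A B : ℤ × ℤ) (h : toR A = toR B) : A = B := by
  unfold toR at h
  rw [Prod.mk.injEq] at h
  obtain ⟨h1, h2⟩ := h
  exact Prod.ext (by exact_mod_cast h1) (by exact_mod_cast h2)

/-- every edge is an edge of a wheel -/
theorem edge_mem (B : List (List Pt)) (t : ℕ) (e : ℕ × ℕ)
    (he : e ∈ (latW B t).2.1 ++ (latW B t).2.2.map Prod.fst) :
    ∃ s ∈ latS B, e ∈ edgesOf s := by
  rw [List.mem_append] at he
  rcases he with he | he
  · unfold latW at he
    dsimp only at he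
    rw [List.mem_append, List.mem_flatMap, List.mem_flatMap] at he
    rcases he with ⟨s, hs, he⟩ | ⟨s, hs, he⟩
    · refine ⟨s, hs, ?_⟩
      unfold edgesOf
      rw [List.mem_append, List.mem_append]
      exact Or.inl (Or.inl he)
    · refine ⟨s, hs, ?_⟩
      unfold edgesOf
      rw [List.mem_append, List.mem_append]
      refine Or.inl (Or.inr ?_)
      unfold chordOf at he
      rw [List.mem_append, List.mem_append] at he
      rcases he with (he | he) | he
      · split_ifs at he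
        · simp only [List.mem_cons, List.not_mem_nil, or_false] at he
          simp [he]
        · simp at he
      · split_ifs at he
        · simp only [List.mem_cons, List.not_mem_nil, or_false] at he
          simp [he]
        · simp at he
      · split_ifs at he
        · simp only [List.mem_cons, List.not_mem_nil, or_false] at he
          simp [he]
        · simp at he
  · unfold latW at he
    dsimp only at he
    rw [List.mem_map] at he
    obtain ⟨f, hf, rfl⟩ := he
    rw [List.mem_flatMap] at hf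
    obtain ⟨s, hs, hf⟩ := hf
    refine ⟨s, hs, ?_⟩
    unfold edgesOf
    rw [List.mem_append]
    refine Or.inr ?_
    unfold spokesOf at hf
    rw [List.mem_flatMap] at hf
    obtain ⟨k, hk, hf⟩ := hf
    rw [List.mem_flatMap]
    refine ⟨k, hk, ?_⟩
    simp only [List.mem_cons, List.not_mem_nil, or_false] at hf
    rcases hf with rfl | rfl <;> simp

/-- every vertex is an end of a spoke -/
theorem vert_end (B : List (List Pt)) (t : ℕ) (v : ℕ) (hv : v ∈ (latW B t).1) :
    v.unpair.2 ≤ 15 ∧ ∃ f ∈ (latW B t).2.1 ++ (latW B t).2.2.map Prod.fst, v = f.1 ∨ v = f.2 := by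
  unfold latW at hv
  dsimp only at hv
  rw [List.mem_dedup, List.mem_flatMap] at hv
  obtain ⟨s, hs, hv⟩ := hv
  refine ⟨ty_vert s v hv, ?_⟩
  have key1 : ∀ k < 9, (cL s, aL s k) ∈ (latW B t).2.1 ++ (latW B t).2.2.map Prod.fst := by
    intro k hk
    rw [List.mem_append]
    right
    unfold latW
    dsimp only
    rw [List.mem_map]
    refine ⟨((cL s, aL s k), 10 * dl B s * t), ?_, rfl⟩
    rw [List.mem_flatMap]
    refine ⟨s, hs, ?_⟩
    unfold spokesOf
    rw [List.mem_flatMap]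
    exact ⟨k, List.mem_range.2 hk, by simp⟩
  have key2 : ∀ k < 9, (cL s, pL s k) ∈ (latW B t).2.1 ++ (latW B t).2.2.map Prod.fst := by
    intro k hk
    rw [List.mem_append]
    right
    unfold latW
    dsimp only
    rw [List.mem_map]
    refine ⟨((cL s, pL s k), 9 * dl B s * t), ?_, rfl⟩
    rw [List.mem_flatMap]
    refine ⟨s, hs, ?_⟩
    unfold spokesOf
    rw [List.mem_flatMap]
    exact ⟨k, List.mem_range.2 hk, by simp⟩
  unfold vertsOf at hv
  rw [List.mem_cons, List.mem_append, List.mem_map, List.mem_map] at hv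
  rcases hv with rfl | ⟨k, hk, rfl⟩ | ⟨k, hk, rfl⟩
  · exact ⟨_, key1 0 (by norm_num), Or.inl rfl⟩
  · exact ⟨_, key1 k (List.mem_range.1 hk), Or.inr rfl⟩
  · exact ⟨_, key2 k (List.mem_range.1 hk), Or.inr rfl⟩

theorem site_pos (B : List (List Pt)) (hB : GoodB B) (s : Pt) (hs : s ∈ latS B) :
    1 ≤ s.1 ∧ 1 ≤ s.2 := by
  unfold latS at hs
  rw [List.mem_dedup, List.mem_flatten] at hs
  obtain ⟨b, hb, hsb⟩ := hs
  exact (hB b hb).2.2.1 s hsb

end U5iaux

open U5iaux in
theorem U5i_ok : S_U5i := by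
  intro hA hBf B t hB
  refine ⟨fun v => toR (zpos v), ?_⟩
  have hthird : ∀ e ∈ (latW B t).2.1 ++ (latW B t).2.2.map Prod.fst,
      ∀ f ∈ (latW B t).2.1 ++ (latW B t).2.2.map Prod.fst, ∀ p : ℝ × ℝ,
      p ∈ segment ℝ (toR (zpos e.1)) (toR (zpos e.2)) →
      p ∈ segment ℝ (toR (zpos f.1)) (toR (zpos f.2)) →
      (f = e ∨ f = (e.2, e.1)) ∨
        ∃ w, p = toR (zpos w) ∧ (w = e.1 ∨ w = e.2) ∧ (w = f.1 ∨ w = f.2) := by
    intro e he f hf p hpe hpf
    obtain ⟨s, hs, hes⟩ := edge_mem B t e he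
    obtain ⟨s', hs', hfs⟩ := edge_mem B t f hf
    obtain ⟨p1, p2⟩ := site_pos B hB s hs
    obtain ⟨p3, p4⟩ := site_pos B hB s' hs'
    obtain ⟨te1, te2⟩ := ty_edge s e hes
    obtain ⟨tf1, tf2⟩ := ty_edge s' f hfs
    have hok := hBf s s' p1 p2 p3 p4 e hes f hfs
    rcases hA _ _ _ _ hok p hpe hpf with (⟨h1, h2⟩ | ⟨h1, h2⟩) | ⟨w, hw, hw1, hw2⟩
    · left
      left
      exact Prod.ext (zpos_inj _ _ te1 tf1 h1).symm (zpos_inj _ _ te2 tf2 h2).symm
    · left
      right
      exact Prod.ext (zpos_inj _ _ te2 tf1 h2).symm (zpos_inj _ _ te1 tf2 h1).symm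
    · right
      rcases hw1 with rfl | rfl
      · refine ⟨e.1, hw, Or.inl rfl, ?_⟩
        rcases hw2 with h | h
        · exact Or.inl (zpos_inj _ _ te1 tf1 h)
        · exact Or.inr (zpos_inj _ _ te1 tf2 h)
      · refine ⟨e.2, hw, Or.inr rfl, ?_⟩
        rcases hw2 with h | h
        · exact Or.inl (zpos_inj _ _ te2 tf1 h)
        · exact Or.inr (zpos_inj _ _ te2 tf2 h)
  refine ⟨?_, ?_, hthird⟩
  · intro u hu v hv h
    exact zpos_inj _ _ (vert_end B t u hu).1 (vert_end B t v hv).1 (toR_inj _ _ h)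
  · intro e he w hw hwe
    obtain ⟨tw, f, hf, hwf⟩ := vert_end B t w hw
    have hwf' : toR (zpos w) ∈ segment ℝ (toR (zpos f.1)) (toR (zpos f.2)) := by
      rcases hwf with h | h
      · rw [h]
        exact left_mem_segment _ _ _
      · rw [h]
        exact right_mem_segment _ _ _
    rcases hthird e he f hf _ hwe hwf' with (h | h) | ⟨w', h1, h2, _⟩
    · rw [h] at hwf
      exact hwf
    · rw [h] at hwf
      exact hwf.symm
    · obtain ⟨s, hs, hes⟩ := edge_mem B t e he
      obtain ⟨te1, te2⟩ := ty_edge s e hes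
      have tw' : w'.unpair.2 ≤ 15 := by
        rcases h2 with rfl | rfl
        · exact te1
        · exact te2
      have := zpos_inj _ _ tw tw' (toR_inj _ _ h1)
      rw [this]
      exact h2

end Pool.Agent.H49R2.PC
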