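import Pool.Agent.H49R2.PC.Stubs
import Pool.Agent.H49R2.PY.Y1

/-!
# Task V1: polynomial time of `blocksOf`
-/

set_option autoImplicit false

namespace Pool.Agent.H49R2.PC

open Pool.Agent.NPC Pool.Agent.NPC.Cnt Finset

namespace V1aux

variable {α : Type} [TEnc α]

theorem poly_posn {n m i j : α → ℕ} {p : α → Pt} (hn : NPC.Poly n) (hm : NPC.Poly m)
    (hi : NPC.Poly i) (hj : NPC.Poly j) (hp : NPC.Poly p) :
    NPC.Poly (fun x => posn (n x) (m x) (i x) (j x) (p x)) := by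
  unfold posn
  have h15 : NPC.Poly (fun _ : α => 15) := NPC.Poly.const _
  have h18 : NPC.Poly (fun _ : α => 18) := NPC.Poly.const _
  have h2 : NPC.Poly (fun _ : α => 2) := NPC.Poly.const _
  have h4 : NPC.Poly (fun _ : α => 4) := NPC.Poly.const _
  have h1 : NPC.Poly (fun _ : α => 1) := NPC.Poly.const _
  exact NPC.Poly.pair
    (NPC.Poly.add (NPC.Poly.add (NPC.Poly.add (NPC.Poly.mul h15 hj)
      (NPC.Poly.mul h2 (NPC.Poly.sub hn hi))) h1) (NPC.Poly.fst hp))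
    (NPC.Poly.add (NPC.Poly.add (NPC.Poly.add (NPC.Poly.mul h18 hi)
      (NPC.Poly.mul h4 (NPC.Poly.sub hm hj))) h1) (NPC.Poly.snd hp))

theorem poly_cellB {a b : α → Bool} (ha : NPC.Poly a) (hb : NPC.Poly b) :
    NPC.Poly (fun x => cellB (a x) (b x)) := by
  unfold cellB
  refine NPC.Poly.append (NPC.Poly.const cellA) ?_
  refine NPC.Poly.cons ?_ (NPC.Poly.cons ?_ (NPC.Poly.const []))
  · exact NPC.Poly.append (NPC.Poly.const _) (NPC.Poly.ite (NPC.Poly.decide_bool ha)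
      (NPC.Poly.const _) (NPC.Poly.const _))
  · exact NPC.Poly.append (NPC.Poly.const _) (NPC.Poly.ite (NPC.Poly.decide_bool hb)
      (NPC.Poly.const _) (NPC.Poly.const _))

theorem poly_cellBlocks {n m i j : α → ℕ} {a b : α → Bool} (hn : NPC.Poly n) (hm : NPC.Poly m)
    (hi : NPC.Poly i) (hj : NPC.Poly j) (ha : NPC.Poly a) (hb : NPC.Poly b) :
    NPC.Poly (fun x => cellBlocks (n x) (m x) (i x) (j x) (a x) (b x)) := by
  have h0 : NPC.Poly (fun _ : α => 0) := NPC.Poly.const _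
  have h1 : NPC.Poly (fun _ : α => 1) := NPC.Poly.const _
  have hN : NPC.Poly (fun _ : α => ([] : List (List Pt))) := NPC.Poly.const _
  have hi1 := NPC.Poly.add hi h1
  have hj1 := NPC.Poly.add hj h1
  unfold cellBlocks
  refine NPC.Poly.append ?_ (NPC.Poly.append ?_ ?_)
  · refine NPC.Poly.map (F := fun x (l : List Pt) => l.map (posn (n x) (m x) (i x) (j x))) ?_ ?_
    · refine NPC.Poly.append (NPC.Poly.append (poly_cellB ha hb) ?_) ?_
      · exact NPC.Poly.ite (NPC.Poly.decide_eq hi h0) (NPC.Poly.const _) hN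
      · exact NPC.Poly.ite (NPC.Poly.decide_eq hi1 hn) (NPC.Poly.const _) hN
    · have hf : NPC.Poly (fun p : (α × List Pt) × Pt => p.1.1) :=
        NPC.Poly.fst (NPC.Poly.fst NPC.Poly.id)
      refine NPC.Poly.map (F := fun (x : α × List Pt) (p : Pt) =>
        posn (n x.1) (m x.1) (i x.1) (j x.1) p) (NPC.Poly.snd NPC.Poly.id) ?_
      exact poly_posn (hn.comp hf) (hm.comp hf) (hi.comp hf) (hj.comp hf)
        (NPC.Poly.snd NPC.Poly.id)
  · refine NPC.Poly.ite (NPC.Poly.decide_lt hj1 hm) ?_ hN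
    exact NPC.Poly.cons (NPC.Poly.cons (poly_posn hn hm hi hj (NPC.Poly.const _))
      (NPC.Poly.cons (poly_posn hn hm hi hj1 (NPC.Poly.const _)) (NPC.Poly.const [])))
      (NPC.Poly.const [])
  · refine NPC.Poly.ite (NPC.Poly.decide_lt hi1 hn) ?_ hN
    exact NPC.Poly.cons (NPC.Poly.cons (poly_posn hn hm hi hj (NPC.Poly.const _))
      (NPC.Poly.cons (poly_posn hn hm hi1 hj (NPC.Poly.const _)) (NPC.Poly.const [])))
      (NPC.Poly.const [])

theorem poly_occ (b : Bool) {o : α → Option ℕ} {c : α → List (Bool × ℕ)} (ho : NPC.Poly o)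
    (hc : NPC.Poly c) : NPC.Poly (fun x => occ b (o x) (c x)) := by
  refine (NPC.Poly.any (p := fun x (l : Bool × ℕ) => decide (l.1 = b) && decide (some l.2 = o x))
    hc ?_).congr fun x => ?_
  · refine NPC.Poly.and (NPC.Poly.decide_eq (NPC.Poly.fst (NPC.Poly.snd NPC.Poly.id))
      (NPC.Poly.const b)) (NPC.Poly.decide_eq (NPC.Poly.some (NPC.Poly.snd
        (NPC.Poly.snd NPC.Poly.id))) (ho.comp (NPC.Poly.fst NPC.Poly.id)))
  · unfold occ
    rw [Bool.eq_iff_iff]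
    simp only [List.any_eq_true, Bool.and_eq_true, decide_eq_true_eq]

theorem poly_rows : NPC.Poly rows := by
  unfold rows
  refine NPC.Poly.cons (NPC.Poly.const none) ?_
  refine NPC.Poly.map (F := fun _ (v : ℕ) => some v) ?_ (NPC.Poly.some (NPC.Poly.snd NPC.Poly.id))
  exact Pool.Agent.H49R2.PY.Y1aux.dedup (NPC.Poly.map (F := fun _ (p : Bool × ℕ) => p.2)
    (NPC.Poly.flatten NPC.Poly.id) (NPC.Poly.snd (NPC.Poly.snd NPC.Poly.id)))

end V1aux

attribute [local irreducible] cellBlocks rows occ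

theorem V1_ok : S_V1 := by
  unfold S_V1 blocksOf
  refine NPC.Poly.flatMap (F := fun (φ : CNF ℕ) (r : Option ℕ × ℕ) => φ.zipIdx.flatMap (fun c =>
    cellBlocks (rows φ).length φ.length r.2 c.2 (occ false r.1 c.1) (occ true r.1 c.1)))
    (NPC.Poly.zipIdx V1aux.poly_rows) ?_
  refine NPC.Poly.flatMap (F := fun (p : CNF ℕ × (Option ℕ × ℕ)) (c : List (Bool × ℕ) × ℕ) =>
    cellBlocks (rows p.1).length p.1.length p.2.2 c.2 (occ false p.2.1 c.1) (occ true p.2.1 c.1))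
    (NPC.Poly.zipIdx (NPC.Poly.fst NPC.Poly.id)) ?_
  have hφ : NPC.Poly (fun q : (CNF ℕ × (Option ℕ × ℕ)) × (List (Bool × ℕ) × ℕ) => q.1.1) :=
    NPC.Poly.fst (NPC.Poly.fst NPC.Poly.id)
  have hr : NPC.Poly (fun q : (CNF ℕ × (Option ℕ × ℕ)) × (List (Bool × ℕ) × ℕ) => q.1.2) :=
    NPC.Poly.snd (NPC.Poly.fst NPC.Poly.id)
  have hc : NPC.Poly (fun q : (CNF ℕ × (Option ℕ × ℕ)) × (List (Bool × ℕ) × ℕ) => q.2) :=
    NPC.Poly.snd NPC.Poly.id
  exact V1aux.poly_cellBlocks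
    (n := fun q : (CNF ℕ × (Option ℕ × ℕ)) × (List (Bool × ℕ) × ℕ) => (rows q.1.1).length)
    (m := fun q : (CNF ℕ × (Option ℕ × ℕ)) × (List (Bool × ℕ) × ℕ) => q.1.1.length)
    (i := fun q : (CNF ℕ × (Option ℕ × ℕ)) × (List (Bool × ℕ) × ℕ) => q.1.2.2)
    (j := fun q : (CNF ℕ × (Option ℕ × ℕ)) × (List (Bool × ℕ) × ℕ) => q.2.2)
    (a := fun q : (CNF ℕ × (Option ℕ × ℕ)) × (List (Bool × ℕ) × ℕ) => occ false q.1.2.1 q.2.1)
    (b := fun q : (CNF ℕ × (Option ℕ × ℕ)) × (List (Bool × ℕ) × ℕ) => occ true q.1.2.1 q.2.1)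
    (NPC.Poly.length (V1aux.poly_rows.comp hφ)) (NPC.Poly.length hφ)
    (NPC.Poly.snd hr) (NPC.Poly.snd hc) (V1aux.poly_occ false (NPC.Poly.fst hr) (NPC.Poly.fst hc))
    (V1aux.poly_occ true (NPC.Poly.fst hr) (NPC.Poly.fst hc))

end Pool.Agent.H49R2.PC
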