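import Pool.Agent.H49R2.PC.Stubs
import Pool.Agent.H49R2.PY.Y1
import Pool.Agent.H671R2.PolyAuto

namespace Pool.Agent.H49R2.PC.V2aux

open Pool.Agent.NPC Pool.Agent.NPC.Cnt Finset

theorem poly_latS : Poly latS :=
  Pool.Agent.H49R2.PY.Y1aux.dedup (NPC.Poly.flatten NPC.Poly.id)

theorem length_vertsOf (s : Pt) : (vertsOf s).length = 19 := by
  simp [vertsOf]

theorem tt_eq (B : List (List Pt)) : 19 * (latS B).length + 1 = tt B := by
  unfold tt
  rw [List.length_flatMap]
  have h : (latS B).map (fun s => (vertsOf s).length) = (latS B).map (fun _ => 19) := by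
    apply List.map_congr_left
    intro s _
    exact length_vertsOf s
  rw [h, List.map_const', List.sum_replicate, smul_eq_mul]
  ring

theorem poly_dl : Poly (fun x : List (List Pt) × Pt => dl x.1 x.2) := by
  refine NPC.Poly.length ?_
  refine NPC.Poly.filter (p := fun (x : List (List Pt) × Pt) (b : List Pt) => decide (x.2 ∈ b))
    (NPC.Poly.fst NPC.Poly.id) ?_
  fun_prop

end Pool.Agent.H49R2.PC.V2aux

namespace Pool.Agent.H49R2.PC

open Pool.Agent.NPC Pool.Agent.NPC.Cnt Finset

theorem V2_ok : S_V2 := by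
  refine ⟨?_, V2aux.poly_latS, V2aux.poly_dl⟩
  have h : UPoly (fun B : List (List Pt) => 19 * (latS B).length + 1) :=
    UPoly.add (UPoly.mul (UPoly.const 19) (UPoly.length V2aux.poly_latS)) (UPoly.const 1)
  have e : (fun B : List (List Pt) => 19 * (latS B).length + 1) = fun B => tt B := by
    funext B
    exact V2aux.tt_eq B
  rw [e] at h
  exact h

end Pool.Agent.H49R2.PC
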