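import Pool.Agent.H49R2.PC.Stubs
import Pool.Agent.H49R2.PY.Y6

/-!
# Task V3: the threshold is computable in polynomial time
-/

namespace Pool.Agent.H49R2.PC

open Pool.Agent.NPC Pool.Agent.NPC.Cnt Finset

theorem V3_ok (h2 : S_V2) : S_V3 := by
  obtain ⟨htt, hlat, hdl⟩ := h2
  have hid : NPC.Poly (fun B : List (List Pt) => B) := NPC.Poly.id
  have hlen : UPoly (fun B : List (List Pt) => B.length) := UPoly.length hid
  have hpm : NPC.Poly (fun B : List (List Pt) => (latS B).map (dl B)) :=
    NPC.Poly.map (F := fun B s => dl B s) hlat hdl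
  have hps : NPC.Poly (fun B : List (List Pt) => sumD B) := NPC.Poly.sum hpm
  have hle : ∀ B : List (List Pt), sumD B ≤ (latS B).length * B.length := by
    intro B
    unfold sumD
    have h1 := List.sum_le_card_nsmul ((latS B).map (dl B)) B.length (by
      intro x hx
      rw [List.mem_map] at hx
      obtain ⟨s, -, rfl⟩ := hx
      exact List.length_filter_le _ _)
    rw [List.length_map, smul_eq_mul] at h1
    exact h1
  have hsum : UPoly (fun B : List (List Pt) => sumD B) :=
    UPoly.of_le hps (UPoly.mul (UPoly.length hlat) hlen) hle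
  have he1 : UPoly (fun B : List (List Pt) => tt B * (81 * sumD B + 9 * B.length)) :=
    UPoly.mul htt (UPoly.add (UPoly.mul (UPoly.const 81) hsum)
      (UPoly.mul (UPoly.const 9) hlen))
  have he2 : UPoly (fun B : List (List Pt) => tt B * (90 * sumD B - 9 * B.length)) := by
    have ha : UPoly (fun B : List (List Pt) => 90 * sumD B) := UPoly.mul (UPoly.const 90) hsum
    have hb : UPoly (fun B : List (List Pt) => 9 * B.length) := UPoly.mul (UPoly.const 9) hlen
    have hc : UPoly (fun B : List (List Pt) => 90 * sumD B - 9 * B.length) :=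
      UPoly.of_le (NPC.Poly.sub (UPoly.toPoly ha) (UPoly.toPoly hb)) ha
        (fun B => Nat.sub_le _ _)
    exact UPoly.mul htt hc
  exact NPC.Poly.mul (PY.Y6_ok _ _ _ (NPC.Poly.const 3) he1)
    (PY.Y6_ok _ _ _ (NPC.Poly.const 2) he2)

end Pool.Agent.H49R2.PC
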