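import Pool.Agent.H49R2.PC.V2

namespace Pool.Agent.H49R2.PC.V4aux

open Pool.Agent.NPC Pool.Agent.NPC.Cnt Finset

variable {α : Type} [TEnc α]

@[fun_prop]
theorem poly_natPair {f g : α → ℕ} (hf : Poly f) (hg : Poly g) :
    Poly (fun a => Nat.pair (f a) (g a)) := by
  unfold Nat.pair
  fun_prop

@[fun_prop]
theorem poly_vl {x y t : α → ℕ} (hx : Poly x) (hy : Poly y) (ht : Poly t) :
    Poly (fun a => vl (x a) (y a) (t a)) := by
  unfold vl
  fun_prop

@[fun_prop]
theorem poly_cL {s : α → Pt} (hs : Poly s) : Poly (fun a => cL (s a)) := by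
  unfold cL
  fun_prop

@[fun_prop]
theorem poly_aL {s : α → Pt} {k : α → ℕ} (hs : Poly s) (hk : Poly k) :
    Poly (fun a => aL (s a) (k a)) := by
  unfold aL
  fun_prop

@[fun_prop]
theorem poly_pL {s : α → Pt} {k : α → ℕ} (hs : Poly s) (hk : Poly k) :
    Poly (fun a => pL (s a) (k a)) := by
  unfold pL
  fun_prop

@[fun_prop]
theorem poly_vertsOf {s : α → Pt} (hs : Poly s) : Poly (fun a => vertsOf (s a)) := by
  unfold vertsOf
  fun_prop

@[fun_prop]
theorem poly_rimOf {s : α → Pt} (hs : Poly s) : Poly (fun a => rimOf (s a)) := by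
  unfold rimOf
  fun_prop

@[fun_prop]
theorem poly_chordOf {S : α → List Pt} {s : α → Pt} (hS : Poly S) (hs : Poly s) :
    Poly (fun a => chordOf (S a) (s a)) := by
  unfold chordOf
  fun_prop

theorem poly_dl' (h2 : S_V2) {B : α → List (List Pt)} {s : α → Pt} (hB : Poly B) (hs : Poly s) :
    Poly (fun a => dl (B a) (s a)) :=
  NPC.Poly.comp (g := fun x : List (List Pt) × Pt => dl x.1 x.2) h2.2.2 (NPC.Poly.pair hB hs)

theorem poly_spokesOf (h2 : S_V2) {B : α → List (List Pt)} {t : α → ℕ} {s : α → Pt}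
    (hB : Poly B) (ht : Poly t) (hs : Poly s) : Poly (fun a => spokesOf (B a) (t a) (s a)) := by
  have hd := poly_dl' h2 (NPC.Poly.comp hB (NPC.Poly.fst (β := α) (γ := ℕ) NPC.Poly.id))
    (NPC.Poly.comp hs (NPC.Poly.fst (β := α) (γ := ℕ) NPC.Poly.id))
  unfold spokesOf
  refine NPC.Poly.flatMap (F := fun a k =>
    [((cL (s a), aL (s a) k), 10 * dl (B a) (s a) * t a),
      ((cL (s a), pL (s a) k), 9 * dl (B a) (s a) * t a)]) (NPC.Poly.const _) ?_
  fun_prop

end Pool.Agent.H49R2.PC.V4aux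

namespace Pool.Agent.H49R2.PC

open Pool.Agent.NPC Pool.Agent.NPC.Cnt Finset

theorem V4_ok' (h2 : S_V2) : S_V4 := by
  have hl : Poly latS := h2.2.1
  have ht : Poly (fun B : List (List Pt) => tt B) := h2.1.toPoly
  have h1 : Poly (fun B : List (List Pt) => ((latS B).flatMap vertsOf).dedup) := by
    refine Pool.Agent.H49R2.PY.Y1aux.dedup ?_
    exact NPC.Poly.flatMap (F := fun _ s => vertsOf s) hl
      (V4aux.poly_vertsOf (NPC.Poly.snd NPC.Poly.id))
  have h3 : Poly (fun B : List (List Pt) =>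
      (latS B).flatMap rimOf ++ (latS B).flatMap (chordOf (latS B))) := by
    refine NPC.Poly.append ?_ ?_
    · exact NPC.Poly.flatMap (F := fun _ s => rimOf s) hl
        (V4aux.poly_rimOf (NPC.Poly.snd NPC.Poly.id))
    · exact NPC.Poly.flatMap (F := fun B s => chordOf (latS B) s) hl
        (V4aux.poly_chordOf (hl.comp (NPC.Poly.fst NPC.Poly.id)) (NPC.Poly.snd NPC.Poly.id))
  have h4 : Poly (fun B : List (List Pt) => (latS B).flatMap (spokesOf B (tt B))) :=
    NPC.Poly.flatMap (F := fun B s => spokesOf B (tt B) s) hl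
      (V4aux.poly_spokesOf h2 (NPC.Poly.fst NPC.Poly.id)
        (NPC.Poly.comp ht (NPC.Poly.fst NPC.Poly.id)) (NPC.Poly.snd NPC.Poly.id))
  exact NPC.Poly.pair h1 (NPC.Poly.pair h3 h4)

theorem V4_ok : S_V4 := V4_ok' V2_ok

end Pool.Agent.H49R2.PC
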