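import Pool.Agent.H49R2.PC.Stubs
import Pool.Agent.NPC.Num

/-!
# V5: the planar graph is computable in polynomial time
-/

namespace Pool.Agent.H49R2.PC

open Pool.Agent.NPC Pool.Agent.NPC.Cnt Finset

namespace V5aux

variable {α : Type} [TEnc α]

theorem pair_poly {m n : α → ℕ} (hm : Poly m) (hn : Poly n) :
    Poly (fun a => Nat.pair (m a) (n a)) :=
  (NPC.Poly.ite (p := fun a => m a < n a) (NPC.Poly.decide_lt hm hn) (NPC.Poly.add (NPC.Poly.mul hn hn) hm)
    (NPC.Poly.add (NPC.Poly.add (NPC.Poly.mul hm hm) hm) hn)).congr fun a => by rw [Nat.pair]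

theorem midL_poly {u v i : α → ℕ} (hu : Poly u) (hv : Poly v) (hi : Poly i) :
    Poly (fun a => midL (u a) (v a) (i a)) :=
  NPC.Poly.succ (NPC.Poly.mul (NPC.Poly.const 2) (pair_poly (pair_poly hu hv) hi))

theorem flatMap_congr' {β γ : Type} {l : List β} {f g : β → List γ} (h : ∀ x ∈ l, f x = g x) :
    l.flatMap f = l.flatMap g := by
  rw [List.flatMap_def, List.flatMap_def, List.map_congr_left h]

/-- the bound for the multiplicities -/
def bdd (B : List (List Pt)) : ℕ := 10 * B.length * tt B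

theorem mult_le (B : List (List Pt)) (s : (ℕ × ℕ) × ℕ) (hs : s ∈ (latW B (tt B)).2.2) :
    s.2 ≤ bdd B := by
  unfold latW at hs
  simp only [List.mem_flatMap] at hs
  obtain ⟨x, -, hx⟩ := hs
  unfold spokesOf at hx
  rw [List.mem_flatMap] at hx
  obtain ⟨k, -, hk⟩ := hx
  have hd : dl B x ≤ B.length := List.length_filter_le _ _
  have h10 : 10 * dl B x * tt B ≤ bdd B :=
    Nat.mul_le_mul_right _ (Nat.mul_le_mul_left _ hd)
  have h9 : 9 * dl B x * tt B ≤ bdd B :=
    Nat.mul_le_mul_right _ (Nat.mul_le_mul (by norm_num) hd)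
  simp only [List.mem_cons, List.not_mem_nil, or_false] at hk
  rcases hk with h | h
  · rw [h]; exact h10
  · rw [h]; exact h9

/-- the type of the soft edges -/
abbrev SE : Type := (ℕ × ℕ) × ℕ

theorem bdd_upoly (h2 : S_V2) : NPC.UPoly (fun B : List (List Pt) => bdd B) :=
  NPC.UPoly.mul (NPC.UPoly.mul (NPC.UPoly.const 10) (NPC.UPoly.length NPC.Poly.id)) h2.1

theorem min_upoly (h2 : S_V2) :
    NPC.UPoly (fun p : List (List Pt) × SE => Min.min p.2.2 (bdd p.1)) := by
  have h1 : NPC.Poly (fun p : List (List Pt) × SE => p.2.2) :=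
    NPC.Poly.snd (NPC.Poly.snd NPC.Poly.id)
  have h3 : NPC.UPoly (fun p : List (List Pt) × SE => bdd p.1) :=
    NPC.UPoly.comp (bdd_upoly h2) (NPC.Poly.fst NPC.Poly.id)
  exact NPC.UPoly.of_le (NPC.Poly.min h1 h3.toPoly) h3 (fun a => min_le_right _ _)

theorem mid_poly : NPC.Poly (fun q : (List (List Pt) × SE) × ℕ =>
    midL q.1.2.1.1 q.1.2.1.2 q.2) := by
  have h0 : NPC.Poly (fun q : (List (List Pt) × SE) × ℕ => q.1.2.1) :=
    NPC.Poly.fst (NPC.Poly.snd (NPC.Poly.fst NPC.Poly.id))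
  exact midL_poly (NPC.Poly.fst h0) (NPC.Poly.snd h0) (NPC.Poly.snd NPC.Poly.id)

/-- the vertices of one soft edge -/
def FV (p : List (List Pt) × SE) (i : ℕ) : ℕ := midL p.2.1.1 p.2.1.2 i

/-- the edges of one soft edge -/
def FE (p : List (List Pt) × SE) (i : ℕ) : List (ℕ × ℕ) :=
  [(2 * p.2.1.1, midL p.2.1.1 p.2.1.2 i), (2 * p.2.1.2, midL p.2.1.1 p.2.1.2 i)]

theorem FE_poly : NPC.Poly (fun q : (List (List Pt) × SE) × ℕ => FE q.1 q.2) := by
  have h0 : NPC.Poly (fun q : (List (List Pt) × SE) × ℕ => q.1.2.1) :=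
    NPC.Poly.fst (NPC.Poly.snd (NPC.Poly.fst NPC.Poly.id))
  have h1 : NPC.Poly (fun q : (List (List Pt) × SE) × ℕ => 2 * q.1.2.1.1) :=
    NPC.Poly.mul (NPC.Poly.const 2) (NPC.Poly.fst h0)
  have h2 : NPC.Poly (fun q : (List (List Pt) × SE) × ℕ => 2 * q.1.2.1.2) :=
    NPC.Poly.mul (NPC.Poly.const 2) (NPC.Poly.snd h0)
  exact NPC.Poly.cons (NPC.Poly.pair h1 mid_poly)
    (NPC.Poly.cons (NPC.Poly.pair h2 mid_poly) (NPC.Poly.const []))

/-- all the vertices of one soft edge -/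
def GV (B : List (List Pt)) (s : SE) : List ℕ :=
  (List.range (Min.min s.2 (bdd B))).map (FV (B, s))

/-- all the edges of one soft edge -/
def GE (B : List (List Pt)) (s : SE) : List (ℕ × ℕ) :=
  (List.range (Min.min s.2 (bdd B))).flatMap (FE (B, s))

theorem GV_poly (h2 : S_V2) : NPC.Poly (fun p : List (List Pt) × SE => GV p.1 p.2) :=
  NPC.Poly.map (F := FV) (min_upoly h2).range mid_poly

theorem GE_poly (h2 : S_V2) : NPC.Poly (fun p : List (List Pt) × SE => GE p.1 p.2) :=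
  NPC.Poly.flatMap (F := FE) (min_upoly h2).range FE_poly

theorem vert_poly (h2 : S_V2) {W : List (List Pt) → List SE} (hW : NPC.Poly W) :
    NPC.Poly (fun B => (W B).flatMap (GV B)) :=
  NPC.Poly.flatMap (F := GV) hW (GV_poly h2)

theorem edge_poly (h2 : S_V2) {W : List (List Pt) → List SE} (hW : NPC.Poly W) :
    NPC.Poly (fun B => (W B).flatMap (GE B)) :=
  NPC.Poly.flatMap (F := GE) hW (GE_poly h2)

theorem dbl_poly {W : List (List Pt) → List ℕ} (hW : NPC.Poly W) :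
    NPC.Poly (fun B => (W B).map (fun v => 2 * v)) :=
  NPC.Poly.map (F := fun _ v => 2 * v) hW
    (NPC.Poly.mul (NPC.Poly.const 2) (NPC.Poly.snd NPC.Poly.id))

theorem dbl2_poly {W : List (List Pt) → List (ℕ × ℕ)} (hW : NPC.Poly W) :
    NPC.Poly (fun B => (W B).map (fun e : ℕ × ℕ => (2 * e.1, 2 * e.2))) := by
  have h0 : NPC.Poly (fun q : List (List Pt) × (ℕ × ℕ) => q.2) := NPC.Poly.snd NPC.Poly.id
  exact NPC.Poly.map (F := fun _ e => ((2 * e.1, 2 * e.2) : ℕ × ℕ)) hW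
    (NPC.Poly.pair (NPC.Poly.mul (NPC.Poly.const 2) (NPC.Poly.fst h0))
      (NPC.Poly.mul (NPC.Poly.const 2) (NPC.Poly.snd h0)))

/-- the graph with bounded multiplicities -/
def thickB (W : List (List Pt) → WG) (B : List (List Pt)) : Gr :=
  ((W B).1.map (fun v => 2 * v) ++ (W B).2.2.flatMap (GV B),
   (W B).2.1.map (fun e => (2 * e.1, 2 * e.2)) ++ (W B).2.2.flatMap (GE B))

theorem thickB_poly (h2 : S_V2) {W : List (List Pt) → WG} (hW : NPC.Poly W) :
    NPC.Poly (thickB W) := by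
  have h1 : NPC.Poly (fun B => (W B).1) := NPC.Poly.fst hW
  have h3 : NPC.Poly (fun B => (W B).2.1) := NPC.Poly.fst (NPC.Poly.snd hW)
  have h4 : NPC.Poly (fun B => (W B).2.2) := NPC.Poly.snd (NPC.Poly.snd hW)
  exact NPC.Poly.pair (NPC.Poly.append (dbl_poly h1) (vert_poly h2 h4))
    (NPC.Poly.append (dbl2_poly h3) (edge_poly h2 h4))

theorem thickB_eq (W : List (List Pt) → WG) (B : List (List Pt))
    (hm : ∀ s ∈ (W B).2.2, s.2 ≤ bdd B) : thickB W B = thick (W B) := by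
  have e1 : (W B).2.2.flatMap (GV B) = (W B).2.2.flatMap
      (fun s => (List.range s.2).map (fun i => midL s.1.1 s.1.2 i)) :=
    flatMap_congr' fun s hs => by
      unfold GV FV
      rw [min_eq_left (hm s hs)]
  have e2 : (W B).2.2.flatMap (GE B) = (W B).2.2.flatMap
      (fun s => (List.range s.2).flatMap (fun i =>
        [(2 * s.1.1, midL s.1.1 s.1.2 i), (2 * s.1.2, midL s.1.1 s.1.2 i)])) :=
    flatMap_congr' fun s hs => by
      unfold GE FE
      rw [min_eq_left (hm s hs)]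
  unfold thickB thick
  rw [e1, e2]

end V5aux

open V5aux

theorem V5_ok (h2 : S_V2) (h4 : S_V4) : S_V5 :=
  NPC.Poly.congr (thickB_poly h2 (W := fun B => latW B (tt B)) h4)
    fun B => thickB_eq (fun B => latW B (tt B)) B (mult_le B)

end Pool.Agent.H49R2.PC
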