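import Pool.Agent.H49R2.PC.Stubs
import Pool.Agent.H49R2.PY.R1

/-!
# Counting the 4-colourings of planar graphs: the randomised test for satisfiability (task W)
-/

namespace Pool.Agent.H49R2.PC

open Pool.Agent.NPC Pool.Agent.NPC.Cnt Finset

namespace Waux

open Pool.Agent.H49R2.PY.R1aux

theorem Th_pos (B : List (List Pt)) : 0 < Th B := by
  unfold Th
  positivity

/-- Good approximations decide satisfiability. -/
theorem decides {φ : CNF ℕ} (hU1 : S_U1) (hU2 : S_U2) (hC1 : S_C1) (hC5 : S_C5) (hC6 : S_C6)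
    (a b : ℕ) (h : Approx 2 ((a : ℝ) / b) (Zw (latW (blocksOf φ) (tt (blocksOf φ))) : ℕ)) :
    (0 < b ∧ b * Th (blocksOf φ) ≤ 2 * a) ↔ 0 < satCount φ := by
  have hT : (0 : ℝ) < (Th (blocksOf φ) : ℝ) := by exact_mod_cast Th_pos _
  obtain ⟨h1, h2⟩ := h
  push_cast at h1 h2
  constructor
  · rintro ⟨hb, hba⟩
    by_contra hs
    have hn : ¬ HasSel (blocksOf φ) := fun hh => hs (hC6 φ hh)
    have h3 : 16 * Zw (latW (blocksOf φ) (tt (blocksOf φ))) ≤ Th (blocksOf φ) :=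
      hU2 _ (hC1 φ) hn
    have h3' : 16 * (Zw (latW (blocksOf φ) (tt (blocksOf φ))) : ℝ) ≤ Th (blocksOf φ) := by
      exact_mod_cast h3
    have hb' : (0 : ℝ) < b := by exact_mod_cast hb
    have h4 : (b : ℝ) * Th (blocksOf φ) ≤ 2 * a := by exact_mod_cast hba
    have h5 : (Th (blocksOf φ) : ℝ) / 2 ≤ (a : ℝ) / b := by
      rw [div_le_div_iff₀ (by norm_num) hb']
      linarith
    linarith
  · intro hs
    have hsel := hC5 φ hs
    have h3 : Th (blocksOf φ) ≤ Zw (latW (blocksOf φ) (tt (blocksOf φ))) := hU1 _ (hC1 φ) hsel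
    have h3' : (Th (blocksOf φ) : ℝ) ≤ Zw (latW (blocksOf φ) (tt (blocksOf φ))) := by
      exact_mod_cast h3
    have hb : 0 < b := by
      rcases Nat.eq_zero_or_pos b with hb | hb
      · subst hb
        simp only [Nat.cast_zero, div_zero] at h1
        linarith
      · exact hb
    have hb' : (0 : ℝ) < b := by exact_mod_cast hb
    refine ⟨hb, ?_⟩
    have h5 : (Th (blocksOf φ) : ℝ) / 2 ≤ (a : ℝ) / b := by linarith
    rw [div_le_div_iff₀ (by norm_num) hb'] at h5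
    have h6 : (b : ℝ) * Th (blocksOf φ) ≤ 2 * a := by linarith
    exact_mod_cast h6

end Waux

open Waux Pool.Agent.H49R2.PY.R1aux in
theorem W_ok : S_W := by
  intro hT1 hT2 hU1 hU2 _ hU4 hU5 hC1 hC5 hC6 hV1 hV3 hV5 hF
  obtain ⟨F, A, p, hA, hAF, hF⟩ := hF
  have hFp : Poly F := poly_of_machine hA hAF (0, 0)
  have hg : Poly gOf := hV5.comp hV1
  have hbits : Poly (fun φ : CNF ℕ => bits (gOf φ)) := Pool.Agent.H579R2.Spt.bits_poly.comp hg
  let LL : CNF ℕ → ℕ := fun φ => p.eval ((bits (gOf φ)).length + 2)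
  have hLL : UPoly LL := ((UPoly.length hbits).add (UPoly.const 2)).eval p
  let coins : CNF ℕ × List Bool → List Bool := fun s => s.2.take (LL s.1)
  have hcoins : Poly coins := Pool.Agent.H579R2.Spt.take_poly' (NPC.Poly.snd NPC.Poly.id)
    (hLL.comp (NPC.Poly.fst NPC.Poly.id)).toPoly
  let ab : CNF ℕ × List Bool → ℕ × ℕ := fun s => F (gOf s.1, 2, coins s)
  have hab : Poly ab := hFp.comp (NPC.Poly.pair (hg.comp (NPC.Poly.fst NPC.Poly.id))
    (NPC.Poly.pair (NPC.Poly.const 2) hcoins))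
  let D : CNF ℕ × List Bool → Bool := fun s =>
    decide (0 < (ab s).2) && decide ((ab s).2 * Th (blocksOf s.1) ≤ 2 * (ab s).1)
  have hTh : Poly (fun s : CNF ℕ × List Bool => Th (blocksOf s.1)) :=
    hV3.comp (hV1.comp (NPC.Poly.fst NPC.Poly.id))
  have hD : Poly D := NPC.Poly.and (NPC.Poly.decide_lt (NPC.Poly.const 0) (NPC.Poly.snd hab))
    (NPC.Poly.decide_le (NPC.Poly.mul (NPC.Poly.snd hab) hTh)
      (NPC.Poly.mul (NPC.Poly.const 2) (NPC.Poly.fst hab)))
  refine ⟨D, LL, hD, hLL, ?_⟩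
  intro φ R hR
  have hWG : IsWG (latW (blocksOf φ) (tt (blocksOf φ))) := hU4 _ _ (hC1 φ)
  have hpl : IsPlanar (gOf φ) := ⟨(hT1 _ hWG).1, hT2 _ hWG (hU5 _ _ (hC1 φ))⟩
  have hnum : numCol 4 (gOf φ) = Zw (latW (blocksOf φ) (tt (blocksOf φ))) := (hT1 _ hWG).2
  refine count (a := 0) (R := R) (fun _ => True) (fun _ => LL φ)
    (fun _ s => Approx 2 (((F (gOf φ, 2, s)).1 : ℝ) / (F (gOf φ, 2, s)).2) (numCol 4 (gOf φ)))
    (fun r => ¬ (D (φ, r) = true ↔ 0 < satCount φ)) (Nat.zero_le _) ?_ ?_ ?_ ?_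
  · have : {r : List Bool | r.length = 0 ∧ True} = {[]} := by
      ext r
      simp
    rw [this, Set.ncard_singleton]
    norm_num
  · intro r1 _
    show 0 + LL φ ≤ R
    rw [zero_add]
    exact hR
  · intro r1 _
    exact hF (gOf φ) hpl 2 le_rfl
  · intro r hr _ hg2
    rw [not_not]
    rw [List.drop_zero] at hg2
    rw [hnum] at hg2
    have h1 := decides hU1 hU2 hC1 hC5 hC6 _ _ hg2
    rw [← h1]
    show (decide (0 < (ab (φ, r)).2) && decide ((ab (φ, r)).2 * Th (blocksOf φ) ≤ 2 * (ab (φ, r)).1))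
      = true ↔ _
    rw [Bool.and_eq_true, decide_eq_true_iff, decide_eq_true_iff]

end Pool.Agent.H49R2.PC
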