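import Pool.Agent.H49R2.PC.Stubs
import Pool.Agent.H49R2.PC.T1
import Pool.Agent.H49R2.PC.T2a
import Pool.Agent.H49R2.PC.T2i
import Pool.Agent.H49R2.PC.U0a
import Pool.Agent.H49R2.PC.U0b
import Pool.Agent.H49R2.PC.U0c
import Pool.Agent.H49R2.PC.U0d
import Pool.Agent.H49R2.PC.U1a
import Pool.Agent.H49R2.PC.U1i
import Pool.Agent.H49R2.PC.U2i
import Pool.Agent.H49R2.PC.U3i
import Pool.Agent.H49R2.PC.U4
import Pool.Agent.H49R2.PC.U5a
import Pool.Agent.H49R2.PC.U5b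
import Pool.Agent.H49R2.PC.U5i
import Pool.Agent.H49R2.PC.C1
import Pool.Agent.H49R2.PC.C2a
import Pool.Agent.H49R2.PC.C2b
import Pool.Agent.H49R2.PC.C3
import Pool.Agent.H49R2.PC.C4
import Pool.Agent.H49R2.PC.C5i
import Pool.Agent.H49R2.PC.C6i
import Pool.Agent.H49R2.PC.V1
import Pool.Agent.H49R2.PC.V2
import Pool.Agent.H49R2.PC.V3
import Pool.Agent.H49R2.PC.V4
import Pool.Agent.H49R2.PC.V5
import Pool.Agent.H49R2.PC.W
import Pool.Agent.H49R2.PY.R2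
import Pool.Agent.H49R2.PY.R3

/-!
# Counting the 4-colourings of planar graphs: assembly
-/

namespace Pool.Agent.H49R2.PC

open Pool.Agent.NPC Pool.Agent.NPC.Cnt

theorem main (h : HasFPRASOn IsPlanar (numCol 4)) :
    ∀ L : Set (List Bool), InNP L → Pool.Agent.H579R2.Spt.InRP L :=
  PY.R3_ok (PY.R2_ok (W_ok T1_ok (T2i_ok T2a_ok)
    (U1i_ok U0a_ok U0d_ok U1a_ok U4_ok) (U2i_ok U0a_ok U0b_ok U0c_ok U0d_ok)
    (U3i_ok U1a_ok U4_ok) U4_ok (U5i_ok U5a_ok U5b_ok) C1_ok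
    (C5i_ok C2a_ok C2b_ok C3_ok C4_ok) (C6i_ok C3_ok) V1_ok (V3_ok V2_ok)
    (V5_ok V2_ok V4_ok) h))

end Pool.Agent.H49R2.PC
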