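import Pool.Agent.H49R2.PC.Defs
import Pool.Agent.H49R2.PY.Stubs

/-!
# Counting the 4-colourings of planar graphs: statements of the steps of the proof
-/

namespace Pool.Agent.H49R2.PC

open Pool.Agent.NPC Pool.Agent.NPC.Cnt Finset

/-! ## Weighted graphs -/

/-- A weighted graph: the list of vertices, the list of the hard edges (the ends have different
colours), the list of the soft edges with multiplicities. -/
abbrev WG : Type := List ℕ × List (ℕ × ℕ) × List ((ℕ × ℕ) × ℕ)

/-- The label of the `i`-th middle vertex of the soft edge `(u, v)`. -/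
def midL (u v i : ℕ) : ℕ := 2 * Nat.pair (Nat.pair u v) i + 1

/-- A soft edge of multiplicity `μ` is replaced by `μ` parallel paths of length 2. -/
def thick (W : WG) : Gr :=
  (W.1.map (fun v => 2 * v) ++
    W.2.2.flatMap (fun s => (List.range s.2).map (fun i => midL s.1.1 s.1.2 i)),
   W.2.1.map (fun e => (2 * e.1, 2 * e.2)) ++
    W.2.2.flatMap (fun s => (List.range s.2).flatMap (fun i =>
      [(2 * s.1.1, midL s.1.1 s.1.2 i), (2 * s.1.2, midL s.1.1 s.1.2 i)])))

/-- Validity of a weighted graph. -/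
def IsWG (W : WG) : Prop :=
  W.1.Nodup ∧ (∀ e ∈ W.2.1, e.1 ∈ W.1 ∧ e.2 ∈ W.1 ∧ e.1 ≠ e.2) ∧
  (∀ s ∈ W.2.2, s.1.1 ∈ W.1 ∧ s.1.2 ∈ W.1 ∧ s.1.1 ≠ s.1.2) ∧ (W.2.2.map Prod.fst).Nodup

/-- Extension of a colouring of the vertices by the colour `0`. -/
def ext (V : List ℕ) (c : {v // v ∈ V} → Fin 4) (v : ℕ) : Fin 4 :=
  if h : v ∈ V then c ⟨v, h⟩ else 0

open Classical in
/-- The weight of a colouring: `0` if it is not proper on the hard edges; a soft edge of multiplicity
`μ` has weight `3 ^ μ` if its ends have the same colour and `2 ^ μ` otherwise. -/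
noncomputable def wcol (W : WG) (c : ℕ → Fin 4) : ℕ :=
  if ∀ e ∈ W.2.1, c e.1 ≠ c e.2 then
    (W.2.2.map (fun s => if c s.1.1 = c s.1.2 then 3 ^ s.2 else 2 ^ s.2)).prod else 0

/-- The partition function. -/
noncomputable def Zw (W : WG) : ℕ := ∑ c : {v // v ∈ W.1} → Fin 4, wcol W (ext W.1 c)

/-- task T1: number of 4-colourings of the thickened graph -/
def S_T1 : Prop := ∀ W : WG, IsWG W → IsGr (thick W) ∧ numCol 4 (thick W) = Zw W

/-- task T2a: adding a vertex adjacent to both ends of an edge of a plane graph -/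
def S_T2a : Prop := ∀ (G : Gr) (u v x : ℕ), IsPlanar G → (u, v) ∈ G.2 → x ∉ G.1 →
  ∃ pos : ℕ → ℝ × ℝ, PlaneDrawing (x :: G.1, (u, x) :: (v, x) :: G.2) pos

/-- task T2: the thickened graph is planar -/
def S_T2 : Prop := ∀ W : WG, IsWG W →
  (∃ pos : ℕ → ℝ × ℝ, PlaneDrawing (W.1, W.2.1 ++ W.2.2.map Prod.fst) pos) →
  ∃ pos : ℕ → ℝ × ℝ, PlaneDrawing (thick W) pos

def S_T2i : Prop := S_T2a → S_T2

/-! ## The triangular lattice -/

/-- Sites of the triangular lattice. -/
abbrev Pt : Type := ℕ × ℕ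

/-- Adjacent sites: `t - s` is `±(1, 0)`, `±(0, 1)` or `±(-1, 1)`. -/
def adjP (s t : Pt) : Prop :=
  (t = (s.1 + 1, s.2) ∨ s = (t.1 + 1, t.2)) ∨ (t = (s.1, s.2 + 1) ∨ s = (t.1, t.2 + 1)) ∨
    ((t.1 + 1 = s.1 ∧ t.2 = s.2 + 1) ∨ (s.1 + 1 = t.1 ∧ s.2 = t.2 + 1))

instance (s t : Pt) : Decidable (adjP s t) := by unfold adjP; infer_instance

/-- The label of the vertex of type `τ` at the site `(x, y)`: type 0 is the centre of the wheel,
types 1, 2, 3 are the vertices on the lattice edges in the directions `(1, 0)`, `(0, 1)`,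
`(-1, 1)`, types 4, 5, 6 are the corner vertices, types 7 to 15 are the `p`-vertices. -/
def vl (x y τ : ℕ) : ℕ := Nat.pair (Nat.pair x y) τ

/-- The centre of the wheel. -/
def cL (s : Pt) : ℕ := vl s.1 s.2 0

/-- The `a`-vertices of the rim of the wheel (indices 0 to 8). -/
def aL (s : Pt) (k : ℕ) : ℕ :=
  if k = 0 then vl s.1 s.2 1 else if k = 1 then vl s.1 s.2 4 else if k = 2 then vl s.1 s.2 2
  else if k = 3 then vl s.1 s.2 3 else if k = 4 then vl s.1 s.2 5
  else if k = 5 then vl (s.1 - 1) s.2 1 else if k = 6 then vl s.1 (s.2 - 1) 2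
  else if k = 7 then vl s.1 s.2 6 else vl (s.1 + 1) (s.2 - 1) 3

/-- The `p`-vertices of the rim of the wheel (indices 0 to 8). -/
def pL (s : Pt) (k : ℕ) : ℕ := vl s.1 s.2 (7 + k)

/-- The vertices of the wheel. -/
def vertsOf (s : Pt) : List ℕ := cL s :: ((List.range 9).map (aL s) ++ (List.range 9).map (pL s))

/-- The hard edges of the rim. -/
def rimOf (s : Pt) : List (ℕ × ℕ) :=
  (List.range 9).flatMap (fun k => [(aL s k, pL s k), (pL s k, aL s ((k + 1) % 9))])

/-- The chords: hard edges between corner vertices of adjacent sites. -/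
def chordOf (S : List Pt) (s : Pt) : List (ℕ × ℕ) :=
  (if (s.1 + 1, s.2) ∈ S then [(aL s 1, aL (s.1 + 1, s.2) 4)] else []) ++
  (if (s.1, s.2 + 1) ∈ S then [(aL s 1, aL (s.1, s.2 + 1) 7)] else []) ++
  (if (s.1 - 1, s.2 + 1) ∈ S then [(aL s 4, aL (s.1 - 1, s.2 + 1) 7)] else [])

/-- The number of blocks containing a site. -/
def dl (B : List (List Pt)) (s : Pt) : ℕ := (B.filter (fun b => decide (s ∈ b))).length

/-- The soft edges of the wheel (spokes). -/
def spokesOf (B : List (List Pt)) (t : ℕ) (s : Pt) : List ((ℕ × ℕ) × ℕ) :=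
  (List.range 9).flatMap (fun k =>
    [((cL s, aL s k), 10 * dl B s * t), ((cL s, pL s k), 9 * dl B s * t)])

/-- The sites occurring in the blocks. -/
def latS (B : List (List Pt)) : List Pt := B.flatten.dedup

/-- The weighted graph of a list of blocks. -/
def latW (B : List (List Pt)) (t : ℕ) : WG :=
  (((latS B).flatMap vertsOf).dedup,
    (latS B).flatMap rimOf ++ (latS B).flatMap (chordOf (latS B)), (latS B).flatMap (spokesOf B t))

/-- Validity of a list of blocks: each block is a nonempty clique of the lattice. -/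
def GoodB (B : List (List Pt)) : Prop :=
  ∀ b ∈ B, b ≠ [] ∧ b.Nodup ∧ (∀ s ∈ b, 1 ≤ s.1 ∧ 1 ≤ s.2) ∧
    ∀ s ∈ b, ∀ t ∈ b, s ≠ t → adjP s t

/-- There is an independent set of sites which has exactly one element in each block. -/
def HasSel (B : List (List Pt)) : Prop :=
  ∃ I : Finset Pt, (∀ s ∈ I, ∀ t ∈ I, ¬ adjP s t) ∧
    ∀ b ∈ B, (b.filter (fun s => decide (s ∈ I))).length = 1

/-- The multiplicity parameter. -/
def tt (B : List (List Pt)) : ℕ := ((latS B).flatMap vertsOf).length + 1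

/-- The sum of the numbers `dl B s`. -/
def sumD (B : List (List Pt)) : ℕ := ((latS B).map (dl B)).sum

/-- The threshold. -/
def Th (B : List (List Pt)) : ℕ :=
  3 ^ (tt B * (81 * sumD B + 9 * B.length)) * 2 ^ (tt B * (90 * sumD B - 9 * B.length))

/-- The number of spoke multiplicities of equal colours at the site `s` (without the factor `t`). -/
def eS (B : List (List Pt)) (c : ℕ → Fin 4) (s : Pt) : ℕ :=
  ∑ k ∈ Finset.range 9, ((if c (cL s) = c (aL s k) then 10 * dl B s else 0) +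
    (if c (cL s) = c (pL s k) then 9 * dl B s else 0))

/-- All the `a`-vertices of the wheel have the colour of the centre. -/
def Act (c : ℕ → Fin 4) (s : Pt) : Prop := ∀ k < 9, c (aL s k) = c (cL s)

/-- task U0a: the weight of a proper colouring -/
def S_U0a : Prop := ∀ B t (c : ℕ → Fin 4), GoodB B → (∀ e ∈ (latW B t).2.1, c e.1 ≠ c e.2) →
  wcol (latW B t) c = 3 ^ (t * ((latS B).map (eS B c)).sum) *
    2 ^ (t * (171 * sumD B - ((latS B).map (eS B c)).sum)) ∧
  ((latS B).map (eS B c)).sum ≤ 171 * sumD B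

/-- task U0b: the sum of the multiplicities at a site -/
def S_U0b : Prop := ∀ B (c : ℕ → Fin 4) s, 1 ≤ s.1 → 1 ≤ s.2 → (∀ e ∈ rimOf s, c e.1 ≠ c e.2) →
  (Act c s → eS B c s = 90 * dl B s) ∧ (¬ Act c s → eS B c s ≤ 81 * dl B s)

/-- task U0c: adjacent sites are not both active -/
def S_U0c : Prop := ∀ B t (c : ℕ → Fin 4), GoodB B → (∀ e ∈ (latW B t).2.1, c e.1 ≠ c e.2) →
  ∀ s ∈ latS B, ∀ s' ∈ latS B, Act c s → Act c s' → ¬ adjP s s'

/-- task U0d: summation over an independent set -/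
def S_U0d : Prop := ∀ B, GoodB B → ∀ I : Finset Pt, (∀ s ∈ I, ∀ t ∈ I, ¬ adjP s t) →
  (((latS B).filter (fun s => decide (s ∈ I))).map (dl B)).sum =
    (B.map (fun b => (b.filter (fun s => decide (s ∈ I))).length)).sum ∧
  (∀ b ∈ B, (b.filter (fun s => decide (s ∈ I))).length ≤ 1) ∧ B.length ≤ sumD B

/-- task U1: a selection gives a colouring of large weight -/
def S_U1 : Prop := ∀ B, GoodB B → HasSel B → Th B ≤ Zw (latW B (tt B))

/-- task U2: without selection the partition function is small -/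
def S_U2 : Prop := ∀ B, GoodB B → ¬ HasSel B → 16 * Zw (latW B (tt B)) ≤ Th B

def S_U2i : Prop := S_U0a → S_U0b → S_U0c → S_U0d → S_U2

/-- task U3: the partition function is positive -/
def S_U3 : Prop := ∀ B t, GoodB B → 0 < Zw (latW B t)

/-- task U4: validity -/
def S_U4 : Prop := ∀ B t, GoodB B → IsWG (latW B t)

/-- task U1a: the colouring belonging to an independent set of sites -/
def S_U1a : Prop := ∀ B t, GoodB B → ∀ I : Finset Pt, (∀ s ∈ I, ∀ t ∈ I, ¬ adjP s t) →
  ∃ c : ℕ → Fin 4, (∀ e ∈ (latW B t).2.1, c e.1 ≠ c e.2) ∧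
    (∀ s ∈ latS B, s ∈ I → ∀ k < 9, c (aL s k) = c (cL s)) ∧
    (∀ s ∈ latS B, s ∉ I → ∀ k < 9, c (pL s k) = c (cL s) ∧ c (aL s k) ≠ c (cL s))

def S_U1i : Prop := S_U0a → S_U0d → S_U1a → S_U4 → S_U1
def S_U3i : Prop := S_U1a → S_U4 → S_U3

/-! ### The plane drawing -/

/-- Offsets of the types of vertices. -/
def offL : List (ℤ × ℤ) :=
  [(0, 0), (30, 0), (0, 30), (-30, 30), (16, 16), (-32, 16), (16, -32), (22, 8), (8, 22),
    (-18, 36), (-30, 22), (-30, 8), (-18, -18), (8, -30), (22, -30), (36, -18)]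

/-- The position of the vertex with label `v`. -/
def zpos (v : ℕ) : ℤ × ℤ :=
  (60 * (v.unpair.1.unpair.1 : ℤ) + (offL.getD v.unpair.2 (0, 0)).1,
    60 * (v.unpair.1.unpair.2 : ℤ) + (offL.getD v.unpair.2 (0, 0)).2)

/-- Twice the oriented area of a triangle. -/
def crossZ (A B C : ℤ × ℤ) : ℤ := (B.1 - A.1) * (C.2 - A.2) - (B.2 - A.2) * (C.1 - A.1)

/-- The points `C`, `D` are strictly on one side of the line `AB`. -/
def sep1 (A B C D : ℤ × ℤ) : Bool :=
  decide ((0 < crossZ A B C ∧ 0 < crossZ A B D) ∨ (crossZ A B C < 0 ∧ crossZ A B D < 0))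

/-- A sufficient condition for the segments `AB` and `CD` to be disjoint. -/
def sepT (A B C D : ℤ × ℤ) : Bool :=
  sep1 A B C D || sep1 C D A B || decide (max A.1 B.1 < min C.1 D.1) ||
    decide (max C.1 D.1 < min A.1 B.1) || decide (max A.2 B.2 < min C.2 D.2) ||
    decide (max C.2 D.2 < min A.2 B.2)

/-- A sufficient condition for the segments `AB` and `AD` to have only `A` in common. -/
def shareT (A B D : ℤ × ℤ) : Bool :=
  decide (crossZ A B D ≠ 0 ∨ (B.1 - A.1) * (D.1 - A.1) + (B.2 - A.2) * (D.2 - A.2) < 0)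

/-- The test for two edges `AB` and `CD`. -/
def okT (A B C D : ℤ × ℤ) : Bool :=
  decide (A = C ∧ B = D) || decide (A = D ∧ B = C) || sepT A B C D ||
    (decide (A = C) && shareT A B D) || (decide (A = D) && shareT A B C) ||
    (decide (B = C) && shareT B A D) || (decide (B = D) && shareT B A C)

/-- An integral point in the plane. -/
def toR (A : ℤ × ℤ) : ℝ × ℝ := ((A.1 : ℝ), (A.2 : ℝ))

/-- The edges of the wheel at `s`, with all three possible chords. -/
def edgesOf (s : Pt) : List (ℕ × ℕ) :=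
  rimOf s ++ [(aL s 1, aL (s.1 + 1, s.2) 4), (aL s 1, aL (s.1, s.2 + 1) 7),
    (aL s 4, aL (s.1 - 1, s.2 + 1) 7)] ++
    (List.range 9).flatMap (fun k => [(cL s, aL s k), (cL s, pL s k)])

/-- task U5a: geometry -/
def S_U5a : Prop := ∀ A B C D : ℤ × ℤ, okT A B C D = true → ∀ p : ℝ × ℝ,
  p ∈ segment ℝ (toR A) (toR B) → p ∈ segment ℝ (toR C) (toR D) →
    ((A = C ∧ B = D) ∨ (A = D ∧ B = C)) ∨
      ∃ w, p = toR w ∧ (w = A ∨ w = B) ∧ (w = C ∨ w = D)

/-- task U5b: the finite check -/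
def S_U5b : Prop := ∀ s s' : Pt, 1 ≤ s.1 → 1 ≤ s.2 → 1 ≤ s'.1 → 1 ≤ s'.2 →
  ∀ e ∈ edgesOf s, ∀ f ∈ edgesOf s', okT (zpos e.1) (zpos e.2) (zpos f.1) (zpos f.2) = true

/-- task U5: plane drawing -/
def S_U5 : Prop := ∀ B t, GoodB B →
  ∃ pos : ℕ → ℝ × ℝ,
    PlaneDrawing ((latW B t).1, (latW B t).2.1 ++ (latW B t).2.2.map Prod.fst) pos

def S_U5i : Prop := S_U5a → S_U5b → S_U5

/-! ## From CNF formulas to blocks -/

/-- The fixed blocks of a cell (the crossing gadget and the wires), in local coordinates. -/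
def cellA : List (List Pt) :=
  [[(5, 4), (4, 4), (5, 3)], [(3, 4), (4, 4), (4, 3)], [(5, 2), (5, 3), (4, 3)],
    [(4, 8), (5, 8), (4, 9)], [(6, 8), (5, 8), (5, 9)], [(4, 10), (4, 9), (5, 9)],
    [(10, 1), (11, 1), (10, 2)], [(12, 1), (11, 1), (11, 2)], [(10, 3), (10, 2), (11, 2)],
    [(7, 6), (6, 6)], [(6, 6), (5, 6)], [(5, 6), (5, 5)], [(5, 5), (5, 4)], [(7, 6), (7, 7)],
    [(7, 7), (6, 8)], [(7, 6), (8, 5)], [(8, 5), (9, 4)], [(9, 4), (10, 3)], [(2, 5), (3, 4)],
    [(2, 5), (2, 6)], [(2, 6), (2, 7)], [(2, 7), (2, 8)], [(2, 8), (3, 8)], [(3, 8), (4, 8)],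
    [(6, 1), (5, 2)], [(6, 1), (7, 1)], [(7, 1), (8, 1)], [(8, 1), (9, 1)], [(9, 1), (10, 1)],
    [(2, 8), (1, 9)], [(1, 9), (1, 10)], [(1, 10), (1, 11)], [(1, 11), (1, 12)],
    [(1, 12), (2, 12)], [(1, 12), (0, 13)], [(0, 13), (0, 14)], [(0, 14), (0, 15)],
    [(0, 15), (0, 16)], [(0, 16), (1, 16)], [(1, 16), (2, 16)], [(12, 1), (13, 1)],
    [(13, 1), (14, 1)], [(14, 1), (15, 1)], [(15, 1), (16, 1)], [(4, 13), (4, 14)],
    [(4, 17), (4, 18)]]

/-- The blocks of a cell: `a`, `b` say whether the negative, positive literal of the variable of the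
row occurs in the clause of the column. -/
def cellB (a b : Bool) : List (List Pt) :=
  cellA ++ [[(4, 11), (4, 12)] ++ (if a then [(3, 12)] else []),
    [(4, 15), (4, 16)] ++ (if b then [(3, 16)] else [])]

/-- The position of the point `p` (in local coordinates) of the cell in row `i` and column `j`. -/
def posn (n m i j : ℕ) (p : Pt) : Pt :=
  (15 * j + 2 * (n - i) + 1 + p.1, 18 * i + 4 * (m - j) + 1 + p.2)

/-- The blocks belonging to the cell in row `i` and column `j`. -/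
def cellBlocks (n m i j : ℕ) (a b : Bool) : List (List Pt) :=
  ((cellB a b ++ (if i = 0 then [[(6, 0)], [(6, 0), (6, 1)]] else [])) ++
    (if i + 1 = n then [[(4, 17)]] else [])).map (fun l : List Pt => l.map (posn n m i j)) ++
  ((if j + 1 < m then [[posn n m i j (16, 1), posn n m i (j + 1) (2, 5)]] else []) ++
    (if i + 1 < n then [[posn n m i j (4, 18), posn n m (i + 1) j (6, 1)]] else []))

/-- The rows: a dummy row and the variables. -/
def rows (φ : CNF ℕ) : List (Option ℕ) :=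
  none :: (φ.flatten.map Prod.snd).dedup.map some

/-- The literal `(b, o)` occurs in the clause `c`. -/
def occ (b : Bool) (o : Option ℕ) (c : List (Bool × ℕ)) : Bool :=
  decide (∃ l ∈ c, l.1 = b ∧ some l.2 = o)

/-- The blocks of a formula. -/
def blocksOf (φ : CNF ℕ) : List (List Pt) :=
  (rows φ).zipIdx.flatMap (fun r => φ.zipIdx.flatMap (fun c =>
    cellBlocks (rows φ).length φ.length r.2 c.2 (occ false r.1 c.1) (occ true r.1 c.1)))

/-- task C1: validity of the blocks -/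
def S_C1 : Prop := ∀ φ, GoodB (blocksOf φ)

/-- `p` is a site of a cell of row `i` (in local coordinates). -/
def SiteP (i : ℕ) (p : Pt) : Prop := (∃ b ∈ cellB true true, p ∈ b) ∨ (i = 0 ∧ p = (6, 0))

/-- task C2a: adjacent sites of cells -/
def S_C2a : Prop := ∀ (n m i j i' j' : ℕ) (p q : Pt), i < n → i' < n → j < m → j' < m →
  SiteP i p → SiteP i' q → adjP (posn n m i j p) (posn n m i' j' q) →
  (i' = i ∧ j' = j ∧ adjP p q) ∨
  (i' = i ∧ j' = j + 1 ∧ p = (16, 1) ∧ q = (2, 5)) ∨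
  (i = i' ∧ j = j' + 1 ∧ q = (16, 1) ∧ p = (2, 5)) ∨
  (i' = i + 1 ∧ j' = j ∧ p = (4, 18) ∧ q = (6, 1)) ∨
  (i = i' + 1 ∧ j = j' ∧ q = (4, 18) ∧ p = (6, 1))

/-- task C2b: different cells have different sites -/
def S_C2b : Prop := ∀ (n m i j i' j' : ℕ) (p q : Pt), i < n → i' < n → j < m → j' < m →
  SiteP i p → SiteP i' q → posn n m i j p = posn n m i' j' q → i = i' ∧ j = j' ∧ p = q

/-- A local selection: independent and exactly one site in each block of the cell. -/
def LSel (a b : Bool) (I : Pt → Bool) : Prop :=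
  (∀ l ∈ cellB a b, (l.filter I).length = 1) ∧
  ∀ l ∈ cellB a b, ∀ l' ∈ cellB a b, ∀ p ∈ l, ∀ q ∈ l', I p = true → I q = true → ¬ adjP p q

/-- task C3: the relation of a cell, necessary condition -/
def S_C3 : Prop := ∀ (a b : Bool) (I : Pt → Bool), LSel a b I →
  (I (16, 1) = !I (2, 5)) ∧
  (I (4, 17) = true → I (6, 1) = true ∨ (a = true ∧ I (2, 5) = false) ∨
    (b = true ∧ I (2, 5) = true)) ∧
  (I (4, 18) = !I (4, 17))

/-- task C4: the relation of a cell, sufficient condition -/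
def S_C4 : Prop := ∀ (a b X Y Y' : Bool),
  (Y' = true → Y = true ∨ (a = true ∧ X = false) ∨ (b = true ∧ X = true)) →
  ∃ I : Pt → Bool, LSel a b I ∧ I (2, 5) = X ∧ I (6, 1) = Y ∧ I (4, 17) = Y'

/-- task C5: satisfiable formulas give selections -/
def S_C5 : Prop := ∀ φ, 0 < satCount φ → HasSel (blocksOf φ)

def S_C5i : Prop := S_C2a → S_C2b → S_C3 → S_C4 → S_C5

/-- task C6: selections give satisfying assignments -/
def S_C6 : Prop := ∀ φ, HasSel (blocksOf φ) → 0 < satCount φ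

def S_C6i : Prop := S_C3 → S_C6

/-! ## Polynomial time and assembly -/

/-- The planar graph of a formula. -/
def gOf (φ : CNF ℕ) : Gr := thick (latW (blocksOf φ) (tt (blocksOf φ)))

/-- task V1 -/
def S_V1 : Prop := Poly blocksOf

/-- task V2 -/
def S_V2 : Prop := UPoly (fun B : List (List Pt) => tt B) ∧ Poly latS ∧
  Poly (fun x : List (List Pt) × Pt => dl x.1 x.2)

/-- task V3 -/
def S_V3 : Prop := Poly (fun B : List (List Pt) => Th B)

/-- task V4 -/
def S_V4 : Prop := Poly (fun B : List (List Pt) => latW B (tt B))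

/-- task V5 -/
def S_V5 : Prop := Poly (fun B : List (List Pt) => thick (latW B (tt B)))

/-- task W: the randomised test for satisfiability -/
def S_W : Prop := S_T1 → S_T2 → S_U1 → S_U2 → S_U3 → S_U4 → S_U5 → S_C1 → S_C5 → S_C6 →
  S_V1 → S_V3 → S_V5 → HasFPRASOn IsPlanar (numCol 4) → Pool.Agent.H49R2.PY.RandSat0

end Pool.Agent.H49R2.PC
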