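import Pool.Agent.H49R2.PC.Stubs

/-!
# Task U5b: the finite check of the drawing
-/

namespace Pool.Agent.H49R2.PC

open Pool.Agent.NPC Pool.Agent.NPC.Cnt Finset

namespace U5baux

/-- Translation. -/
def tr (t A : ℤ × ℤ) : ℤ × ℤ := (A.1 + t.1, A.2 + t.2)

theorem tr_inj (t A B : ℤ × ℤ) : tr t A = tr t B ↔ A = B := by
  unfold tr
  rw [Prod.ext_iff, Prod.ext_iff]
  simp

theorem cross_tr (t A B C : ℤ × ℤ) : crossZ (tr t A) (tr t B) (tr t C) = crossZ A B C := by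
  unfold crossZ tr
  simp only
  ring

theorem sep1_tr (t A B C D : ℤ × ℤ) :
    sep1 (tr t A) (tr t B) (tr t C) (tr t D) = sep1 A B C D := by
  unfold sep1
  rw [cross_tr, cross_tr]

theorem sepT_tr (t A B C D : ℤ × ℤ) :
    sepT (tr t A) (tr t B) (tr t C) (tr t D) = sepT A B C D := by
  have h : ∀ a b c d u : ℤ, (max (a + u) (b + u) < min (c + u) (d + u)) ↔
      (max a b < min c d) := by
    intro a b c d u
    omega
  unfold sepT
  rw [sep1_tr, sep1_tr, Bool.eq_iff_iff]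
  simp only [Bool.or_eq_true, decide_eq_true_eq]
  simp only [tr, h]

theorem shareT_tr (t A B D : ℤ × ℤ) : shareT (tr t A) (tr t B) (tr t D) = shareT A B D := by
  unfold shareT
  rw [cross_tr]
  simp only [tr, add_sub_add_right_eq_sub]

theorem okT_tr (t A B C D : ℤ × ℤ) :
    okT (tr t A) (tr t B) (tr t C) (tr t D) = okT A B C D := by
  unfold okT
  rw [sepT_tr]
  simp only [shareT_tr, tr_inj]

/-- Relative positions of the `a`-vertices. -/
def ra : List (ℤ × ℤ) :=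
  [(30, 0), (16, 16), (0, 30), (-30, 30), (-32, 16), (-30, 0), (0, -30), (16, -32), (30, -30)]

/-- Relative positions of the `p`-vertices. -/
def rp : List (ℤ × ℤ) :=
  [(22, 8), (8, 22), (-18, 36), (-30, 22), (-30, 8), (-18, -18), (8, -30), (22, -30), (36, -18)]

/-- Relative edges. -/
def E : List ((ℤ × ℤ) × (ℤ × ℤ)) :=
  (List.range 9).flatMap (fun k => [(ra.getD k (0, 0), rp.getD k (0, 0)),
    (rp.getD k (0, 0), ra.getD ((k + 1) % 9) (0, 0))]) ++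
  [((16, 16), (28, 16)), ((16, 16), (16, 28)), ((-32, 16), (-44, 28))] ++
  (List.range 9).flatMap (fun k => [((0, 0), ra.getD k (0, 0)), ((0, 0), rp.getD k (0, 0))])

/-- The position of a site. -/
def bs (s : Pt) : ℤ × ℤ := (60 * (s.1 : ℤ), 60 * (s.2 : ℤ))

theorem zpos_vl (x y τ : ℕ) : zpos (vl x y τ) =
    (60 * (x : ℤ) + (offL.getD τ (0, 0)).1, 60 * (y : ℤ) + (offL.getD τ (0, 0)).2) := by
  unfold zpos vl
  simp only [Nat.unpair_pair]

theorem zpos_c (s : Pt) : zpos (cL s) = tr (bs s) (0, 0) := by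
  unfold cL
  rw [zpos_vl]
  simp [tr, bs, offL]

theorem zpos_p (s : Pt) (k : ℕ) (hk : k < 9) : zpos (pL s k) = tr (bs s) (rp.getD k (0, 0)) := by
  unfold pL
  rw [zpos_vl]
  interval_cases k <;> simp [tr, bs, offL, rp] <;> constructor <;> ring

theorem zpos_a (s : Pt) (h1 : 1 ≤ s.1) (h2 : 1 ≤ s.2) (k : ℕ) (hk : k < 9) :
    zpos (aL s k) = tr (bs s) (ra.getD k (0, 0)) := by
  obtain ⟨x, y⟩ := s
  simp only at h1 h2
  obtain ⟨x, rfl⟩ : ∃ x', x = x' + 1 := ⟨x - 1, by omega⟩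
  obtain ⟨y, rfl⟩ : ∃ y', y = y' + 1 := ⟨y - 1, by omega⟩
  unfold aL
  interval_cases k <;> simp [zpos_vl, tr, bs, offL, ra] <;> first | constructor <;> ring | ring

/-! ### The finite check -/

/-- The check for the offset `d`. -/
def chk (d : ℤ × ℤ) : Bool :=
  E.all fun e => E.all fun f => okT e.1 e.2 (tr (60 * d.1, 60 * d.2) f.1) (tr (60 * d.1, 60 * d.2) f.2)

theorem chk_all : ∀ d ∈ ([(-1, -1), (-1, 0), (-1, 1), (0, -1), (0, 0), (0, 1), (1, -1), (1, 0),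
    (1, 1)] : List (ℤ × ℤ)), chk d = true := by
  decide +kernel

/-- All relative coordinates lie in the interval `[-44, 36]`. -/
theorem box : ∀ e ∈ E, ((-44 ≤ e.1.1 ∧ e.1.1 ≤ 36) ∧ (-44 ≤ e.1.2 ∧ e.1.2 ≤ 36)) ∧
    ((-44 ≤ e.2.1 ∧ e.2.1 ≤ 36) ∧ (-44 ≤ e.2.2 ∧ e.2.2 ≤ 36)) := by
  decide +kernel

theorem edge_rel (s : Pt) (h1 : 1 ≤ s.1) (h2 : 1 ≤ s.2) (e : ℕ × ℕ) (he : e ∈ edgesOf s) :
    ∃ r ∈ E, zpos e.1 = tr (bs s) r.1 ∧ zpos e.2 = tr (bs s) r.2 := by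
  unfold edgesOf rimOf at he
  rw [List.mem_append, List.mem_append] at he
  rcases he with (he | he) | he
  · rw [List.mem_flatMap] at he
    obtain ⟨k, hk, he⟩ := he
    have hk9 := List.mem_range.mp hk
    simp only [List.mem_cons, List.not_mem_nil, or_false] at he
    rcases he with rfl | rfl
    · refine ⟨(ra.getD k (0, 0), rp.getD k (0, 0)), ?_, zpos_a s h1 h2 k hk9, zpos_p s k hk9⟩
      unfold E
      rw [List.mem_append, List.mem_append]
      exact Or.inl (Or.inl (List.mem_flatMap.mpr ⟨k, hk, by simp⟩))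
    · refine ⟨(rp.getD k (0, 0), ra.getD ((k + 1) % 9) (0, 0)), ?_, zpos_p s k hk9,
        zpos_a s h1 h2 _ (Nat.mod_lt _ (by norm_num))⟩
      unfold E
      rw [List.mem_append, List.mem_append]
      exact Or.inl (Or.inl (List.mem_flatMap.mpr ⟨k, hk, by simp⟩))
  · simp only [List.mem_cons, List.not_mem_nil, or_false] at he
    rcases he with rfl | rfl | rfl
    · refine ⟨((16, 16), (28, 16)), ?_, zpos_a s h1 h2 1 (by norm_num), ?_⟩
      · unfold E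
        simp
      · rw [zpos_a (s.1 + 1, s.2) (by simp) h2 4 (by norm_num)]
        simp [tr, bs, ra]
        ring
    · refine ⟨((16, 16), (16, 28)), ?_, zpos_a s h1 h2 1 (by norm_num), ?_⟩
      · unfold E
        simp
      · rw [zpos_a (s.1, s.2 + 1) h1 (by simp) 7 (by norm_num)]
        simp [tr, bs, ra]
        ring
    · refine ⟨((-32, 16), (-44, 28)), ?_, zpos_a s h1 h2 4 (by norm_num), ?_⟩
      · unfold E
        simp
      · obtain ⟨x, y⟩ := s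
        simp only at h1 h2
        obtain ⟨x, rfl⟩ : ∃ x', x = x' + 1 := ⟨x - 1, by omega⟩
        unfold aL
        simp [zpos_vl, tr, bs, offL]
        constructor <;> ring
  · rw [List.mem_flatMap] at he
    obtain ⟨k, hk, he⟩ := he
    have hk9 := List.mem_range.mp hk
    simp only [List.mem_cons, List.not_mem_nil, or_false] at he
    rcases he with rfl | rfl
    · refine ⟨((0, 0), ra.getD k (0, 0)), ?_, zpos_c s, zpos_a s h1 h2 k hk9⟩
      unfold E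
      rw [List.mem_append, List.mem_append]
      exact Or.inr (List.mem_flatMap.mpr ⟨k, hk, by simp⟩)
    · refine ⟨((0, 0), rp.getD k (0, 0)), ?_, zpos_c s, zpos_p s k hk9⟩
      unfold E
      rw [List.mem_append, List.mem_append]
      exact Or.inr (List.mem_flatMap.mpr ⟨k, hk, by simp⟩)

theorem tr_bs (s s' : Pt) (A : ℤ × ℤ) : tr (bs s') A =
    tr (bs s) (tr (60 * ((s'.1 : ℤ) - s.1), 60 * ((s'.2 : ℤ) - s.2)) A) := by
  unfold tr bs
  simp only [Prod.mk.injEq]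
  constructor <;> ring

theorem far (A B C D : ℤ × ℤ) (d1 d2 : ℤ)
    (hA : (-44 ≤ A.1 ∧ A.1 ≤ 36) ∧ (-44 ≤ A.2 ∧ A.2 ≤ 36))
    (hB : (-44 ≤ B.1 ∧ B.1 ≤ 36) ∧ (-44 ≤ B.2 ∧ B.2 ≤ 36))
    (hC : (-44 ≤ C.1 ∧ C.1 ≤ 36) ∧ (-44 ≤ C.2 ∧ C.2 ≤ 36))
    (hD : (-44 ≤ D.1 ∧ D.1 ≤ 36) ∧ (-44 ≤ D.2 ∧ D.2 ≤ 36))
    (h : (2 ≤ d1 ∨ d1 ≤ -2) ∨ (2 ≤ d2 ∨ d2 ≤ -2)) :
    okT A B (tr (60 * d1, 60 * d2) C) (tr (60 * d1, 60 * d2) D) = true := by
  have h3 : sepT A B (tr (60 * d1, 60 * d2) C) (tr (60 * d1, 60 * d2) D) = true := by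
    unfold sepT
    simp only [Bool.or_eq_true, decide_eq_true_eq]
    simp only [tr]
    have key : max A.1 B.1 < min (C.1 + 60 * d1) (D.1 + 60 * d1) ∨
        max (C.1 + 60 * d1) (D.1 + 60 * d1) < min A.1 B.1 ∨
        max A.2 B.2 < min (C.2 + 60 * d2) (D.2 + 60 * d2) ∨
        max (C.2 + 60 * d2) (D.2 + 60 * d2) < min A.2 B.2 := by
      omega
    tauto
  unfold okT
  simp only [h3, Bool.or_true, Bool.true_or]

end U5baux

open U5baux in
theorem U5b_ok : S_U5b := by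
  intro s s' h1 h2 h1' h2' e he f hf
  obtain ⟨r, hr, hr1, hr2⟩ := edge_rel s h1 h2 e he
  obtain ⟨r', hr', hr1', hr2'⟩ := edge_rel s' h1' h2' f hf
  rw [hr1, hr2, hr1', hr2', tr_bs s s', tr_bs s s', okT_tr]
  obtain ⟨d1, hd1⟩ : ∃ d1, d1 = (s'.1 : ℤ) - s.1 := ⟨_, rfl⟩
  obtain ⟨d2, hd2⟩ : ∃ d2, d2 = (s'.2 : ℤ) - s.2 := ⟨_, rfl⟩
  rw [← hd1, ← hd2]
  by_cases h : (2 ≤ d1 ∨ d1 ≤ -2) ∨ (2 ≤ d2 ∨ d2 ≤ -2)
  · obtain ⟨b1, b2⟩ := box r hr
    obtain ⟨b3, b4⟩ := box r' hr'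
    exact far _ _ _ _ d1 d2 b1 b2 b3 b4 h
  · have hd : (d1, d2) ∈ ([(-1, -1), (-1, 0), (-1, 1), (0, -1), (0, 0), (0, 1), (1, -1), (1, 0),
        (1, 1)] : List (ℤ × ℤ)) := by
      have g1 : d1 = -1 ∨ d1 = 0 ∨ d1 = 1 := by omega
      have g2 : d2 = -1 ∨ d2 = 0 ∨ d2 = 1 := by omega
      rcases g1 with rfl | rfl | rfl <;> rcases g2 with rfl | rfl | rfl <;> simp
    have hc := chk_all _ hd
    unfold chk at hc
    rw [List.all_eq_true] at hc
    have hc1 := hc r hr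
    rw [List.all_eq_true] at hc1
    exact hc1 r' hr'

end Pool.Agent.H49R2.PC
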